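import Pool.Agent.AE15.Sampling

/-!
# Sampling lemma, proportional form

`exists_split_prop`: a set of size `N * m` is the disjoint union of `N` classes of size exactly `m`
such that every member `S` of a given family of subsets meets every class in at least
`|S| / N - ε m` elements, if the family has fewer than `exp (ε² m / 4) / N` members.
-/

set_option autoImplicit false

namespace Pool.Agent.AE15

open Finset

section core

variable {m N : ℕ} [NeZero N]

/-- The weight of a shift in one block, with base `q`. -/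
noncomputable def wgq (q : ℝ) (S : Finset (Fin m × Fin N)) (i : Fin N) (B : Fin m) (σ : Fin N) :
    ℝ :=
  if (B, i - σ) ∈ S then q else 1

lemma sum_wgq (q : ℝ) (S : Finset (Fin m × Fin N)) (i : Fin N) (B : Fin m) :
    ∑ σ, wgq q S i B σ = N - (1 - q) * ((S.filter (fun x => x.1 = B)).card : ℝ) := by
  have h1 : (S.filter (fun x => x.1 = B)).card =
      (Finset.univ.filter (fun σ : Fin N => (B, i - σ) ∈ S)).card := by
    refine Finset.card_bij (fun x _ => i - x.2) ?_ ?_ ?_
    · rintro ⟨B', p⟩ hx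
      simp only [mem_filter, mem_univ, true_and] at hx ⊢
      obtain ⟨hx, rfl⟩ := hx
      rw [sub_sub_cancel]
      exact hx
    · rintro ⟨B1, p⟩ hx ⟨B2, p'⟩ hx' h
      simp only [mem_filter] at hx hx' h
      obtain ⟨_, rfl⟩ := hx
      obtain ⟨_, rfl⟩ := hx'
      rw [sub_right_inj] at h
      rw [h]
    · intro σ hσ
      simp only [mem_filter, mem_univ, true_and] at hσ
      exact ⟨(B, i - σ), by simp [hσ], by simp⟩
  rw [h1]
  have h2 : ∀ σ : Fin N, wgq q S i B σ = 1 - (if (B, i - σ) ∈ S then 1 - q else 0) := by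
    intro σ
    unfold wgq
    split_ifs <;> ring
  simp only [h2]
  rw [Finset.sum_sub_distrib, ← Finset.sum_filter]
  simp only [Finset.sum_const, Finset.card_univ, Fintype.card_fin, nsmul_eq_mul]
  ring

lemma sum_shift_q {q : ℝ} (hq : 0 ≤ q) (S : Finset (Fin m × Fin N)) (i : Fin N) :
    ∑ s : Fin m → Fin N, q ^ (S.filter (fun x => x.2 + s x.1 = i)).card ≤
      (N : ℝ) ^ m * Real.exp (-((1 - q) * S.card / N)) := by
  have hN : (0 : ℝ) < N := by exact_mod_cast Nat.pos_of_ne_zero (NeZero.ne N)
  have h1 : ∀ s : Fin m → Fin N,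
      q ^ (S.filter (fun x => x.2 + s x.1 = i)).card = ∏ B, wgq q S i B (s B) := by
    intro s
    rw [card_class]
    unfold wgq
    rw [Finset.prod_ite]
    simp
  simp only [h1]
  have h2 := Finset.prod_univ_sum (fun _ : Fin m => (Finset.univ : Finset (Fin N)))
    (fun B σ => wgq q S i B σ)
  rw [Fintype.piFinset_univ] at h2
  rw [← h2]
  have h3 : ∀ B : Fin m, ∑ σ, wgq q S i B σ ≤
      (N : ℝ) * Real.exp (-((1 - q) * ((S.filter (fun x => x.1 = B)).card : ℝ) / N)) := by
    intro B
    rw [sum_wgq]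
    have h4 := Real.add_one_le_exp (-((1 - q) * ((S.filter (fun x => x.1 = B)).card : ℝ) / N))
    have h5 := mul_le_mul_of_nonneg_left h4 hN.le
    refine le_trans (le_of_eq ?_) h5
    field_simp
    ring
  have h3' : ∀ B : Fin m, 0 ≤ ∑ σ, wgq q S i B σ := by
    intro B
    apply Finset.sum_nonneg
    intro σ _
    unfold wgq
    split_ifs
    · exact hq
    · norm_num
  refine (Finset.prod_le_prod (fun B _ => h3' B) (fun B _ => h3 B)).trans (le_of_eq ?_)
  rw [Finset.prod_mul_distrib, Finset.prod_const, Finset.card_univ, Fintype.card_fin,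
    ← Real.exp_sum]
  congr 2
  rw [Finset.sum_neg_distrib, ← Finset.sum_div, ← Finset.mul_sum]
  congr 3
  rw [← Nat.cast_sum]
  congr 1
  exact (Finset.card_eq_sum_card_fiberwise (f := fun x : Fin m × Fin N => x.1) (s := S)
    (t := Finset.univ) (fun x _ => Finset.mem_coe.2 (Finset.mem_univ _))).symm

lemma card_bad_prop (S : Finset (Fin m × Fin N)) (i : Fin N) {ε : ℝ} (h0 : 0 ≤ ε) (h1 : ε ≤ 1) :
    ((Finset.univ.filter (fun s : Fin m → Fin N =>
      ((S.filter (fun x => x.2 + s x.1 = i)).card : ℝ) < S.card / N - ε * m)).card : ℝ) *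
        Real.exp (ε ^ 2 * m / 4) ≤ (N : ℝ) ^ m := by
  have hN : (0 : ℝ) < N := by exact_mod_cast Nat.pos_of_ne_zero (NeZero.ne N)
  set q := Real.exp (-(ε / 2)) with hq
  set bad := Finset.univ.filter (fun s : Fin m → Fin N =>
      ((S.filter (fun x => x.2 + s x.1 = i)).card : ℝ) < S.card / N - ε * m) with hbad
  have hcard : (S.card : ℝ) / N ≤ m := by
    rw [div_le_iff₀ hN]
    have := Finset.card_le_univ S
    rw [Fintype.card_prod, Fintype.card_fin, Fintype.card_fin] at this
    exact_mod_cast this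
  have hq1 : 1 - q ≥ ε / 2 - (ε / 2) ^ 2 := by
    have h2 := Real.abs_exp_sub_one_sub_id_le (x := -(ε / 2)) (by
      rw [abs_neg, abs_of_nonneg (by linarith)]; linarith)
    rw [abs_le] at h2
    have h3 := h2.2
    rw [hq]
    nlinarith
  have h2 : (bad.card : ℝ) * Real.exp (-(ε / 2) * (S.card / N - ε * m)) ≤
      (N : ℝ) ^ m * Real.exp (-((1 - q) * S.card / N)) := by
    refine le_trans ?_ (sum_shift_q (Real.exp_pos _).le S i)
    calc (bad.card : ℝ) * Real.exp (-(ε / 2) * (S.card / N - ε * m))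
        = ∑ s ∈ bad, Real.exp (-(ε / 2) * (S.card / N - ε * m)) := by
          rw [Finset.sum_const, nsmul_eq_mul]
      _ ≤ ∑ s ∈ bad, q ^ (S.filter (fun x => x.2 + s x.1 = i)).card := by
          apply Finset.sum_le_sum
          intro s hs
          rw [hbad, mem_filter] at hs
          rw [hq, ← Real.exp_nat_mul]
          apply Real.exp_le_exp.2
          nlinarith [hs.2]
      _ ≤ _ := by
          apply Finset.sum_le_sum_of_subset_of_nonneg (Finset.subset_univ _)
          intro s _ _
          exact pow_nonneg (Real.exp_pos _).le _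
  have h3 : (bad.card : ℝ) * Real.exp (ε ^ 2 * m / 4) =
      ((bad.card : ℝ) * Real.exp (-(ε / 2) * (S.card / N - ε * m))) *
        Real.exp (ε ^ 2 * m / 4 + (ε / 2) * (S.card / N - ε * m)) := by
    rw [mul_assoc, ← Real.exp_add]
    congr 2
    ring
  rw [h3]
  calc ((bad.card : ℝ) * Real.exp (-(ε / 2) * (S.card / N - ε * m))) *
        Real.exp (ε ^ 2 * m / 4 + (ε / 2) * (S.card / N - ε * m)) ≤
      ((N : ℝ) ^ m * Real.exp (-((1 - q) * S.card / N))) *
        Real.exp (ε ^ 2 * m / 4 + (ε / 2) * (S.card / N - ε * m)) :=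
        mul_le_mul_of_nonneg_right h2 (Real.exp_pos _).le
    _ = (N : ℝ) ^ m * Real.exp (-((1 - q) * S.card / N) +
        (ε ^ 2 * m / 4 + (ε / 2) * (S.card / N - ε * m))) := by
        rw [mul_assoc, ← Real.exp_add]
    _ ≤ (N : ℝ) ^ m * Real.exp 0 := by
        apply mul_le_mul_of_nonneg_left _ (by positivity)
        apply Real.exp_le_exp.2
        have h5 : (0 : ℝ) ≤ S.card / N := by positivity
        have h6 : (1 - q) * S.card / N = (1 - q) * (S.card / N) := by ring
        rw [h6]
        nlinarith [mul_le_mul_of_nonneg_right hq1 h5, mul_nonneg (sq_nonneg ε) h5,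
          mul_le_mul_of_nonneg_left hcard (sq_nonneg ε)]
    _ = (N : ℝ) ^ m := by rw [Real.exp_zero, mul_one]

lemma exists_shift_prop (F : Finset (Finset (Fin m × Fin N))) {ε : ℝ} (h0 : 0 ≤ ε) (h1 : ε ≤ 1)
    (hc : (F.card : ℝ) * N < Real.exp (ε ^ 2 * m / 4)) :
    ∃ s : Fin m → Fin N, ∀ S ∈ F, ∀ i : Fin N,
      (S.card : ℝ) / N - ε * m ≤ ((S.filter (fun x => x.2 + s x.1 = i)).card : ℝ) := by
  classical
  by_contra hcon
  push Not at hcon
  have hN : (0 : ℝ) < N := by exact_mod_cast Nat.pos_of_ne_zero (NeZero.ne N)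
  have hcov : (Finset.univ : Finset (Fin m → Fin N)) ⊆
      (F ×ˢ (Finset.univ : Finset (Fin N))).biUnion (fun q =>
        Finset.univ.filter (fun s : Fin m → Fin N =>
          ((q.1.filter (fun x => x.2 + s x.1 = q.2)).card : ℝ) < q.1.card / N - ε * m)) := by
    intro s _
    obtain ⟨S, hS, i, hi⟩ := hcon s
    rw [mem_biUnion]
    exact ⟨(S, i), by simp [hS], by simpa using hi⟩
  have h1 := (Finset.card_le_card hcov).trans Finset.card_biUnion_le
  rw [Finset.card_univ, Fintype.card_fun, Fintype.card_fin, Fintype.card_fin] at h1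
  have h2 : ((N ^ m : ℕ) : ℝ) * Real.exp (ε ^ 2 * m / 4) ≤ (F.card * N : ℕ) * (N : ℝ) ^ m := by
    have h3 : ((N ^ m : ℕ) : ℝ) ≤ ∑ q ∈ F ×ˢ (Finset.univ : Finset (Fin N)),
        ((Finset.univ.filter (fun s : Fin m → Fin N =>
          ((q.1.filter (fun x => x.2 + s x.1 = q.2)).card : ℝ) < q.1.card / N - ε * m)).card : ℝ)
          := by
      exact_mod_cast h1
    refine (mul_le_mul_of_nonneg_right h3 (Real.exp_pos _).le).trans ?_
    rw [Finset.sum_mul]
    refine (Finset.sum_le_sum (g := fun _ => (N : ℝ) ^ m) (fun q _ =>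
      card_bad_prop q.1 q.2 h0 (by assumption))).trans (le_of_eq ?_)
    rw [Finset.sum_const, nsmul_eq_mul, card_product, Finset.card_univ, Fintype.card_fin]
  have h5 : (0 : ℝ) < (N : ℝ) ^ m := by positivity
  push_cast at h2
  nlinarith

end core

/-- **Sampling lemma, proportional form.** A set `X` of size `N * m` has a partition into `N`
classes of size exactly `m` such that every member `S` of the family `F` of subsets of `X` meets
every class in at least `|S| / N - ε m` elements, provided that `|F| N < exp (ε² m / 4)`. -/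
theorem exists_split_prop {A : Type*} [DecidableEq A] (X : Finset A) (N m : ℕ) (hN : 0 < N)
    (hX : X.card = N * m) (F : Finset (Finset A)) (hF : ∀ S ∈ F, S ⊆ X) {ε : ℝ} (h0 : 0 ≤ ε)
    (h1 : ε ≤ 1) (hc : (F.card : ℝ) * N < Real.exp (ε ^ 2 * m / 4)) :
    ∃ f : A → Fin N, (∀ i, (X.filter (fun x => f x = i)).card = m) ∧
      ∀ S ∈ F, ∀ i, (S.card : ℝ) / N - ε * m ≤ ((S.filter (fun x => f x = i)).card : ℝ) := by
  classical
  have : NeZero N := ⟨hN.ne'⟩
  have hcard : Fintype.card X = Fintype.card (Fin m × Fin N) := by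
    rw [Fintype.card_coe, hX, Fintype.card_prod, Fintype.card_fin, Fintype.card_fin, mul_comm]
  let e : X ≃ Fin m × Fin N := Fintype.equivOfCardEq hcard
  let im : Finset A → Finset (Fin m × Fin N) := fun S =>
    Finset.univ.filter (fun q => ((e.symm q : X) : A) ∈ S)
  have him : ∀ S ⊆ X, ∀ P : Fin m × Fin N → Prop, [DecidablePred P] →
      ((im S).filter P).card = (S.filter (fun x => ∃ h : x ∈ X, P (e ⟨x, h⟩))).card := by
    intro S hS P _
    refine Finset.card_bij (fun q _ => ((e.symm q : X) : A)) ?_ ?_ ?_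
    · intro q hq
      simp only [im, mem_filter, mem_univ, true_and] at hq ⊢
      refine ⟨hq.1, (e.symm q).2, ?_⟩
      have : e ⟨((e.symm q : X) : A), (e.symm q).2⟩ = q := by
        rw [Subtype.coe_eta, Equiv.apply_symm_apply]
      rw [this]
      exact hq.2
    · intro q _ q' _ h
      exact e.symm.injective (Subtype.ext h)
    · intro x hx
      rw [mem_filter] at hx
      obtain ⟨hxS, hxX, hP⟩ := hx
      refine ⟨e ⟨x, hxX⟩, ?_, by simp⟩
      simp only [im, mem_filter, mem_univ, true_and, Equiv.symm_apply_apply]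
      exact ⟨hxS, hP⟩
  have himc : ∀ S ⊆ X, (im S).card = S.card := by
    intro S hS
    have h := him S hS (fun _ => True)
    rw [Finset.filter_true] at h
    rw [h]
    congr 1
    apply Finset.filter_true_of_mem
    intro x hx
    exact ⟨hS hx, trivial⟩
  obtain ⟨s, hs⟩ := exists_shift_prop (F.image im) h0 h1 (lt_of_le_of_lt (by
    have : ((F.image im).card : ℝ) ≤ F.card := by exact_mod_cast Finset.card_image_le
    exact mul_le_mul_of_nonneg_right this (by positivity)) hc)
  let f : A → Fin N := fun x => if h : x ∈ X then (e ⟨x, h⟩).2 + s (e ⟨x, h⟩).1 else 0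
  have hf : ∀ S ⊆ X, ∀ i, (S.filter (fun x => f x = i)).card =
      ((im S).filter (fun q => q.2 + s q.1 = i)).card := by
    intro S hS i
    rw [him S hS]
    congr 1
    apply Finset.filter_congr
    intro x hx
    have hxX := hS hx
    simp only [f, dif_pos hxX]
    exact ⟨fun h => ⟨hxX, h⟩, fun ⟨_, h⟩ => h⟩
  refine ⟨f, fun i => ?_, fun S hS i => ?_⟩
  · rw [hf X (Finset.Subset.refl _)]
    have hu : im X = Finset.univ := by
      apply Finset.filter_true_of_mem
      intro q _
      exact (e.symm q).2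
    rw [hu, card_class]
    simp
  · rw [hf S (hF S hS), ← himc S (hF S hS)]
    exact hs _ (Finset.mem_image_of_mem im hS) i

end Pool.Agent.AE15
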