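import Pool.Agent.AE15.Defs
import Pool.Agent.AE15.SamplingProp

/-!
# Representative pieces

`exists_pieces`: disjoint representative subsets of prescribed sizes of a large set.
-/

set_option autoImplicit false

namespace AE15

open Finset Filter Topology
open scoped Classical

lemma exists_large_pow (d N : ℕ) (hN : 0 < N) (δ : ℝ) (hδ : 0 < δ) :
    ∃ n0 : ℕ, ∀ n : ℕ, n0 ≤ n → (n : ℝ) ^ d * N < Real.exp (δ ^ 2 * (n / N : ℕ) / 4) := by
  have hNr : (0 : ℝ) < N := by exact_mod_cast hN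
  set c : ℝ := δ ^ 2 / (4 * N) with hc
  have hcpos : 0 < c := by positivity
  set E : ℝ := Real.exp (δ ^ 2 / 4) with hE
  have hEpos : 0 < E := Real.exp_pos _
  have ht : Tendsto (fun n : ℕ => (c * (n : ℝ)) ^ d * Real.exp (-(c * (n : ℝ)))) atTop (𝓝 0) := by
    have h1 := Real.tendsto_pow_mul_exp_neg_atTop_nhds_zero d
    exact h1.comp ((tendsto_natCast_atTop_atTop (R := ℝ)).const_mul_atTop hcpos)
  have hev := ht.eventually (gt_mem_nhds (show (0 : ℝ) < c ^ d / (N * E) by positivity))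
  obtain ⟨n0, hn0⟩ := eventually_atTop.1 hev
  refine ⟨n0, fun n hn => ?_⟩
  have h1 := hn0 n hn
  rw [lt_div_iff₀ (by positivity)] at h1
  have h2 : (n : ℝ) ^ d * N * E * Real.exp (-(c * n)) < 1 := by
    have h3 : (c * (n : ℝ)) ^ d * Real.exp (-(c * n)) * (N * E) =
        c ^ d * ((n : ℝ) ^ d * N * E * Real.exp (-(c * n))) := by ring
    rw [h3] at h1
    have h4 : (0 : ℝ) < c ^ d := by positivity
    nlinarith
  have h5 : (n : ℝ) ^ d * N * E < Real.exp (c * n) := by
    have h6 : Real.exp (-(c * n)) * Real.exp (c * n) = 1 := by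
      rw [← Real.exp_add]; simp
    have h7 := mul_lt_mul_of_pos_right h2 (Real.exp_pos (c * n))
    rw [mul_assoc, h6, mul_one, one_mul] at h7
    exact h7
  have h8 : c * n - δ ^ 2 / 4 ≤ δ ^ 2 * (n / N : ℕ) / 4 := by
    have h9 : (n : ℝ) ≤ N * (n / N : ℕ) + N := by
      have := Nat.div_add_mod n N
      have h10 := Nat.mod_lt n hN
      have h11 : n ≤ N * (n / N) + N := by omega
      exact_mod_cast h11
    have h12 : c * n ≤ c * (N * (n / N : ℕ) + N) := mul_le_mul_of_nonneg_left h9 hcpos.le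
    have h13 : c * (N * (n / N : ℕ) + N) = δ ^ 2 * (n / N : ℕ) / 4 + δ ^ 2 / 4 := by
      rw [hc]
      field_simp
    linarith
  have h14 : (n : ℝ) ^ d * N < Real.exp (c * n - δ ^ 2 / 4) := by
    rw [Real.exp_sub, lt_div_iff₀ hEpos]
    exact h5
  exact h14.trans_le (Real.exp_le_exp.2 h8)

/-- the classes with index in `[a, b)` -/
lemma card_classes {V : Type} {N m' : ℕ} (X : Finset V) (f : V → Fin N)
    (hf : ∀ i, (X.filter (fun x => f x = i)).card = m') (a b : ℕ) (hb : b ≤ N) :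
    (X.filter (fun x => a ≤ (f x : ℕ) ∧ (f x : ℕ) < b)).card = (b - a) * m' := by
  have h1 : X.filter (fun x => a ≤ (f x : ℕ) ∧ (f x : ℕ) < b) =
      (Finset.univ.filter (fun i : Fin N => a ≤ (i : ℕ) ∧ (i : ℕ) < b)).biUnion
        (fun i => X.filter (fun x => f x = i)) := by
    ext x
    simp only [mem_filter, mem_biUnion, mem_univ, true_and]
    constructor
    · rintro ⟨h2, h3⟩
      exact ⟨f x, h3, h2, rfl⟩
    · rintro ⟨i, h3, h2, rfl⟩
      exact ⟨h2, h3⟩
  rw [h1, card_biUnion]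
  · rw [Finset.sum_congr rfl (fun i _ => hf i), Finset.sum_const, smul_eq_mul]
    congr 1
    rw [← Nat.card_Ico a b]
    refine Finset.card_bij (fun i _ => (i : ℕ)) ?_ ?_ ?_
    · intro i hi
      rw [mem_filter] at hi
      exact Finset.mem_Ico.2 hi.2
    · intro i _ j _ h
      exact Fin.ext h
    · intro j hj
      rw [Finset.mem_Ico] at hj
      exact ⟨⟨j, by omega⟩, by simp [hj], rfl⟩
  · intro i _ j _ hij
    rw [Function.onFun, Finset.disjoint_left]
    intro x hx hx'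
    rw [mem_filter] at hx hx'
    exact hij (hx.2.symm.trans hx'.2)

/-- the classes with index in `[a, b)` meet a set proportionally -/
lemma classes_meet {V : Type} {N : ℕ} (S : Finset V) (f : V → Fin N) (T : ℝ)
    (hf : ∀ i, T ≤ ((S.filter (fun x => f x = i)).card : ℝ)) (a b : ℕ) (hab : a ≤ b) (hb : b ≤ N) :
    ((b : ℝ) - a) * T ≤ ((S.filter (fun x => a ≤ (f x : ℕ) ∧ (f x : ℕ) < b)).card : ℝ) := by
  have h1 : S.filter (fun x => a ≤ (f x : ℕ) ∧ (f x : ℕ) < b) =
      (Finset.univ.filter (fun i : Fin N => a ≤ (i : ℕ) ∧ (i : ℕ) < b)).biUnion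
        (fun i => S.filter (fun x => f x = i)) := by
    ext x
    simp only [mem_filter, mem_biUnion, mem_univ, true_and]
    constructor
    · rintro ⟨h2, h3⟩
      exact ⟨f x, h3, h2, rfl⟩
    · rintro ⟨i, h3, h2, rfl⟩
      exact ⟨h2, h3⟩
  have h2 : (Finset.univ.filter (fun i : Fin N => a ≤ (i : ℕ) ∧ (i : ℕ) < b)).card = b - a := by
    rw [← Nat.card_Ico a b]
    refine Finset.card_bij (fun i _ => (i : ℕ)) ?_ ?_ ?_
    · intro i hi
      rw [mem_filter] at hi
      exact Finset.mem_Ico.2 hi.2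
    · intro i _ j _ h
      exact Fin.ext h
    · intro j hj
      rw [Finset.mem_Ico] at hj
      exact ⟨⟨j, by omega⟩, by simp [hj], rfl⟩
  rw [h1, card_biUnion]
  · push_cast
    calc ((b : ℝ) - a) * T
        = ∑ i ∈ Finset.univ.filter (fun i : Fin N => a ≤ (i : ℕ) ∧ (i : ℕ) < b), T := by
          rw [Finset.sum_const, h2, nsmul_eq_mul, Nat.cast_sub hab]
      _ ≤ _ := Finset.sum_le_sum (fun i _ => hf i)
  · intro i _ j _ hij
    rw [Function.onFun, Finset.disjoint_left]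
    intro x hx hx'
    rw [mem_filter] at hx hx'
    exact hij (hx.2.symm.trans hx'.2)

theorem exists_pieces {ε c : ℝ} (hε : 0 < ε) (hε1 : ε ≤ 1) (hc : 0 < c) (m : ℕ) : ∃ n₁ : ℕ,
    ∀ {V : Type} (A : Finset V) (𝓕 : Finset (Finset V)), n₁ ≤ A.card → 𝓕.card ≤ A.card ^ 5 →
      ∀ (r : ℕ) (s : Fin r → ℝ), r ≤ m → (∀ i, 0 ≤ s i) → ∑ i, s i ≤ (1 - 2 * c) * A.card →
        ∃ (P : Fin r → Finset V) (Q : Finset V), (∀ i, P i ⊆ A) ∧ (∀ i, (P i).Nonempty) ∧
          (∀ i j, i ≠ j → Disjoint (P i) (P j)) ∧ (∀ i, Disjoint (P i) Q) ∧ Q ⊆ A ∧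
          (∀ i, s i ≤ (P i).card) ∧ (∀ i, Rep A 𝓕 ε (P i)) ∧ c * A.card ≤ Q.card ∧ Rep A 𝓕 ε Q := by
  obtain ⟨N, hN⟩ := exists_nat_ge (2 * (m : ℝ) / c + 1)
  have hN1 : (1 : ℝ) ≤ N := by
    have : (0 : ℝ) ≤ 2 * (m : ℝ) / c := by positivity
    linarith
  have hNpos : 0 < N := by
    have : (0 : ℝ) < N := by linarith
    exact_mod_cast this
  have hNr : (0 : ℝ) < N := by exact_mod_cast hNpos
  have hNm : 2 * (m : ℝ) ≤ c * N := by
    have h1 : 2 * (m : ℝ) / c ≤ N := by linarith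
    rw [div_le_iff₀ hc] at h1
    linarith
  obtain ⟨n2, hn2⟩ := exists_large_pow 5 N hNpos (ε / 2) (by positivity)
  obtain ⟨n3, hn3⟩ := exists_nat_ge (2 * (N : ℝ) / ε)
  obtain ⟨n4, hn4⟩ := exists_nat_ge (2 * (N : ℝ) / c)
  refine ⟨max n2 (max n3 (max n4 N)), ?_⟩
  intro V A 𝓕 hA h𝓕 r s hr hs hsum
  set n := A.card with hn
  have hnn2 : n2 ≤ n := (le_max_left _ _).trans hA
  have hnn3 : n3 ≤ n := ((le_max_left _ _).trans (le_max_right _ _)).trans hA
  have hnn4 : n4 ≤ n := ((le_max_left _ _).trans ((le_max_right _ _).trans (le_max_right _ _))).trans hA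
  have hnN : N ≤ n := ((le_max_right _ _).trans ((le_max_right _ _).trans (le_max_right _ _))).trans hA
  have hnpos : (0 : ℝ) < n := by
    have : 0 < n := hNpos.trans_le hnN
    exact_mod_cast this
  have h2N : 2 * (N : ℝ) ≤ ε * n := by
    have h1 : (n3 : ℝ) ≤ n := by exact_mod_cast hnn3
    have h2 := hn3.trans h1
    rw [div_le_iff₀ hε] at h2
    linarith
  have h2c : 2 * (N : ℝ) ≤ c * n := by
    have h1 : (n4 : ℝ) ≤ n := by exact_mod_cast hnn4
    have h2 := hn4.trans h1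
    rw [div_le_iff₀ hc] at h2
    linarith
  set m' := n / N with hm'
  have hmod := Nat.mod_lt n hNpos
  have hdm := Nat.div_add_mod n N
  have hm'0 : 0 < m' := Nat.div_pos hnN hNpos
  have hm'r : (0 : ℝ) < m' := by exact_mod_cast hm'0
  have hNm1 : (N : ℝ) * m' ≤ n := by
    have : N * m' ≤ n := by rw [hm']; omega
    exact_mod_cast this
  have hNm2 : (n : ℝ) ≤ N * m' + N := by
    have : n ≤ N * m' + N := by rw [hm']; omega
    exact_mod_cast this
  obtain ⟨X, hXA, hX⟩ := Finset.exists_subset_card_eq (s := A) (n := N * m') (by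
    rw [← hn, hm']; omega)
  obtain ⟨f, hf1, hf2⟩ := Pool.Agent.AE15.exists_split_prop X N m' hNpos hX
    (𝓕.image (fun F => F ∩ X))
    (by
      intro S' hS'
      rw [mem_image] at hS'
      obtain ⟨S, _, rfl⟩ := hS'
      exact inter_subset_right) (ε := ε / 2) (by positivity) (by linarith)
    (by
      refine lt_of_le_of_lt ?_ (hn2 n hnn2)
      apply mul_le_mul_of_nonneg_right _ hNr.le
      have h1 : (𝓕.image (fun F => F ∩ X)).card ≤ n ^ 5 := Finset.card_image_le.trans h𝓕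
      exact_mod_cast h1)
  -- representativity of unions of classes
  have hrep : ∀ a b : ℕ, a ≤ b → b ≤ N →
      Rep A 𝓕 ε (X.filter (fun x => a ≤ (f x : ℕ) ∧ (f x : ℕ) < b)) := by
    intro a b hab hb F hF
    have h1 := classes_meet (F ∩ X) f _ (hf2 (F ∩ X) (mem_image_of_mem _ hF)) a b hab hb
    have h2 : F ∩ X.filter (fun x => a ≤ (f x : ℕ) ∧ (f x : ℕ) < b) =
        (F ∩ X).filter (fun x => a ≤ (f x : ℕ) ∧ (f x : ℕ) < b) := by
      ext x
      simp only [mem_inter, mem_filter]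
      tauto
    rw [h2, card_classes X f hf1 a b hb]
    refine le_trans ?_ h1
    rw [Nat.cast_mul, Nat.cast_sub hab]
    have hba : (0 : ℝ) ≤ (b : ℝ) - a := by
      have : (a : ℝ) ≤ b := by exact_mod_cast hab
      linarith
    have h3 : (((F ∩ A).card : ℝ) / n - ε) * m' ≤ ((F ∩ X).card : ℝ) / N - ε / 2 * m' := by
      have h4 : ((F ∩ A).card : ℝ) ≤ (F ∩ X).card + N := by
        have h5 : F ∩ A ⊆ (F ∩ X) ∪ (A \ X) := by
          intro x hx
          rw [mem_inter] at hx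
          by_cases h : x ∈ X
          · simp [hx.1, h]
          · simp [hx.2, h]
        have h6 : (A \ X).card ≤ N := by
          rw [card_sdiff_of_subset hXA, hX, hm']
          omega
        have h7 := (card_le_card h5).trans (card_union_le _ _)
        exact_mod_cast h7.trans (Nat.add_le_add_left h6 _)
      have h8 : ((F ∩ A).card : ℝ) / n ≤ ((F ∩ X).card : ℝ) / (N * m') + ε / 2 := by
        have h9 : ((F ∩ A).card : ℝ) / n ≤ ((F ∩ X).card : ℝ) / n + N / n := by
          rw [← add_div]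
          exact div_le_div_of_nonneg_right h4 hnpos.le
        have h10 : ((F ∩ X).card : ℝ) / n ≤ ((F ∩ X).card : ℝ) / (N * m') :=
          div_le_div_of_nonneg_left (by positivity) (by positivity) hNm1
        have h11 : (N : ℝ) / n ≤ ε / 2 := by
          rw [div_le_iff₀ hnpos]
          linarith
        linarith
      have h12 : ((F ∩ X).card : ℝ) / (N * m') * m' = ((F ∩ X).card : ℝ) / N := by
        field_simp
      calc (((F ∩ A).card : ℝ) / n - ε) * m' ≤ (((F ∩ X).card : ℝ) / (N * m') - ε / 2) * m' :=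
            mul_le_mul_of_nonneg_right (by linarith) hm'r.le
        _ = _ := by rw [sub_mul, h12]
    calc (((F ∩ A).card : ℝ) / n - ε) * (((b : ℝ) - a) * m')
        = ((b : ℝ) - a) * ((((F ∩ A).card : ℝ) / n - ε) * m') := by ring
      _ ≤ ((b : ℝ) - a) * (((F ∩ X).card : ℝ) / N - ε / 2 * m') :=
          mul_le_mul_of_nonneg_left h3 hba
  -- numbers of classes
  let q : Fin r → ℕ := fun i => max 1 ⌈s i / m'⌉₊
  have hq1 : ∀ i, s i ≤ (q i : ℝ) * m' := by
    intro i
    have h1 : s i / m' ≤ (q i : ℝ) := by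
      have h2 := Nat.le_ceil (s i / (m' : ℝ))
      have h3 : (⌈s i / (m' : ℝ)⌉₊ : ℝ) ≤ (q i : ℝ) := by exact_mod_cast le_max_right _ _
      exact h2.trans h3
    rw [div_le_iff₀ hm'r] at h1
    exact h1
  have hq2 : ∀ i, (q i : ℝ) ≤ s i / m' + 1 := by
    intro i
    have h0 : 0 ≤ s i / m' := div_nonneg (hs i) hm'r.le
    have h1 : (⌈s i / (m' : ℝ)⌉₊ : ℝ) < s i / m' + 1 := Nat.ceil_lt_add_one h0
    show ((max 1 ⌈s i / (m' : ℝ)⌉₊ : ℕ) : ℝ) ≤ _
    rw [Nat.cast_max]
    apply max_le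
    · simpa using h0
    · exact h1.le
  have hq0 : ∀ i, 1 ≤ q i := fun i => le_max_left _ _
  let σ : ℕ → ℕ := fun j => ∑ i ∈ Finset.univ.filter (fun i : Fin r => (i : ℕ) < j), q i
  have hσ : ∀ j : Fin r, σ (j + 1) = σ j + q j := by
    intro j
    have h4 : Finset.univ.filter (fun i : Fin r => (i : ℕ) < (j : ℕ) + 1) =
        insert j (Finset.univ.filter (fun i : Fin r => (i : ℕ) < j)) := by
      ext i
      simp only [mem_filter, mem_univ, true_and, mem_insert]
      rw [Nat.lt_succ_iff, le_iff_eq_or_lt, Fin.ext_iff]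
    show ∑ i ∈ Finset.univ.filter (fun i : Fin r => (i : ℕ) < (j : ℕ) + 1), q i = _
    rw [h4, Finset.sum_insert (by simp), add_comm]
  have hmono : ∀ i j : ℕ, i ≤ j → σ i ≤ σ j := by
    intro i j hij
    apply Finset.sum_le_sum_of_subset
    intro l hl
    rw [mem_filter] at hl ⊢
    exact ⟨mem_univ _, hl.2.trans_le hij⟩
  have hσr : σ r = ∑ i, q i := by
    show ∑ i ∈ Finset.univ.filter (fun i : Fin r => (i : ℕ) < r), q i = _
    congr 1
    apply Finset.filter_true_of_mem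
    intro i _
    exact i.2
  have hσle : (σ r : ℝ) * m' ≤ (1 - 2 * c) * n + m * m' := by
    rw [hσr, Nat.cast_sum, Finset.sum_mul]
    have h1 : ∀ i : Fin r, (q i : ℝ) * m' ≤ s i + m' := by
      intro i
      have h2 := mul_le_mul_of_nonneg_right (hq2 i) hm'r.le
      rw [add_mul, one_mul, div_mul_cancel₀ _ hm'r.ne'] at h2
      exact h2
    have h3 := Finset.sum_le_sum (s := Finset.univ) (fun i _ => h1 i)
    rw [Finset.sum_add_distrib, Finset.sum_const, Finset.card_univ, Fintype.card_fin,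
      nsmul_eq_mul] at h3
    have h4 : (r : ℝ) * m' ≤ m * m' := by
      apply mul_le_mul_of_nonneg_right _ hm'r.le
      exact_mod_cast hr
    linarith
  have hmm : (m : ℝ) * m' ≤ c / 2 * n := by
    have h1 : 2 * (m : ℝ) * m' ≤ c * N * m' := mul_le_mul_of_nonneg_right hNm hm'r.le
    have h2 : c * (N * m') ≤ c * n := mul_le_mul_of_nonneg_left hNm1 hc.le
    linarith
  have hQ : c * n + (σ r : ℝ) * m' ≤ N * m' := by
    linarith
  have hσN : σ r ≤ N := by
    have h1 : (σ r : ℝ) * m' ≤ N * m' := by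
      have : 0 ≤ c * n := by positivity
      linarith
    have h2 : (σ r : ℝ) ≤ N := le_of_mul_le_mul_right h1 hm'r
    exact_mod_cast h2
  have hσN' : ∀ j : Fin r, σ (j + 1) ≤ N := fun j => (hmono _ _ j.2).trans hσN
  refine ⟨fun j => X.filter (fun x => σ j ≤ (f x : ℕ) ∧ (f x : ℕ) < σ (j + 1)),
    X.filter (fun x => σ r ≤ (f x : ℕ) ∧ (f x : ℕ) < N), ?_, ?_, ?_, ?_, ?_, ?_, ?_, ?_, ?_⟩
  · intro j
    exact (filter_subset _ _).trans hXA
  · intro j
    rw [← Finset.card_pos, card_classes X f hf1 _ _ (hσN' j), hσ j]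
    have h1 := hq0 j
    have h2 : 0 < σ j + q j - σ j := by omega
    exact Nat.mul_pos h2 hm'0
  · intro i j hij
    rw [Finset.disjoint_left]
    intro x hx hx'
    rw [mem_filter] at hx hx'
    rcases lt_or_gt_of_ne hij with h | h
    · have h4 := hmono ((i : ℕ) + 1) j h
      omega
    · have h4 := hmono ((j : ℕ) + 1) i h
      omega
  · intro j
    rw [Finset.disjoint_left]
    intro x hx hx'
    rw [mem_filter] at hx hx'
    have h4 := hmono ((j : ℕ) + 1) r j.2
    omega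
  · exact (filter_subset _ _).trans hXA
  · intro j
    rw [card_classes X f hf1 _ _ (hσN' j), hσ j]
    have h1 : σ j + q j - σ j = q j := by omega
    rw [h1, Nat.cast_mul]
    exact hq1 j
  · intro j
    exact hrep _ _ (hmono _ _ (Nat.le_succ _)) (hσN' j)
  · rw [card_classes X f hf1 _ _ le_rfl, Nat.cast_mul, Nat.cast_sub hσN, sub_mul]
    linarith
  · exact hrep _ _ hσN le_rfl

end AE15
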