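import Pool.Agent.AE15.Trees
import Pool.Agent.AE15.Pieces

/-!
# Out-arborescences in tournaments: items at hosts
-/

namespace AE15

open Finset
open scoped Classical

/-- **Items at hosts** -/
theorem host_items {ε c : ℝ} (hε : 0 < ε) (hε1 : ε ≤ 1) (hc : 0 < c) (m : ℕ) : ∃ n₁ : ℕ,
    ∀ {V : Type} {R : V → V → Prop} (A : Finset V) (𝓕 : Finset (Finset V)), n₁ ≤ A.card → 𝓕.card ≤ A.card ^ 5 →
      ∀ (κ η K C : ℝ), 0 ≤ K → 0 ≤ C → 0 < η → 10 * η ≤ 1 → ∀ L : List (Item V), L.length ≤ m →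
        (∀ p ∈ L, Ok R A 𝓕 ε κ η p.1) → (∀ p ∈ L, EE R K C κ η p.2) →
        (K * isz L + m * C) / (1 - 5 * η) ≤ (1 - 2 * c) * A.card →
        ∃ S Q : Finset V, S ⊆ A ∧ Q ⊆ A ∧ Disjoint S Q ∧ EmbX R L S ∧ c * A.card ≤ Q.card ∧ Rep A 𝓕 ε Q := by
  obtain ⟨n₁, hn₁⟩ := exists_pieces hε hε1 hc m
  refine ⟨n₁, ?_⟩
  intro V R A 𝓕 hA hF κ η K C hK hC hη hη1 L hLm hOk hEE hsz
  have h5 : 0 < 1 - 5 * η := by linarith
  set s : Fin L.length → ℝ := fun i => (K * ((L.get i).2.size + 1) + C) / (1 - 5 * η) with hs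
  have hs0 : ∀ i, 0 ≤ s i := fun i => by
    simp only [hs]
    positivity
  have hsum : ∑ i, s i ≤ (1 - 2 * c) * A.card := by
    refine le_trans ?_ hsz
    simp only [hs]
    rw [← Finset.sum_div, Finset.sum_add_distrib, ← Finset.mul_sum, Finset.sum_const, card_univ,
      Fintype.card_fin, nsmul_eq_mul]
    apply div_le_div_of_nonneg_right _ h5.le
    have h6 : ∑ i : Fin L.length, (((L.get i).2.size : ℝ) + 1) = (isz L : ℝ) := by
      have h7 : isz L = ∑ i : Fin L.length, ((L.get i).2.size + 1) := by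
        rw [isz, ← List.sum_ofFn]
        congr 1
        apply List.ext_getElem
        · simp
        · intro i h8 h9
          simp
      rw [h7]
      push_cast
      rfl
    rw [h6]
    have h8 : (L.length : ℝ) ≤ m := by exact_mod_cast hLm
    nlinarith
  obtain ⟨P, Q, hPA, hPne, hPd, hPQ, hQA, hPs, hPR, hQc, hQR⟩ := hn₁ A 𝓕 hA hF L.length s hLm hs0 hsum
  have key : ∀ i : Fin L.length, ∃ S ⊆ P i, Emb R (.node (L.get i).2 .nil) (L.get i).1 S := by
    intro i
    have hi : L.get i ∈ L := List.get_mem L i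
    obtain ⟨P', hP', hcard, hcls⟩ := hOk _ hi (P i) (hPA i) (hPne i) (hPR i)
    have h6 : K * ((L.get i).2.size + 1) + C ≤ P'.card := by
      refine le_trans ?_ hcard
      have h7 := hPs i
      simp only [hs] at h7
      rw [div_le_iff₀ h5] at h7
      linarith
    obtain ⟨S, hS, hE⟩ := hEE _ hi P' _ h6 hcls
    exact ⟨S, hS.trans hP', hE⟩
  choose S hSP hSE using key
  have hSd : ∀ i j, i ≠ j → Disjoint (S i) (S j) := fun i j hij =>
    disjoint_of_subset_left (hSP i) (disjoint_of_subset_right (hSP j) (hPd i j hij))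
  refine ⟨univ.biUnion S, Q, ?_, hQA, ?_, embX_of_fin L S hSE hSd, hQc, hQR⟩
  · rw [biUnion_subset]
    exact fun i _ => (hSP i).trans (hPA i)
  · rw [disjoint_biUnion_left]
    exact fun i _ => disjoint_of_subset_left (hSP i) (hPQ i)

end AE15
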