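import Pool.Agent.AE15.Host
import Pool.Agent.AE15.HostItems

/-!
# Assembly of one embedding step
-/

namespace AE15

open Finset
open scoped Classical

/-- the constants -/
structure Cst (n ω c η η₁ κ₁ κ τ σ₂ μ ρ σ ε δ : ℝ) : Prop where
  hω : 0 < ω
  hω1 : ω ≤ 1 / 6
  hc : c = ω / 8
  hη : η = ω / 40
  hη₁ : 0 < η₁
  hη₁' : 4 * η₁ ≤ c * η
  hκ₁ : 0 < κ₁
  hκ₁' : κ₁ ≤ 1
  hκ₁η : κ₁ ≤ η₁
  hκ : 0 < κ
  hκ' : κ ≤ c * κ₁ / 4
  hσ₂ : 0 < σ₂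
  hσ₂τ : 2 * σ₂ ≤ τ
  hσ₂κ : 8 * σ₂ ≤ κ₁
  hσ₂η : 4 * σ₂ ≤ η
  hμ : 0 < μ
  hμσ : 2 * μ ≤ σ₂
  hρ : 0 < ρ
  hρμ : 4 * ρ ≤ μ
  hρκ : ρ ≤ κ / 8
  hσ : 0 < σ
  hσρ : σ ≤ ρ * κ / 32
  hε : 0 < ε
  hε' : ε ≤ c * σ / 4
  hδ : 0 < δ
  hδ' : δ ≤ c * σ / 4
  hn : 100 ≤ δ * n

theorem Cst.num {n ω c η η₁ κ₁ κ τ σ₂ μ ρ σ ε δ : ℝ} (P : Cst n ω c η η₁ κ₁ κ τ σ₂ μ ρ σ ε δ) :
    0 < c ∧ 0 < η ∧ c ≤ 1 / 48 ∧ η ≤ 1 / 240 ∧ 0 < n ∧ κ ≤ 1 ∧ κ ≤ κ₁ / 2 ∧ η₁ ≤ η / 4 ∧ ρ ≤ 1 / 8 ∧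
      σ ≤ ρ / 32 ∧ σ ≤ μ / 128 ∧ δ ≤ σ / 4 ∧ ε ≤ σ / 4 ∧ μ ≤ ω / 16 ∧ 40 ≤ n := by
  obtain ⟨hω, hω1, hc, hη, hη₁, hη₁', hκ₁, hκ₁', hκ₁η, hκ, hκ', hσ₂, hσ₂τ, hσ₂κ, hσ₂η, hμ, hμσ, hρ, hρμ, hρκ, hσ,
    hσρ, hε, hε', hδ, hδ', hn⟩ := P
  have hc0 : 0 < c := by rw [hc]; positivity
  have hη0 : 0 < η := by rw [hη]; positivity
  have hc1 : c ≤ 1 / 48 := by rw [hc]; linarith
  have hη1 : η ≤ 1 / 240 := by rw [hη]; linarith
  have hn0 : 0 < n := by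
    rcases lt_or_ge 0 n with h | h
    · exact h
    · have := mul_nonpos_of_nonneg_of_nonpos hδ.le h
      linarith
  have hcκ : c * κ₁ ≤ κ₁ := by
    have := mul_le_mul_of_nonneg_right (show c ≤ 1 by linarith) hκ₁.le
    linarith
  have hcη : c * η ≤ η := by
    have := mul_le_mul_of_nonneg_right (show c ≤ 1 by linarith) hη0.le
    linarith
  have hκ1 : κ ≤ κ₁ / 2 := by linarith
  have hρκ' : ρ * κ ≤ ρ := by
    have := mul_le_mul_of_nonneg_left (show κ ≤ 1 by linarith) hρ.le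
    linarith
  have hcσ : c * σ ≤ σ := by
    have := mul_le_mul_of_nonneg_right (show c ≤ 1 by linarith) hσ.le
    linarith
  have hn40 : 40 ≤ n := by
    have : δ * n ≤ 1 * n := mul_le_mul_of_nonneg_right (by linarith) hn0.le
    linarith
  refine ⟨hc0, hη0, hc1, hη1, hn0, by linarith, hκ1, by linarith, by linarith, by linarith, by linarith,
    by linarith, by linarith, by rw [hη] at hσ₂η; linarith, hn40⟩

variable {V : Type} {R : V → V → Prop}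

theorem Rep.mono {A P : Finset V} {𝓕 𝓕' : Finset (Finset V)} {ε : ℝ} (h : Rep A 𝓕 ε P) (hs : 𝓕' ⊆ 𝓕) :
    Rep A 𝓕' ε P := fun F hF => h F (hs hF)

theorem Ok.mono {A : Finset V} {𝓕 𝓕' : Finset (Finset V)} {ε κ η : ℝ} {N : V → Prop} (h : Ok R A 𝓕' ε κ η N)
    (hs : 𝓕' ⊆ 𝓕) : Ok R A 𝓕 ε κ η N := fun P hP hne hr => h P hP hne (hr.mono hs)

theorem core (hT : AE32.Tour R) {X H Ks Z : Finset V} {x : V} {ω c η η₁ κ₁ κ τ σ₂ μ ρ σ ε δ : ℝ}
    (P : Cst X.card ω c η η₁ κ₁ κ τ σ₂ μ ρ σ ε δ) (hS : Super R κ₁ η₁ τ X x)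
    {𝓕x : Finset (Finset V)} (h𝓕x : 𝓕x.card ≤ 6 * X.card ^ 2) (hHX : H ⊆ X) (hHc : (H.card : ℝ) ≤ 2 * σ * X.card)
    (hfin : ∀ A Q P : Finset V, A ⊆ X → (X.card : ℝ) ≤ 2 * A.card → Q ⊆ A → Rep A 𝓕x ε Q →
        c * A.card ≤ Q.card → P ⊆ X → x ∉ P → Q ⊆ P → H ⊆ P → (((X \ A) \ P).card : ℝ) ≤ δ * X.card →
        Cls R P κ η (R x))
    (hKX : Ks ⊆ X) (hKh : ∀ y ∈ Ks, ∃ Y ⊆ X, ((X \ Y).card : ℝ) ≤ 2 * η * X.card ∧ Super R κ₁ η₁ τ Y y)
    (hKc : (Ks.card : ℝ) ≤ ρ * X.card + 2)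
    {F : Fo} {N : V → Prop} {L Lh : List (Item V)} {cf : Fo} (hPE : PE R F N Z L) (hZX : Z ⊆ X)
    (hZH : Disjoint Z H) (hxZ : x ∈ Z) (hZc : (Z.card : ℝ) ≤ δ * X.card)
    (hL : L.Perm ((R x, cf) :: Lh)) (hLh : ∀ p ∈ Lh, ∃ y, (y = x ∨ y ∈ Ks) ∧ p.1 = R y)
    {m : ℕ} (hlen : Lh.length ≤ m)
    {n₁ : ℕ} (hn₁ : 2 * n₁ ≤ X.card) (hhost : ∀ (A : Finset V) (𝓕 : Finset (Finset V)), n₁ ≤ A.card →
      𝓕.card ≤ A.card ^ 5 →
      ∀ (κ η K C : ℝ), 0 ≤ K → 0 ≤ C → 0 < η → 10 * η ≤ 1 → ∀ L : List (Item V), L.length ≤ m →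
        (∀ p ∈ L, Ok R A 𝓕 ε κ η p.1) → (∀ p ∈ L, EE R K C κ η p.2) →
        (K * isz L + m * C) / (1 - 5 * η) ≤ (1 - 2 * c) * A.card →
        ∃ S Q : Finset V, S ⊆ A ∧ Q ⊆ A ∧ Disjoint S Q ∧ EmbX R L S ∧ c * A.card ≤ Q.card ∧ Rep A 𝓕 ε Q)
    {K C K' C' : ℝ} (hK : 0 ≤ K) (hC : 0 ≤ C) (hK' : 1 ≤ K') (hC' : 0 ≤ C') (hKK : K ≤ (1 + ω) * K')
    (hmC : m * C ≤ ω / 4 * X.card)
    (hEE : ∀ p ∈ Lh, EE R K C κ η p.2) (hEf : EE R K' C' κ η cf) (hbig : 2 * ω * F.size ≤ cf.size + 1)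
    (hn : K' * F.size + C' ≤ X.card) :
    ∃ S ⊆ X, Emb R F N S := by
  obtain ⟨n, hnd⟩ : ∃ n : ℝ, n = (X.card : ℝ) := ⟨_, rfl⟩
  rw [← hnd] at P hHc hKc hZc hmC hn
  obtain ⟨hc0, hη0, hc1, hη1, hn0, hκ1, hκκ, hηη, hρ1, hσρ', hσμ, hδσ, hεσ, hμω, hn40⟩ := P.num
  obtain ⟨hω, hω1, hc, hη, hη₁, hη₁', hκ₁, hκ₁', hκ₁η, hκ, hκ', hσ₂, hσ₂τ, hσ₂κ, hσ₂η, hμ, hμσ, hρ, hρμ, hρκ, hσ,
    hσρ, hε, hε', hδ, hδ', hn100⟩ := P
  -- the set `A`
  set A := X \ (Ks ∪ Z ∪ H) with hA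
  have hAX : A ⊆ X := sdiff_subset
  have hXA : ((X \ A).card : ℝ) ≤ μ * n := by
    have h1 : X \ A ⊆ Ks ∪ Z ∪ H := by
      intro w hw
      rw [hA, mem_sdiff, mem_sdiff] at hw
      by_contra hc
      exact hw.2 ⟨hw.1, hc⟩
    have h2 : ((X \ A).card : ℝ) ≤ Ks.card + Z.card + H.card := by
      have h3 := (card_le_card h1).trans ((card_union_le _ _).trans (Nat.add_le_add_right (card_union_le _ _) _))
      exact_mod_cast h3
    have h4 : σ * n ≤ μ / 128 * n := mul_le_mul_of_nonneg_right hσμ hn0.le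
    have h5 : δ * n ≤ σ / 4 * n := mul_le_mul_of_nonneg_right hδσ hn0.le
    have h6 : ρ * n ≤ μ / 4 * n := mul_le_mul_of_nonneg_right (by linarith) hn0.le
    have h7 : 0 < μ * n := by positivity
    linarith
  have hAc : (1 - μ) * n ≤ A.card := by
    have h1 : X.card = A.card + (X \ A).card := by
      have := card_sdiff_add_card_eq_card hAX
      omega
    have h2 : n = A.card + (X \ A).card := by rw [hnd]; exact_mod_cast h1
    linarith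
  have hμ1 : μ ≤ 1 / 2 := by linarith
  have hA2 : n ≤ 2 * A.card := by
    have : μ * n ≤ 1 / 2 * n := mul_le_mul_of_nonneg_right hμ1 hn0.le
    linarith
  -- the families
  have hfam : ∀ y : V, ∃ 𝓕 : Finset (Finset V), 𝓕.card ≤ 6 * X.card ^ 2 ∧ ((y = x ∨ y ∈ Ks) → Ok R A 𝓕 ε κ η (R y)) := by
    intro y
    have key : ∀ Y ⊆ X, ((X \ Y).card : ℝ) ≤ 2 * η * X.card → Super R κ₁ η₁ τ Y y → y ∉ A →
        ∃ 𝓕 : Finset (Finset V), 𝓕.card ≤ 6 * X.card ^ 2 ∧ Ok R A 𝓕 ε κ η (R y) := by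
      intro Y hY hXY hSY hyA
      obtain ⟨𝓕, h1, h2⟩ := piece_lemma hT (σ₂ := σ₂) (μ := μ) (ε := ε) (κ := κ) hY hXY hSY hκ hη0 (by linarith) hκ₁ hκ₁'
        hη₁ hσ₂ hμ hε (by linarith) (by linarith) (by linarith) (by linarith) (by
          rw [← hnd]
          have h5 : δ * n ≤ σ₂ * n := mul_le_mul_of_nonneg_right (by linarith) hn0.le
          linarith) hκκ hσ₂κ (by linarith) (by linarith)
      exact ⟨𝓕, h1, h2 A hAX hyA (by rw [← hnd]; exact hXA)⟩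
    by_cases hy : y = x ∨ y ∈ Ks
    · rcases hy with rfl | hy
      · obtain ⟨𝓕, h1, h2⟩ := key X (Subset.refl _) (by
          rw [sdiff_self, bot_eq_empty, card_empty, Nat.cast_zero]
          positivity) hS (by
            rw [hA, mem_sdiff, not_and, not_not]
            intro _
            simp [hxZ])
        exact ⟨𝓕, h1, fun _ => h2⟩
      · obtain ⟨Y, h1, h2, h3⟩ := hKh y hy
        obtain ⟨𝓕, h4, h5⟩ := key Y h1 h2 h3 (by
          rw [hA, mem_sdiff, not_and, not_not]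
          intro _
          simp [hy])
        exact ⟨𝓕, h4, fun _ => h5⟩
    · exact ⟨∅, by simp, fun h => absurd h hy⟩
  choose Fam hFam1 hFam2 using hfam
  set 𝓕 := 𝓕x ∪ (insert x Ks).biUnion Fam with h𝓕
  have h𝓕c : 𝓕.card ≤ A.card ^ 5 := by
    have h1 : 𝓕.card ≤ 6 * X.card ^ 2 + (Ks.card + 1) * (6 * X.card ^ 2) := by
      refine (card_union_le _ _).trans (Nat.add_le_add h𝓕x ?_)
      refine (card_biUnion_le_card_mul _ _ _ (fun y _ => hFam1 y)).trans ?_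
      exact Nat.mul_le_mul_right _ (card_insert_le _ _)
    have h2 : Ks.card ≤ X.card := card_le_card hKX
    have h3 : (𝓕.card : ℝ) ≤ 6 * n ^ 2 + (n + 1) * (6 * n ^ 2) := by
      have h4 : (𝓕.card : ℝ) ≤ 6 * n ^ 2 + (Ks.card + 1) * (6 * n ^ 2) := by
        rw [hnd]; exact_mod_cast h1
      have h5 : (Ks.card : ℝ) ≤ n := by rw [hnd]; exact_mod_cast h2
      have h6 : (Ks.card + 1 : ℝ) * (6 * n ^ 2) ≤ (n + 1) * (6 * n ^ 2) :=
        mul_le_mul_of_nonneg_right (by linarith) (by positivity)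
      linarith
    have h7 : (n / 2) ^ 5 ≤ (A.card : ℝ) ^ 5 := pow_le_pow_left₀ (by positivity) (by linarith) 5
    have h8 : 6 * n ^ 2 + (n + 1) * (6 * n ^ 2) ≤ (n / 2) ^ 5 := by
      have h9 : 6 * n ^ 2 + (n + 1) * (6 * n ^ 2) = n ^ 2 * (6 * n + 12) := by ring
      have h10 : (n / 2) ^ 5 = n ^ 2 * (n * (n * n / 32)) := by ring
      have h11 : 40 * 40 ≤ n * n := mul_le_mul hn40 hn40 (by norm_num) hn0.le
      have h12 : n * 12 ≤ n * (n * n / 32) := mul_le_mul_of_nonneg_left (by linarith) hn0.le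
      rw [h9, h10]
      exact mul_le_mul_of_nonneg_left (by linarith) (by positivity)
    exact_mod_cast h3.trans (h8.trans h7)
  -- sizes
  have hsz : F.size = Z.card + (cf.size + 1 + isz Lh) := by
    rw [hPE.size]
    congr 1
    unfold isz
    rw [(hL.map _).sum_eq]
    simp
  obtain ⟨t, ht⟩ : ∃ t : ℝ, t = (F.size : ℝ) := ⟨_, rfl⟩
  obtain ⟨tf, htf⟩ : ∃ tf : ℝ, tf = (cf.size : ℝ) + 1 := ⟨_, rfl⟩
  have hsz' : t = Z.card + tf + isz Lh := by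
    rw [ht, htf, hsz]; push_cast; ring
  rw [← ht, ← htf] at hbig
  rw [← ht] at hn
  have ht0 : 0 ≤ t := by rw [ht]; positivity
  have hZ0 : (0 : ℝ) ≤ Z.card := by positivity
  have hi0 : (0 : ℝ) ≤ isz Lh := by positivity
  have hsum : (K * isz Lh + m * C) / (1 - 5 * η) ≤ (1 - 2 * c) * A.card := by
    have h1 : K * isz Lh ≤ (1 - ω) * n := by
      have h2 : (isz Lh : ℝ) ≤ (1 - 2 * ω) * t := by linarith
      have h3 : K * isz Lh ≤ (1 + ω) * K' * ((1 - 2 * ω) * t) := by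
        refine (mul_le_mul_of_nonneg_right hKK hi0).trans (mul_le_mul_of_nonneg_left h2 (by positivity))
      have h4 : K' * t ≤ n := by linarith
      have h5 : (1 + ω) * K' * ((1 - 2 * ω) * t) = ((1 + ω) * (1 - 2 * ω)) * (K' * t) := by ring
      have h6 : (1 + ω) * (1 - 2 * ω) ≤ 1 - ω := by
        have : 0 < ω * ω := by positivity
        linarith
      have h7 : 0 ≤ K' * t := by positivity
      calc K * isz Lh ≤ ((1 + ω) * (1 - 2 * ω)) * (K' * t) := by rw [← h5]; exact h3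
        _ ≤ (1 - ω) * (K' * t) := mul_le_mul_of_nonneg_right h6 h7
        _ ≤ (1 - ω) * n := mul_le_mul_of_nonneg_left h4 (by linarith)
    rw [div_le_iff₀ (by linarith)]
    have h2 : (1 - ω / 16) * n ≤ A.card := by
      refine le_trans (mul_le_mul_of_nonneg_right ?_ hn0.le) hAc
      linarith
    have h3 : (1 - 2 * c) * ((1 - ω / 16) * n) * (1 - 5 * η) ≤ (1 - 2 * c) * A.card * (1 - 5 * η) := by
      refine mul_le_mul_of_nonneg_right (mul_le_mul_of_nonneg_left h2 ?_) ?_ <;> linarith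
    refine le_trans ?_ h3
    rw [hc, hη]
    have h4 : (1 - 3 * ω / 4) ≤ (1 - 2 * (ω / 8)) * (1 - ω / 16) * (1 - 5 * (ω / 40)) := by
      have h41 : 0 < ω * ω := by positivity
      have h42 : ω * ω * ω ≤ ω * ω * 1 := mul_le_mul_of_nonneg_left (by linarith) h41.le
      have h43 : (1 - 2 * (ω / 8)) * (1 - ω / 16) * (1 - 5 * (ω / 40)) =
          1 - 7 * ω / 16 + 7 * (ω * ω) / 128 - ω * ω * ω / 512 := by ring
      rw [h43]
      linarith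
    have h5 := mul_le_mul_of_nonneg_right h4 hn0.le
    linarith
  obtain ⟨S, Q, hSA, hQA, hSQ, hSE, hQc, hQr⟩ := hhost A 𝓕 (by
      have h1 : 2 * (n₁ : ℝ) ≤ n := by rw [hnd]; exact_mod_cast hn₁
      have h2 : (n₁ : ℝ) ≤ A.card := by linarith
      exact_mod_cast h2) h𝓕c κ η K C hK hC hη0 (by linarith) Lh hlen (by
      intro p hp
      obtain ⟨y, hy, h1⟩ := hLh p hp
      rw [h1]
      refine (hFam2 y hy).mono ?_
      rw [h𝓕]
      refine Subset.trans ?_ subset_union_right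
      apply subset_biUnion_of_mem
      rw [mem_insert]
      exact hy) hEE hsum
  -- the final piece
  have hZA : Disjoint Z A := by
    rw [hA, disjoint_left]
    intro w h1 h2
    rw [mem_sdiff, mem_union, mem_union] at h2
    exact h2.2 (Or.inl (Or.inr h1))
  have hHA : Disjoint H A := by
    rw [hA, disjoint_left]
    intro w h1 h2
    rw [mem_sdiff, mem_union, mem_union] at h2
    exact h2.2 (Or.inr h1)
  have hZS : Disjoint Z S := hZA.mono_right hSA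
  set P₀ := X \ (Z ∪ S) with hP₀
  have hcls : Cls R P₀ κ η (R x) := by
    refine hfin A Q P₀ hAX (by rw [← hnd]; exact hA2) hQA (hQr.mono (by rw [h𝓕]; exact subset_union_left)) hQc
      sdiff_subset ?_ ?_ ?_ ?_
    · rw [hP₀, mem_sdiff, mem_union]
      tauto
    · intro w hw
      rw [hP₀, mem_sdiff, mem_union, not_or]
      exact ⟨hAX (hQA hw), fun h => disjoint_left.1 hZA h (hQA hw), fun h => disjoint_left.1 hSQ h hw⟩
    · intro w hw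
      rw [hP₀, mem_sdiff, mem_union, not_or]
      exact ⟨hHX hw, fun h => disjoint_left.1 hZH h hw, fun h => disjoint_left.1 hHA hw (hSA h)⟩
    · rw [← hnd]
      refine le_trans ?_ hZc
      have : (X \ A) \ P₀ ⊆ Z := by
        intro w hw
        rw [mem_sdiff, mem_sdiff] at hw
        by_contra hc
        refine hw.2 ?_
        rw [hP₀, mem_sdiff, mem_union]
        exact ⟨hw.1.1, fun h => h.elim hc (fun h => hw.1.2 (hSA h))⟩
      exact_mod_cast card_le_card this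
  have hSc : S.card = isz Lh := hSE.card
  have hPc : n - t + tf = P₀.card := by
    have h1 : P₀.card + (Z ∪ S).card = X.card := by
      rw [hP₀]
      exact card_sdiff_add_card_eq_card (union_subset hZX (hSA.trans hAX))
    rw [card_union_of_disjoint hZS, hSc] at h1
    have h2 : (P₀.card : ℝ) + (Z.card + isz Lh) = n := by rw [hnd]; exact_mod_cast h1
    linarith
  obtain ⟨Sf, hSf, hSfE⟩ := hEf P₀ (R x) (by
    rw [← hPc, ← htf]
    have h1 : 0 ≤ (K' - 1) * (t - tf) := mul_nonneg (by linarith) (by linarith)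
    linarith) hcls
  have hZSf : Disjoint Z Sf := by
    rw [disjoint_left]
    intro w h1 h2
    have := hSf h2
    rw [hP₀, mem_sdiff, mem_union] at this
    exact this.2 (Or.inl h1)
  have hSSf : Disjoint Sf S := by
    rw [disjoint_left]
    intro w h2 h1
    have := hSf h2
    rw [hP₀, mem_sdiff, mem_union] at this
    exact this.2 (Or.inr h1)
  have hX1 : EmbX R L (Sf ∪ S) := EmbX.perm hL.symm ⟨Sf, S, hSSf, rfl, hSfE, hSE⟩
  refine ⟨Z ∪ (Sf ∪ S), ?_, hPE.complete _ ?_ hX1⟩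
  · exact union_subset hZX (union_subset (hSf.trans sdiff_subset) (hSA.trans hAX))
  · exact disjoint_union_right.2 ⟨hZSf, hZS⟩

end AE15
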