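import Pool.Agent.AE15.Super

/-!
# Out-arborescences of bounded out-degree in tournaments: definitions

Forests are coded by `Fo`: `node c s` is the forest whose first tree has the forest `c` of subtrees at the children of
its root, and whose other trees are `s`. The tree with children forest `c` is `node c nil`; it has `c.size + 1` vertices.
-/

namespace AE15

open Finset
open scoped Classical

/-- ordered forests (first child / next sibling) -/
inductive Fo : Type
  | nil : Fo
  | node (c s : Fo) : Fo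

/-- number of vertices -/
def Fo.size : Fo → ℕ
  | .nil => 0
  | .node c s => c.size + s.size + 1

/-- number of trees -/
def Fo.len : Fo → ℕ
  | .nil => 0
  | .node _ s => s.len + 1

/-- the children forests of the trees -/
def Fo.trees : Fo → List Fo
  | .nil => []
  | .node c s => c :: s.trees

/-- every vertex has at most `b` children -/
def Fo.Deg (b : ℕ) : Fo → Prop
  | .nil => True
  | .node c s => c.len ≤ b ∧ c.Deg b ∧ s.Deg b

variable {V : Type*} {R : V → V → Prop}

/-- the forest is embedded onto `S`, all its roots satisfy `N` -/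
def Emb (R : V → V → Prop) : Fo → (V → Prop) → Finset V → Prop
  | .nil, _, S => S = ∅
  | .node c s, N, S => ∃ x A B, N x ∧ x ∉ A ∧ x ∉ B ∧ Disjoint A B ∧ S = insert x (A ∪ B) ∧
      Emb R c (R x) A ∧ Emb R s N B

/-- the tree with children forest `c` has a copy inside `X` with its root satisfying `N` -/
def In (R : V → V → Prop) (c : Fo) (N : V → Prop) (X : Finset V) : Prop := ∃ S ⊆ X, Emb R (.node c .nil) N S

/-- an item: a tree (given by its children forest) whose root has to satisfy a predicate -/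
abbrev Item (V : Type*) := (V → Prop) × Fo

/-- the items are embedded disjointly, onto `A` -/
def EmbX (R : V → V → Prop) : List (Item V) → Finset V → Prop
  | [], A => A = ∅
  | p :: L, A => ∃ A₁ A₂, Disjoint A₁ A₂ ∧ A = A₁ ∪ A₂ ∧ Emb R (.node p.2 .nil) p.1 A₁ ∧ EmbX R L A₂

/-- partial embeddings of forests: `PE F N Z L`: the forest `F` is embedded, roots satisfying `N`, the used vertices are
`Z`, and the items `L` are still to be embedded -/
inductive PE (R : V → V → Prop) : Fo → (V → Prop) → Finset V → List (Item V) → Prop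
  | nil (N : V → Prop) : PE R .nil N ∅ []
  | pend (c s : Fo) (N : V → Prop) (A : Finset V) (L : List (Item V)) : PE R s N A L →
      PE R (.node c s) N A ((N, c) :: L)
  | place (c s : Fo) (N : V → Prop) (x : V) (A B : Finset V) (L₁ L₂ : List (Item V)) : N x → x ∉ A → x ∉ B →
      Disjoint A B → PE R c (R x) A L₁ → PE R s N B L₂ → PE R (.node c s) N (insert x (A ∪ B)) (L₁ ++ L₂)

/-- robust reach: the sets obtained from the out-neighbourhood of `v` in `X` by repeatedly adding a vertex of `X` with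
at least `k` in-neighbours in the set -/
inductive Rch (R : V → V → Prop) (X : Finset V) (k : ℝ) (v : V) : Finset V → Prop
  | base : Rch R X k v (nO R X v)
  | step (W : Finset V) (z : V) : Rch R X k v W → z ∈ X → z ∉ W → k ≤ ((nI R W z).card : ℝ) →
      Rch R X k v (insert z W)

/-- the class of pairs `(X, N)` -/
def Cls (R : V → V → Prop) (X : Finset V) (κ η : ℝ) (N : V → Prop) : Prop :=
  ∀ u ∈ X, N u ∨ ∃ v ∈ X, N v ∧ R v u ∧ Good R κ η X v

/-- the main statement for the tree with children forest `c`, with `K * |T| + C` vertices -/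
def EE (R : V → V → Prop) (K C κ η : ℝ) (c : Fo) : Prop := ∀ (X : Finset V) (N : V → Prop),
  K * (c.size + 1) + C ≤ X.card → Cls R X κ η N → In R c N X

/-- the backward levels from `K` -/
noncomputable def Lv (R : V → V → Prop) (X K : Finset V) (k : ℝ) : ℕ → Finset V
  | 0 => K
  | i + 1 => K ∪ X.filter (fun z => k ≤ ((nO R (Lv R X K k i) z).card : ℝ))

/-- bound for the number of vertices placed from level `i` -/
def cnt (b : ℕ) : ℕ → ℕ
  | 0 => 0
  | i + 1 => b * (cnt b i + 1)

/-- `P` represents, up to `ε`, the sets of the family `𝓕` as `A` does -/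
def Rep (A : Finset V) (𝓕 : Finset (Finset V)) (ε : ℝ) (P : Finset V) : Prop :=
  ∀ F ∈ 𝓕, (((F ∩ A).card : ℝ) / A.card - ε) * P.card ≤ ((F ∩ P).card : ℝ)

/-- the vertices satisfying `N` are the roots for which every representative subset of `A` can be used, up to
a small part -/
def Ok (R : V → V → Prop) (A : Finset V) (𝓕 : Finset (Finset V)) (ε κ η : ℝ) (N : V → Prop) : Prop :=
  ∀ P ⊆ A, P.Nonempty → Rep A 𝓕 ε P → ∃ P' ⊆ P, (1 - 5 * η) * P.card ≤ P'.card ∧ Cls R P' κ η N

/-! ### Basic facts about embeddings -/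

theorem Emb.mono {F : Fo} {N N' : V → Prop} {S : Finset V} (h : Emb R F N S) (hN : ∀ x ∈ S, N x → N' x) :
    Emb R F N' S := by
  induction F generalizing S with
  | nil => exact h
  | node c s _ ihs =>
    obtain ⟨x, A, B, h1, h2, h3, h4, rfl, h6, h7⟩ := h
    exact ⟨x, A, B, hN x (by simp) h1, h2, h3, h4, rfl, h6, ihs h7 (fun y hy => hN y (by simp [hy]))⟩

theorem Emb.card {F : Fo} {N : V → Prop} {S : Finset V} (h : Emb R F N S) : S.card = F.size := by
  induction F generalizing N S with
  | nil => rw [show S = ∅ from h]; rfl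
  | node c s ihc ihs =>
    obtain ⟨x, A, B, h1, h2, h3, h4, rfl, h6, h7⟩ := h
    rw [card_insert_of_notMem (by simp [h2, h3]), card_union_of_disjoint h4, ihc h6, ihs h7]
    rfl

/-- concatenation of item lists -/
theorem embX_append {L₁ L₂ : List (Item V)} {A : Finset V} :
    EmbX R (L₁ ++ L₂) A ↔ ∃ A₁ A₂, Disjoint A₁ A₂ ∧ A = A₁ ∪ A₂ ∧ EmbX R L₁ A₁ ∧ EmbX R L₂ A₂ := by
  induction L₁ generalizing A with
  | nil =>
    constructor
    · intro h
      exact ⟨∅, A, by simp, by simp, rfl, h⟩
    · rintro ⟨A₁, A₂, h1, rfl, h2, h3⟩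
      rw [show A₁ = ∅ from h2, empty_union]
      exact h3
  | cons p L ih =>
    constructor
    · rintro ⟨B₁, B₂, h1, rfl, h2, h3⟩
      obtain ⟨A₁, A₂, h4, rfl, h5, h6⟩ := ih.1 h3
      rw [disjoint_union_right] at h1
      exact ⟨B₁ ∪ A₁, A₂, disjoint_union_left.2 ⟨h1.2, h4⟩, (union_assoc _ _ _).symm, ⟨B₁, A₁, h1.1, rfl, h2, h5⟩, h6⟩
    · rintro ⟨A₁, A₂, h4, rfl, ⟨B₁, B₂, h1, rfl, h2, h3⟩, h6⟩
      rw [disjoint_union_left] at h4
      exact ⟨B₁, B₂ ∪ A₂, disjoint_union_right.2 ⟨h1, h4.1⟩, union_assoc _ _ _, h2, ih.2 ⟨B₂, A₂, h4.2, rfl, h3, h6⟩⟩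

theorem EmbX.perm {L₁ L₂ : List (Item V)} (hL : L₁.Perm L₂) {A : Finset V} (h : EmbX R L₁ A) : EmbX R L₂ A := by
  induction hL generalizing A with
  | nil => exact h
  | cons p _ ih =>
    obtain ⟨B₁, B₂, h1, rfl, h2, h3⟩ := h
    exact ⟨B₁, B₂, h1, rfl, h2, ih h3⟩
  | swap p q L =>
    obtain ⟨B₁, B₂, h1, rfl, h2, B₃, B₄, h3, rfl, h4, h5⟩ := h
    rw [disjoint_union_right] at h1
    refine ⟨B₃, B₁ ∪ B₄, disjoint_union_right.2 ⟨h1.1.symm, h3⟩, ?_, h4, B₁, B₄, h1.2, rfl, h2, h5⟩
    rw [← union_assoc, ← union_assoc, union_comm B₁ B₃]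
  | trans _ _ ih1 ih2 => exact ih2 (ih1 h)

/-- completing a partial embedding -/
theorem PE.complete {F : Fo} {N : V → Prop} {Z : Finset V} {L : List (Item V)} (h : PE R F N Z L) :
    ∀ A, Disjoint Z A → EmbX R L A → Emb R F N (Z ∪ A) := by
  induction h with
  | nil N =>
    intro A _ hA
    rw [show A = ∅ from hA]
    simp [Emb]
  | pend c s N B L _ ih =>
    rintro A hd ⟨A₁, A₂, h1, rfl, h2, h3⟩
    obtain ⟨x, P, Q, h4, h5, h6, h7, rfl, h9, h10⟩ := h2
    obtain rfl : Q = ∅ := h10
    rw [union_empty] at hd h1 ⊢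
    simp only [disjoint_union_right, disjoint_insert_right] at hd
    rw [disjoint_insert_left] at h1
    refine ⟨x, P, B ∪ A₂, h4, h5, ?_, ?_, ?_, h9, ih A₂ hd.2 h3⟩
    · simp only [mem_union, not_or]
      exact ⟨hd.1.1, h1.1⟩
    · exact disjoint_union_right.2 ⟨hd.1.2.symm, h1.2⟩
    · ext y
      simp only [mem_union, mem_insert]
      tauto
  | place c s N x P Q L₁ L₂ h1 h2 h3 h4 _ _ ih1 ih2 =>
    intro A hd hA
    obtain ⟨A₁, A₂, h5, rfl, h6, h7⟩ := embX_append.1 hA
    rw [disjoint_insert_left, disjoint_union_left, disjoint_union_right, disjoint_union_right, mem_union, not_or] at hd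
    obtain ⟨⟨h8, h9⟩, ⟨h10, h11⟩, h12, h13⟩ := hd
    refine ⟨x, P ∪ A₁, Q ∪ A₂, h1, ?_, ?_, ?_, ?_, ih1 A₁ h10 h6, ih2 A₂ h13 h7⟩
    · simp [h2, h8]
    · simp [h3, h9]
    · simp only [disjoint_union_left, disjoint_union_right]
      exact ⟨⟨h4, h12.symm⟩, h11, h5⟩
    · ext y
      simp only [mem_union, mem_insert]
      tauto

/-- all trees pending -/
theorem PE.pendall (N : V → Prop) (F : Fo) : PE R F N ∅ (F.trees.map (fun c => (N, c))) := by
  induction F with
  | nil => exact PE.nil N
  | node c s _ ihs => exact PE.pend c s N _ _ ihs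

end AE15
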