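import Pool.Agent.AE15.Transfer

/-!
# The final lemma: a super vertex keeps its good dominators in the remaining set
-/

namespace AE15

open Finset
open scoped Classical

variable {V : Type*} {R : V → V → Prop}

/-- a set which contains a representative part of `A` and almost all of the complement of `A` meets every test set -/
theorem meet_bound {X A Q P F : Finset V} {𝓕 : Finset (Finset V)} {ε δ c : ℝ} (hε : 0 < ε) (hc : 0 < c)
    (hA : A ⊆ X) (hA0 : A.Nonempty) (hQ : Q ⊆ A) (hR : Rep A 𝓕 ε Q) (hcQ : c * A.card ≤ Q.card)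
    (hQP : Q ⊆ P) (hd : (((X \ A) \ P).card : ℝ) ≤ δ * X.card) (hF : F ∈ 𝓕) (hFX : F ⊆ X) :
    c * F.card - (δ + ε) * X.card ≤ ((F ∩ P).card : ℝ) := by
  have hA1 : (0 : ℝ) < A.card := by exact_mod_cast hA0.card_pos
  have hAX : (A.card : ℝ) ≤ X.card := by exact_mod_cast card_le_card hA
  have hQA : (Q.card : ℝ) ≤ A.card := by exact_mod_cast card_le_card hQ
  have hc1 : c ≤ 1 := by
    by_contra h
    push Not at h
    nlinarith
  -- the part in `A`
  have h1 : c * (F ∩ A).card - ε * X.card ≤ ((F ∩ Q).card : ℝ) := by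
    have h2 := hR F hF
    have h3 : (((F ∩ A).card : ℝ) / A.card) * A.card = (F ∩ A).card := div_mul_cancel₀ _ hA1.ne'
    by_cases h4 : ((F ∩ A).card : ℝ) / A.card - ε < 0
    · have h5 : (0 : ℝ) ≤ (F ∩ Q).card := by positivity
      have h6 : ((F ∩ A).card : ℝ) ≤ ε * A.card := by nlinarith
      have h7 : c * (F ∩ A).card ≤ 1 * (ε * A.card) := by
        apply mul_le_mul hc1 h6 (by positivity) (by norm_num)
      nlinarith
    · push Not at h4
      have h5 : (((F ∩ A).card : ℝ) / A.card - ε) * (c * A.card) ≤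
          (((F ∩ A).card : ℝ) / A.card - ε) * Q.card := mul_le_mul_of_nonneg_left hcQ h4
      have h6 : (((F ∩ A).card : ℝ) / A.card - ε) * (c * A.card) = c * (F ∩ A).card - c * (ε * A.card) := by
        rw [sub_mul]
        congr 1
        · calc ((F ∩ A).card : ℝ) / A.card * (c * A.card) = c * (((F ∩ A).card : ℝ) / A.card * A.card) := by ring
            _ = c * (F ∩ A).card := by rw [h3]
        · ring
      have h7 : c * (ε * A.card) ≤ 1 * (ε * X.card) := by
        apply mul_le_mul hc1 _ (by positivity) (by norm_num)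
        exact mul_le_mul_of_nonneg_left hAX hε.le
      linarith
  -- the part outside
  have h2 : ((F \ A).card : ℝ) - δ * X.card ≤ (((F \ A) ∩ P).card : ℝ) := by
    have h3 : ((F \ A).card : ℝ) = ((F \ A) \ P).card + ((F \ A) ∩ P).card := by
      exact_mod_cast (card_sdiff_add_card_inter (F \ A) P).symm
    have h4 : (((F \ A) \ P).card : ℝ) ≤ ((X \ A) \ P).card := by
      exact_mod_cast card_le_card (sdiff_subset_sdiff (sdiff_subset_sdiff hFX (Subset.refl _)) (Subset.refl _))
    linarith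
  have h3 : ((F ∩ Q).card : ℝ) + ((F \ A) ∩ P).card ≤ (F ∩ P).card := by
    rw [← Nat.cast_add, ← card_union_of_disjoint]
    · norm_cast
      apply card_le_card
      intro u hu
      rw [mem_union, mem_inter, mem_inter, mem_sdiff] at hu
      rw [mem_inter]
      rcases hu with h | h
      · exact ⟨h.1, hQP h.2⟩
      · exact ⟨h.1.1, h.2⟩
    · rw [disjoint_left]
      intro u h4 h5
      rw [mem_inter] at h4 h5
      exact (mem_sdiff.1 h5.1).2 (hQ h4.2)
  have h4 : (F.card : ℝ) = (F \ A).card + (F ∩ A).card := by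
    exact_mod_cast (card_sdiff_add_card_inter F A).symm
  have h5 : c * (F \ A).card ≤ (F \ A).card := by
    have : (0 : ℝ) ≤ (F \ A).card := by positivity
    nlinarith
  rw [h4]
  linarith

/-- **Final lemma** -/
theorem final_lemma (hT : AE32.Tour R) {X : Finset V} {x : V} {κ₁ η₁ τ κ η σ δ ε c : ℝ} (hS : Super R κ₁ η₁ τ X x)
    (hX : X.Nonempty) (hκ : 0 < κ) (hη : 0 < η) (hκ₁ : 0 < κ₁) (hη₁ : 0 < η₁) (hσ : 0 < σ) (hδ : 0 ≤ δ)
    (hε : 0 < ε) (hc : 0 < c) (h1 : σ ≤ τ) (h2 : 2 * (δ + ε) ≤ c * σ) (h3 : σ ≤ κ₁) (h4 : κ ≤ c * κ₁ / 2)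
    (h5 : 2 * η₁ ≤ c * η) :
    ∃ (𝓕 : Finset (Finset V)) (H : Finset V), 𝓕.card ≤ 6 * X.card ^ 2 ∧ H ⊆ X ∧ (H.card : ℝ) ≤ 2 * σ * X.card ∧
      (∀ h ∈ H, R x h) ∧ ∀ A Q P : Finset V, A ⊆ X → (X.card : ℝ) ≤ 2 * A.card → Q ⊆ A → Rep A 𝓕 ε Q →
        c * A.card ≤ Q.card → P ⊆ X → x ∉ P → Q ⊆ P → H ⊆ P → (((X \ A) \ P).card : ℝ) ≤ δ * X.card →
        Cls R P κ η (R x) := by
  have hn : (0 : ℝ) < X.card := by exact_mod_cast hX.card_pos
  have hn1 : 1 ≤ X.card := hX.card_pos
  obtain ⟨FF, hF1, hF2, hF3⟩ := exists_family R κ₁ η₁ X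
  set j : ℕ := ⌊σ * X.card⌋₊ with hj
  have hj1 : (j : ℝ) ≤ σ * X.card := Nat.floor_le (by positivity)
  have hj2 : σ * X.card < j + 1 := Nat.lt_floor_add_one _
  set Low := (nI R X x).filter (fun u => (dom R κ₁ η₁ X x u).card ≤ j) with hLow
  have hLow1 : Low.card ≤ 2 * j := hS.2 j (hj1.trans (mul_le_mul_of_nonneg_right h1 hn.le))
  have hne : ∀ u : V, u ∈ X → R u x → (dom R κ₁ η₁ X x u).Nonempty :=
    fun u hu hux => hS.dom_nonempty (hσ.le.trans h1) hu hux
  set d : V → V := fun u => if h : (dom R κ₁ η₁ X x u).Nonempty then h.choose else u with hd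
  have hd1 : ∀ u : V, u ∈ X → R u x → d u ∈ dom R κ₁ η₁ X x u := by
    intro u hu hux
    have h := hne u hu hux
    rw [hd]
    simp only [h, dif_pos]
    exact h.choose_spec
  have hLow2 : ∀ u ∈ Low, d u ∈ dom R κ₁ η₁ X x u := by
    intro u hu
    rw [hLow, mem_filter, mem_nI] at hu
    exact hd1 u hu.1.1 hu.1.2
  refine ⟨FF ∪ X.image (fun u => dom R κ₁ η₁ X x u), Low.image d, ?_, ?_, ?_, ?_, ?_⟩
  · have h6 : (FF ∪ X.image (fun u => dom R κ₁ η₁ X x u)).card ≤ X.card * (X.card + 1) + X.card :=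
      (card_union_le _ _).trans (add_le_add hF1 card_image_le)
    nlinarith
  · intro w hw
    obtain ⟨u, hu, rfl⟩ := mem_image.1 hw
    exact (mem_dom.1 (hLow2 u hu)).1
  · have h6 : ((Low.image d).card : ℝ) ≤ 2 * j := by
      exact_mod_cast (card_image_le (s := Low) (f := d)).trans hLow1
    linarith
  · intro w hw
    obtain ⟨u, hu, rfl⟩ := mem_image.1 hw
    exact (mem_dom.1 (hLow2 u hu)).2.1
  · intro A Q P hA hXA hQ hRep hcQ hP hxP hQP hHP hdel
    have hA0 : A.Nonempty := by
      rw [← card_pos]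
      have : (0 : ℝ) < A.card := by linarith
      exact_mod_cast this
    have hPX : (P.card : ℝ) ≤ X.card := by exact_mod_cast card_le_card hP
    have hQP' : (Q.card : ℝ) ≤ P.card := by exact_mod_cast card_le_card hQP
    have key : ∀ F ∈ FF ∪ X.image (fun u => dom R κ₁ η₁ X x u), F ⊆ X →
        c * F.card - c * σ / 2 * X.card ≤ ((F ∩ P).card : ℝ) := by
      intro F hF hFX
      have h6 := meet_bound hε hc hA hA0 hQ hRep hcQ hQP hdel hF hFX
      have h7 : (δ + ε) * X.card ≤ c * σ / 2 * X.card := mul_le_mul_of_nonneg_right (by linarith) hn.le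
      linarith
    -- goodness in `P`
    have hgood : ∀ w ∈ X, Good R κ₁ η₁ X w → Good R κ η P w := by
      apply hF3 P hP κ η
      · intro F hF hFc
        have h6 := key F (mem_union_left _ hF) (hF2 F hF)
        have h7 : c * (κ₁ * X.card) ≤ c * F.card := mul_le_mul_of_nonneg_left hFc hc.le
        have h8 : c * σ / 2 * X.card ≤ c * κ₁ / 2 * X.card := by
          apply mul_le_mul_of_nonneg_right _ hn.le
          have := mul_le_mul_of_nonneg_left h3 hc.le
          linarith
        have h9 : κ * P.card ≤ κ * X.card := mul_le_mul_of_nonneg_left hPX hκ.le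
        have h10 : κ * X.card ≤ c * κ₁ / 2 * X.card := mul_le_mul_of_nonneg_right h4 hn.le
        linarith
      · intro F hF hFc
        have h6 : ((F ∩ P).card : ℝ) ≤ F.card := by exact_mod_cast card_le_card inter_subset_left
        have h7 : η₁ * X.card ≤ c * η / 2 * X.card := mul_le_mul_of_nonneg_right (by linarith) hn.le
        have h8 : c * η / 2 * X.card ≤ c * η / 2 * (2 * A.card) := mul_le_mul_of_nonneg_left hXA (by positivity)
        have h9 : η * (c * A.card) ≤ η * P.card := mul_le_mul_of_nonneg_left (hcQ.trans hQP') hη.le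
        linarith
    intro u hu
    by_cases hxu : R x u
    · exact Or.inl hxu
    · right
      have hne' : x ≠ u := fun e => hxP (e ▸ hu)
      have hux : R u x := (hT.tot x u hne').resolve_left hxu
      have huX : u ∈ X := hP hu
      have : ∃ w ∈ dom R κ₁ η₁ X x u, w ∈ P := by
        by_cases huL : u ∈ Low
        · exact ⟨d u, hLow2 u huL, hHP (mem_image_of_mem _ huL)⟩
        · have h6 : j + 1 ≤ (dom R κ₁ η₁ X x u).card := by
            by_contra hcon
            apply huL
            rw [hLow, mem_filter, mem_nI]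
            exact ⟨⟨huX, hux⟩, by omega⟩
          have h7 := key (dom R κ₁ η₁ X x u) (mem_union_right _ (mem_image_of_mem _ huX)) (filter_subset _ _)
          have h8 : ((j : ℝ) + 1) ≤ (dom R κ₁ η₁ X x u).card := by exact_mod_cast h6
          have h9 : c * (σ * X.card) ≤ c * (dom R κ₁ η₁ X x u).card :=
            mul_le_mul_of_nonneg_left (hj2.le.trans h8) hc.le
          have h10 : (0 : ℝ) < (dom R κ₁ η₁ X x u ∩ P).card := by
            have : 0 < c * σ / 2 * X.card := by positivity
            linarith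
          have h11 : (dom R κ₁ η₁ X x u ∩ P).Nonempty := by
            rw [← card_pos]
            exact_mod_cast h10
          obtain ⟨w, hw⟩ := h11
          rw [mem_inter] at hw
          exact ⟨w, hw.1, hw.2⟩
      obtain ⟨w, hw, hwP⟩ := this
      rw [mem_dom] at hw
      exact ⟨w, hwP, hw.2.1, hw.2.2.1, hgood w hw.1 hw.2.2.2⟩

end AE15
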