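import Pool.Agent.AE15.StagesOf

/-!
# The final theorem from the stages and the glue
-/

set_option autoImplicit false

namespace AE15

open Finset
open scoped Classical

/-- the statement of `stages` -/
def StagesStatement (b : ℕ) : Prop := ∃ C : ℕ, ∀ {V : Type} {R : V → V → Prop}, AE32.Tour R →
    ∀ c : Fo, c.len ≤ b → c.Deg b → ∀ X : Finset V, c.size + 1 + C ≤ X.card → In R c (fun _ => True) X

/-- the statement of `glue` -/
def GlueStatement : Prop := ∀ {k b : ℕ} {E : Fin (k + 1) → Fin (k + 1) → Prop}, (∀ a c, E a c → ¬ E c a) →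
    (SimpleGraph.fromRel E).IsTree → (∀ a c v, E a v → E c v → a = c) → (∀ v, {w | E v w}.ncard ≤ b) →
    ∃ c : Fo, c.size = k ∧ c.len ≤ b ∧ c.Deg b ∧ ∀ {V : Type} {R : V → V → Prop} {N : V → Prop} {X : Finset V},
      In R c N X → ∃ f : Fin (k + 1) → V, Function.Injective f ∧ (∀ a, f a ∈ X) ∧ ∀ a c, E a c → R (f a) (f c)

/-- the out-arborescence part -/
theorem final_out (hglue : GlueStatement) (b : ℕ) (hst : StagesStatement b) : ∃ C : ℕ, ∀ k n : ℕ, k + C ≤ n →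
    ∀ R : Fin n → Fin n → Prop,
    (∀ a, ¬ R a a) → (∀ a c, a ≠ c → R a c ∨ R c a) → (∀ a c, R a c → ¬ R c a) →
    ∀ E : Fin (k + 1) → Fin (k + 1) → Prop,
      (∀ a c, E a c → ¬ E c a) →
      (SimpleGraph.fromRel E).IsTree →
      (∀ a c v, E a v → E c v → a = c) →
      (∀ v, {w | E v w}.ncard ≤ b) →
      ∃ f : Fin (k + 1) → Fin n, Function.Injective f ∧ ∀ a c, E a c → R (f a) (f c) := by
  obtain ⟨C, hC⟩ := hst
  refine ⟨C + 1, ?_⟩
  intro k n hn R h1 h2 h3 E h4 h5 h6 h7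
  obtain ⟨c, hc1, hc2, hc3, hc4⟩ := hglue h4 h5 h6 h7
  have h8 := hC (R := R) ⟨h1, h2, h3⟩ c hc2 hc3 Finset.univ (by
    rw [Finset.card_univ, Fintype.card_fin, hc1]; omega)
  obtain ⟨f, hf1, _, hf2⟩ := hc4 h8
  exact ⟨f, hf1, hf2⟩

/-- both orientations -/
theorem final_both (hglue : GlueStatement) (b : ℕ) (hst : StagesStatement b) : ∃ C : ℕ, ∀ k n : ℕ, k + C ≤ n →
    ∀ R : Fin n → Fin n → Prop,
    (∀ a, ¬ R a a) → (∀ a c, a ≠ c → R a c ∨ R c a) → (∀ a c, R a c → ¬ R c a) →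
    ∀ E : Fin (k + 1) → Fin (k + 1) → Prop,
      (∀ a c, E a c → ¬ E c a) →
      (SimpleGraph.fromRel E).IsTree →
      ((∀ a c v, E a v → E c v → a = c) ∧ (∀ v, {w | E v w}.ncard ≤ b) ∨
        (∀ a c v, E v a → E v c → a = c) ∧ (∀ v, {w | E w v}.ncard ≤ b)) →
      ∃ f : Fin (k + 1) → Fin n, Function.Injective f ∧ ∀ a c, E a c → R (f a) (f c) := by
  obtain ⟨C, hC⟩ := final_out hglue b hst
  refine ⟨C, ?_⟩
  intro k n hn R h1 h2 h3 E h4 h5 h6
  rcases h6 with ⟨h6, h7⟩ | ⟨h6, h7⟩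
  · exact hC k n hn R h1 h2 h3 E h4 h5 h6 h7
  · have hsymm : SimpleGraph.fromRel (fun a c => E c a) = SimpleGraph.fromRel E := by
      ext a c
      rw [SimpleGraph.fromRel_adj, SimpleGraph.fromRel_adj, or_comm]
    obtain ⟨f, hf1, hf2⟩ := hC k n hn (fun a c => R c a) h1 (fun a c hac => h2 c a (Ne.symm hac))
      (fun a c => h3 c a) (fun a c => E c a) (fun a c => h4 c a) (by rw [hsymm]; exact h5)
      (fun a c v ha hc => h6 a c v ha hc) h7
    exact ⟨f, hf1, fun a c hac => hf2 c a hac⟩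

end AE15
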