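import Pool.Agent.AE15.Defs
import Pool.Agent.AE32.Arb

/-!
# From out-arborescences to coded trees
-/

namespace AE15

open Finset Relation
open scoped Classical

section glue

variable {τ : Type*} [Fintype τ] {E : τ → τ → Prop}

/-- the forest `F` codes the trees below the vertices of the list `l` -/
private def CodesL (E : τ → τ → Prop) (b : ℕ) (l : List τ) (F : Fo) : Prop :=
  F.size = (l.map (fun c => (AE32.desc E c).card)).sum ∧ F.len = l.length ∧ F.Deg b ∧
    ∀ {V : Type} {R : V → V → Prop} {N : V → Prop} {S : Finset V}, Nonempty V → Emb R F N S →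
      ∃ f : τ → V, (∀ c ∈ l, N (f c)) ∧ (∀ c ∈ l, ∀ a ∈ AE32.desc E c, f a ∈ S) ∧
        (∀ c ∈ l, ∀ a ∈ AE32.desc E c, ∀ c' ∈ l, ∀ a' ∈ AE32.desc E c', f a = f a' → a = a') ∧
        ∀ c ∈ l, ∀ a ∈ AE32.desc E c, ∀ a', E a a' → R (f a) (f a')

/-- the tree with children forest `c` codes the tree below `v` -/
private def Codes (E : τ → τ → Prop) (b : ℕ) (v : τ) (c : Fo) : Prop :=
  c.size + 1 = (AE32.desc E v).card ∧ c.len ≤ b ∧ c.Deg b ∧
    ∀ {V : Type} {R : V → V → Prop} {N : V → Prop} {S : Finset V}, Emb R (.node c .nil) N S →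
      ∃ f : τ → V, N (f v) ∧ (∀ a ∈ AE32.desc E v, f a ∈ S) ∧
        (∀ a ∈ AE32.desc E v, ∀ a' ∈ AE32.desc E v, f a = f a' → a = a') ∧
        ∀ a ∈ AE32.desc E v, ∀ a', E a a' → R (f a) (f a')

private theorem codesL_of (b : ℕ) (l : List τ) (hl : l.Nodup)
    (hdis : ∀ c ∈ l, ∀ d ∈ l, c ≠ d → Disjoint (AE32.desc E c) (AE32.desc E d))
    (h : ∀ c ∈ l, ∃ F, Codes E b c F) : ∃ F, CodesL E b l F := by
  induction l with
  | nil =>
    refine ⟨.nil, rfl, rfl, trivial, ?_⟩
    intro V R N S hV _
    exact ⟨fun _ => Classical.choice hV, by simp, by simp, by simp, by simp⟩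
  | cons c l ih =>
    rw [List.nodup_cons] at hl
    obtain ⟨F, hF1, hF2, hF3, hF4⟩ := ih hl.2
      (fun c hc d hd => hdis c (List.mem_cons_of_mem _ hc) d (List.mem_cons_of_mem _ hd))
      (fun c hc => h c (List.mem_cons_of_mem _ hc))
    obtain ⟨G, hG1, hG2, hG3, hG4⟩ := h c List.mem_cons_self
    have hcl : ∀ d ∈ l, Disjoint (AE32.desc E c) (AE32.desc E d) := fun d hd =>
      hdis c List.mem_cons_self d (List.mem_cons_of_mem _ hd) (fun e => hl.1 (e ▸ hd))
    have hnot : ∀ d ∈ l, ∀ a ∈ AE32.desc E d, a ∉ AE32.desc E c := fun d hd a ha ha' =>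
      (Finset.disjoint_left.1 (hcl d hd)) ha' ha
    refine ⟨.node G F, ?_, ?_, ⟨hG2, hG3, hF3⟩, ?_⟩
    · simp only [Fo.size, List.map_cons, List.sum_cons, ← hF1, ← hG1]
      omega
    · simp [Fo.len, hF2]
    · intro V R N S hV hS
      obtain ⟨x, A, B, hx, hxA, hxB, hAB, rfl, hA, hB⟩ := hS
      obtain ⟨f₁, p1, p2, p3, p4⟩ := hG4 (V := V) (R := R) (N := N) (S := insert x A)
        ⟨x, A, ∅, hx, hxA, by simp, by simp, by simp, hA, rfl⟩
      obtain ⟨f₂, q1, q2, q3, q4⟩ := hF4 hV hB
      have hsep : Disjoint (insert x A) B := by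
        rw [disjoint_insert_left]
        exact ⟨hxB, hAB⟩
      refine ⟨fun a => if a ∈ AE32.desc E c then f₁ a else f₂ a, ?_, ?_, ?_, ?_⟩
      · intro d hd
        rcases List.mem_cons.1 hd with rfl | hd
        · simp only [AE32.self_mem_desc, if_true]
          exact p1
        · simp only [hnot d hd d (AE32.self_mem_desc d), if_false]
          exact q1 d hd
      · intro d hd a ha
        rcases List.mem_cons.1 hd with rfl | hd
        · simp only [ha, if_true]
          have := p2 a ha
          rw [mem_insert] at this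
          simp only [mem_insert, mem_union]
          tauto
        · simp only [hnot d hd a ha, if_false]
          exact mem_insert_of_mem (mem_union_right _ (q2 d hd a ha))
      · intro d hd a ha d' hd' a' ha' haa
        rcases List.mem_cons.1 hd with e | hd1
        · rw [e] at ha
          rcases List.mem_cons.1 hd' with e' | hd2
          · rw [e'] at ha'
            simp only [ha, ha', if_true] at haa
            exact p3 a ha a' ha' haa
          · simp only [ha, if_true, hnot d' hd2 a' ha', if_false] at haa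
            exact absurd (haa ▸ q2 d' hd2 a' ha') ((Finset.disjoint_left.1 hsep) (p2 a ha))
        · rcases List.mem_cons.1 hd' with e' | hd2
          · rw [e'] at ha'
            simp only [ha', if_true, hnot d hd1 a ha, if_false] at haa
            exact absurd (haa.symm ▸ q2 d hd1 a ha) ((Finset.disjoint_left.1 hsep) (p2 a' ha'))
          · simp only [hnot d hd1 a ha, hnot d' hd2 a' ha', if_false] at haa
            exact q3 d hd1 a ha d' hd2 a' ha' haa
      · intro d hd a ha a' haa
        rcases List.mem_cons.1 hd with rfl | hd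
        · have ha' : a' ∈ AE32.desc E d := AE32.mem_desc.2 ((AE32.mem_desc.1 ha).tail haa)
          simp only [ha, ha', if_true]
          exact p4 a ha a' haa
        · have ha' : a' ∈ AE32.desc E d := AE32.mem_desc.2 ((AE32.mem_desc.1 ha).tail haa)
          simp only [hnot d hd a ha, hnot d hd a' ha', if_false]
          exact q4 d hd a ha a' haa

private theorem codes_of {h : τ → ℕ} (hE : ∀ a b, E a b → h a < h b) (hin : ∀ a b c, E a c → E b c → a = b)
    {b : ℕ} (hout : ∀ v, {w | E v w}.ncard ≤ b) (n : ℕ) :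
    ∀ v, (AE32.desc E v).card = n → ∃ c, Codes E b v c := by
  induction n using Nat.strong_induction_on with
  | _ n ih =>
    intro v hv
    set ch : Finset τ := univ.filter (fun w => E v w) with hch
    have hmem : ∀ c, c ∈ ch.toList ↔ E v c := by
      intro c
      rw [Finset.mem_toList, hch, mem_filter]
      simp
    obtain ⟨F, hF1, hF2, hF3, hF4⟩ := codesL_of (E := E) b ch.toList (Finset.nodup_toList _)
      (fun c hc d hd hcd => AE32.desc_disjoint hE hin ((hmem c).1 hc) ((hmem d).1 hd) hcd)
      (fun c hc => ih _ (by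
        rw [← hv]
        refine card_lt_card ⟨AE32.desc_subset ((hmem c).1 hc), fun hcon => ?_⟩
        exact AE32.notMem_desc hE ((hmem c).1 hc) (hcon (AE32.self_mem_desc v))) c rfl)
    have hdesc : AE32.desc E v = insert v (ch.biUnion (AE32.desc E)) := by
      ext x
      rw [mem_insert, mem_biUnion, AE32.mem_desc, ReflTransGen.cases_head_iff]
      constructor
      · rintro (h1 | ⟨c, h1, h2⟩)
        · exact Or.inl h1.symm
        · exact Or.inr ⟨c, by simp [hch, h1], AE32.mem_desc.2 h2⟩
      · rintro (h1 | ⟨c, h1, h2⟩)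
        · exact Or.inl h1.symm
        · exact Or.inr ⟨c, by simpa [hch] using h1, AE32.mem_desc.1 h2⟩
    have hnv : v ∉ ch.biUnion (AE32.desc E) := by
      rw [mem_biUnion]
      rintro ⟨c, h1, h2⟩
      exact AE32.notMem_desc hE (by simpa [hch] using h1) h2
    refine ⟨F, ?_, ?_, hF3, ?_⟩
    · rw [hdesc, card_insert_of_notMem hnv, card_biUnion, hF1]
      · congr 1
        rw [Finset.sum_map_toList]
      · intro c hc d hd hcd
        exact AE32.desc_disjoint hE hin (by simpa [hch] using hc) (by simpa [hch] using hd) hcd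
    · rw [hF2, Finset.length_toList, hch]
      have h1 := hout v
      rwa [Set.ncard_eq_toFinset_card', Set.toFinset_ofPred] at h1
    · intro V R N S hS
      obtain ⟨x, A, B, hx, hxA, hxB, hAB, rfl, hA, hB⟩ := hS
      obtain rfl : B = ∅ := hB
      obtain ⟨f, q1, q2, q3, q4⟩ := hF4 ⟨x⟩ hA
      have hcase : ∀ a ∈ AE32.desc E v, a = v ∨ ∃ c ∈ ch.toList, a ∈ AE32.desc E c := by
        intro a ha
        rw [hdesc, mem_insert, mem_biUnion] at ha
        rcases ha with h1 | ⟨c, h1, h2⟩
        · exact Or.inl h1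
        · exact Or.inr ⟨c, Finset.mem_toList.2 h1, h2⟩
      have hne : ∀ c ∈ ch.toList, ∀ a ∈ AE32.desc E c, a ≠ v := by
        rintro c hc a ha rfl
        exact AE32.notMem_desc hE ((hmem c).1 hc) ha
      refine ⟨fun a => if a = v then x else f a, by simpa using hx, ?_, ?_, ?_⟩
      · intro a ha
        rcases hcase a ha with rfl | ⟨c, hc, hac⟩
        · simp
        · simp only [hne c hc a hac, if_false]
          exact mem_insert_of_mem (mem_union_left _ (q2 c hc a hac))
      · intro a ha a' ha' haa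
        rcases hcase a ha with rfl | ⟨c, hc, hac⟩
        · rcases hcase a' ha' with rfl | ⟨c', hc', hac'⟩
          · rfl
          · simp only [if_true, hne c' hc' a' hac', if_false] at haa
            exact absurd (haa ▸ q2 c' hc' a' hac') hxA
        · rcases hcase a' ha' with rfl | ⟨c', hc', hac'⟩
          · simp only [if_true, hne c hc a hac, if_false] at haa
            exact absurd (haa.symm ▸ q2 c hc a hac) hxA
          · simp only [hne c hc a hac, hne c' hc' a' hac', if_false] at haa
            exact q3 c hc a hac c' hc' a' hac' haa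
      · intro a ha a' haa
        have ha'v : a' ≠ v := by
          rintro rfl
          have h1 := AE32.rank_le hE (AE32.mem_desc.1 ha)
          have h2 := hE _ _ haa
          omega
        rcases hcase a ha with rfl | ⟨c, hc, hac⟩
        · simp only [if_true, ha'v, if_false]
          exact q1 a' ((hmem a').2 haa)
        · simp only [hne c hc a hac, ha'v, if_false]
          exact q4 c hc a hac a' haa

end glue

/-- out-arborescences are coded by forests -/
theorem glue {k b : ℕ} {E : Fin (k + 1) → Fin (k + 1) → Prop} (h4 : ∀ a c, E a c → ¬ E c a)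
    (h5 : (SimpleGraph.fromRel E).IsTree) (h6 : ∀ a c v, E a v → E c v → a = c)
    (h7 : ∀ v, {w | E v w}.ncard ≤ b) :
    ∃ c : Fo, c.size = k ∧ c.len ≤ b ∧ c.Deg b ∧ ∀ {V : Type} {R : V → V → Prop} {N : V → Prop} {X : Finset V},
      In R c N X → ∃ f : Fin (k + 1) → V, Function.Injective f ∧ (∀ a, f a ∈ X) ∧ ∀ a c, E a c → R (f a) (f c) := by
  obtain ⟨h, hE⟩ := GS78.exists_rank h4 h5.2
  obtain ⟨ρ, hρ⟩ := AE32.exists_root h6 hE h5.1
  obtain ⟨c, hc1, hc2, hc3, hc4⟩ := codes_of hE h6 h7 _ ρ rfl
  rw [hρ, card_univ, Fintype.card_fin] at hc1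
  refine ⟨c, by omega, hc2, hc3, ?_⟩
  rintro V R N X ⟨S, hSX, hS⟩
  obtain ⟨f, -, p2, p3, p4⟩ := hc4 hS
  rw [hρ] at p2 p3 p4
  exact ⟨f, fun a b hab => p3 a (mem_univ _) b (mem_univ _) hab, fun a => hSX (p2 a (mem_univ _)),
    fun a c hac => p4 a (mem_univ _) c hac⟩

end AE15
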