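import Pool.Agent.AE15.Transfer

/-!
# The piece lemma

Representative sets can be used for the items at a super vertex.
-/

set_option autoImplicit false

namespace AE15

open Finset
open scoped Classical

variable {V : Type*} {R : V → V → Prop}

/-- lower bound for the part of a test set inside a representative set -/
theorem Rep.lower {X A P F : Finset V} {𝓕 : Finset (Finset V)} {ε μ : ℝ} (hrep : Rep A 𝓕 ε P) (hA : A ⊆ X)
    (hXA : ((X \ A).card : ℝ) ≤ μ * X.card) (hP : P ⊆ A) (hPne : P.Nonempty) (hF : F ∈ 𝓕) (hFX : F ⊆ X) :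
    ((F.card : ℝ) - (μ + ε) * X.card) * P.card ≤ X.card * (F ∩ P).card := by
  have h1 := hrep F hF
  have ha : (0 : ℝ) < A.card := by exact_mod_cast (hPne.mono hP).card_pos
  have han : (A.card : ℝ) ≤ X.card := by exact_mod_cast card_le_card hA
  have hn : (0 : ℝ) < X.card := ha.trans_le han
  have hp : (0 : ℝ) ≤ P.card := Nat.cast_nonneg _
  have h2 : (F.card : ℝ) ≤ (F ∩ A).card + (X \ A).card := by
    have h3 : F.card ≤ (F ∩ A).card + (X \ A).card := by
      rw [← card_inter_add_card_sdiff F A]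
      exact Nat.add_le_add_left (card_le_card (sdiff_subset_sdiff hFX (Subset.refl _))) _
    exact_mod_cast h3
  have h4 : ((F ∩ A).card : ℝ) / X.card ≤ (F ∩ A).card / A.card :=
    div_le_div_of_nonneg_left (Nat.cast_nonneg _) ha han
  have h5 : (((F ∩ A).card : ℝ) / X.card - ε) * P.card ≤ (F ∩ P).card :=
    (mul_le_mul_of_nonneg_right (by linarith) hp).trans h1
  have h6 : (((F ∩ A).card : ℝ) - ε * X.card) * P.card ≤ X.card * (F ∩ P).card := by
    have h7 := mul_le_mul_of_nonneg_left h5 hn.le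
    have h8 : (X.card : ℝ) * ((((F ∩ A).card : ℝ) / X.card - ε) * P.card) =
        (((F ∩ A).card : ℝ) - ε * X.card) * P.card := by
      field_simp
    rw [h8] at h7
    exact h7
  refine le_trans (mul_le_mul_of_nonneg_right ?_ hp) h6
  linarith only [h2, hXA]

/-- upper bound for the part of a set inside a representative set, if the complement is a test set -/
theorem Rep.upper {X A P F : Finset V} {𝓕 : Finset (Finset V)} {ε : ℝ} (hrep : Rep A 𝓕 ε P) (hA : A ⊆ X)
    (hXA : 15 * (X.card : ℝ) ≤ 16 * A.card) (hP : P ⊆ A) (hPne : P.Nonempty) (hF : X \ F ∈ 𝓕) :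
    15 * X.card * ((F ∩ P).card : ℝ) ≤ (16 * F.card + 15 * ε * X.card) * P.card := by
  have h1 := hrep _ hF
  have ha : (0 : ℝ) < A.card := by exact_mod_cast (hPne.mono hP).card_pos
  have han : (A.card : ℝ) ≤ X.card := by exact_mod_cast card_le_card hA
  have hn : (0 : ℝ) < X.card := ha.trans_le han
  have hp : (0 : ℝ) ≤ P.card := Nat.cast_nonneg _
  have h2 : ∀ B ⊆ X, (((X \ F) ∩ B).card : ℝ) = B.card - (F ∩ B).card := by
    intro B hB
    have h3 : (X \ F) ∩ B = B \ F := by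
      ext x
      simp only [mem_inter, mem_sdiff]
      exact ⟨fun h => ⟨h.2, h.1.2⟩, fun h => ⟨⟨hB h.1, h.2⟩, h.1⟩⟩
    have h4 : (B \ F).card + (F ∩ B).card = B.card := by
      rw [inter_comm]
      exact card_sdiff_add_card_inter B F
    rw [h3]
    have h5 : ((B \ F).card : ℝ) + (F ∩ B).card = B.card := by exact_mod_cast h4
    linarith only [h5]
  rw [h2 A hA, h2 P (hP.trans hA)] at h1
  have h3 : ((A.card : ℝ) - (F ∩ A).card) / A.card = 1 - (F ∩ A).card / A.card := by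
    field_simp
  rw [h3] at h1
  have h4 : ((F ∩ A).card : ℝ) / A.card ≤ 16 * F.card / (15 * X.card) := by
    rw [div_le_div_iff₀ ha (by positivity)]
    have h5 : ((F ∩ A).card : ℝ) ≤ F.card := by exact_mod_cast card_le_card inter_subset_left
    have h6 : (0 : ℝ) ≤ F.card := Nat.cast_nonneg _
    calc ((F ∩ A).card : ℝ) * (15 * X.card) ≤ F.card * (16 * A.card) := by
          apply mul_le_mul h5 hXA (by positivity) h6
      _ = 16 * F.card * A.card := by ring
  have h5 : ((F ∩ P).card : ℝ) ≤ (16 * F.card / (15 * X.card) + ε) * P.card := by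
    have h6 : ((F ∩ P).card : ℝ) ≤ ((F ∩ A).card / A.card + ε) * P.card := by linarith
    exact h6.trans (mul_le_mul_of_nonneg_right (by linarith) hp)
  have h6 := mul_le_mul_of_nonneg_left h5 (show (0 : ℝ) ≤ 15 * X.card by positivity)
  have h7 : 15 * (X.card : ℝ) * ((16 * F.card / (15 * X.card) + ε) * P.card) =
      (16 * F.card + 15 * ε * X.card) * P.card := by
    field_simp
  rw [h7] at h6
  exact h6

private theorem nat_aux {x : ℕ} (h : 32 ≤ x) : 2 + x + 2 * (x * (x + 1)) ≤ 6 * x ^ 2 := by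
  nlinarith only [h]

/-- **Piece lemma**: representative sets can be used for the items at a super vertex -/
theorem piece_lemma (hT : AE32.Tour R) {X Y : Finset V} {y : V} {κ₁ η₁ τ κ η σ₂ μ ε : ℝ}
    (hY : Y ⊆ X) (hXY : ((X \ Y).card : ℝ) ≤ 2 * η * X.card) (hS : Super R κ₁ η₁ τ Y y)
    (hκ : 0 < κ) (hη : 0 < η) (hη' : η ≤ 1 / 20) (hκ₁ : 0 < κ₁) (hκ₁' : κ₁ ≤ 1) (hη₁ : 0 < η₁) (hσ₂ : 0 < σ₂)
    (hμ : 0 < μ) (hε : 0 < ε) (h1 : 2 * σ₂ ≤ τ) (h2 : 3 * σ₂ + 2 * ε ≤ η) (h3 : 2 * μ ≤ σ₂) (h4 : 8 * ε ≤ σ₂)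
    (h5 : 4 ≤ σ₂ * X.card) (h6 : κ ≤ κ₁ / 2) (h7 : 8 * σ₂ ≤ κ₁) (h8 : 4 * η₁ ≤ η) (h9 : ε ≤ η₁) :
    ∃ 𝓕 : Finset (Finset V), 𝓕.card ≤ 6 * X.card ^ 2 ∧ ∀ A ⊆ X, y ∉ A → ((X \ A).card : ℝ) ≤ μ * X.card →
      Ok R A 𝓕 ε κ η (R y) := by
  obtain ⟨n, hnd⟩ : ∃ n : ℝ, n = (X.card : ℝ) := ⟨_, rfl⟩
  have hn32 : 32 ≤ n := by
    rw [← hnd] at h5
    by_contra hc
    push Not at hc
    have : σ₂ * n < 1 / 8 * 32 :=
      (mul_lt_mul_of_pos_left hc hσ₂).trans_le
        (mul_le_mul_of_nonneg_right (by linarith only [hη', h2, hε, hσ₂]) (by norm_num))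
    linarith only [this, h5]
  have hn0 : 0 < n := by linarith only [hn32]
  -- the size of `Y`
  have hYc : (X.card : ℝ) = (X \ Y).card + Y.card := by exact_mod_cast (card_sdiff_add_card_eq_card hY).symm
  have hYn : (1 - 2 * η) * n ≤ Y.card := by
    rw [← hnd] at hYc hXY
    linarith only [hYc, hXY]
  have hYn' : (Y.card : ℝ) ≤ n := by rw [hnd]; exact_mod_cast card_le_card hY
  have hY9 : 9 / 10 * n ≤ Y.card :=
    (mul_le_mul_of_nonneg_right (by linarith only [hη']) hn0.le).trans hYn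
  -- the low vertices
  set j : ℕ := ⌊σ₂ * n⌋₊ with hj
  have hσn : 0 ≤ σ₂ * n := by positivity
  have hj1 : (j : ℝ) ≤ σ₂ * n := Nat.floor_le hσn
  have hj2 : σ₂ * n < j + 1 := Nat.lt_floor_add_one _
  set Low := (nI R Y y).filter (fun u => (dom R κ₁ η₁ Y y u).card ≤ j) with hLow
  have hLowY : Low ⊆ Y := (filter_subset _ _).trans nI_sub
  have hLowc : (Low.card : ℝ) ≤ 2 * (σ₂ * n) := by
    have h10 : Low.card ≤ 2 * j := by
      apply hS.2 j
      have : 2 * σ₂ * (Y.card : ℝ) ≤ τ * Y.card := mul_le_mul_of_nonneg_right h1 (Nat.cast_nonneg _)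
      have h11 := mul_le_mul_of_nonneg_left hY9 hσ₂.le
      linarith only [this, h11, hσn, hj1]
    have h11 : (Low.card : ℝ) ≤ 2 * j := by exact_mod_cast h10
    linarith only [h11, hj1]
  -- the family
  obtain ⟨FF, hF1, hF2, hF3⟩ := exists_family R κ₁ η₁ Y
  refine ⟨insert Y (insert (X \ Low) (Y.image (dom R κ₁ η₁ Y y) ∪ (FF ∪ FF.image (fun F => X \ F)))), ?_, ?_⟩
  · have hn32' : 32 ≤ X.card := by
      rw [hnd] at hn32
      exact_mod_cast hn32
    have hYX : Y.card ≤ X.card := card_le_card hY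
    have c1 : (Y.image (dom R κ₁ η₁ Y y)).card ≤ X.card := card_image_le.trans hYX
    have c2 : (FF.image (fun F => X \ F)).card ≤ FF.card := card_image_le
    have c3 : FF.card ≤ X.card * (X.card + 1) := hF1.trans (Nat.mul_le_mul hYX (by omega))
    have c4 := card_union_le FF (FF.image (fun F => X \ F))
    have c5 := card_union_le (Y.image (dom R κ₁ η₁ Y y)) (FF ∪ FF.image (fun F => X \ F))
    have c6 := card_insert_le (X \ Low) (Y.image (dom R κ₁ η₁ Y y) ∪ (FF ∪ FF.image (fun F => X \ F)))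
    have c7 := card_insert_le Y (insert (X \ Low) (Y.image (dom R κ₁ η₁ Y y) ∪ (FF ∪ FF.image (fun F => X \ F))))
    have c8 := nat_aux hn32'
    omega
  intro A hA hyA hXA P hPA hPne hrep
  set 𝓕 := insert Y (insert (X \ Low) (Y.image (dom R κ₁ η₁ Y y) ∪ (FF ∪ FF.image (fun F => X \ F)))) with h𝓕
  have hp0 : (0 : ℝ) < P.card := by exact_mod_cast hPne.card_pos
  have hA15 : 15 * (X.card : ℝ) ≤ 16 * A.card := by
    have h10 : (X.card : ℝ) = (X \ A).card + A.card := by exact_mod_cast (card_sdiff_add_card_eq_card hA).symm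
    rw [← hnd] at hXA h10 ⊢
    have h11 : μ * n ≤ 1 / 16 * n :=
      mul_le_mul_of_nonneg_right (by linarith only [h3, h2, hη', hε, hσ₂]) hn0.le
    linarith only [hXA, h10, h11]
  have hlow : ∀ F ∈ 𝓕, F ⊆ X → ((F.card : ℝ) - (μ + ε) * n) * P.card ≤ n * (F ∩ P).card := by
    intro F hF hFX
    rw [hnd]
    exact hrep.lower hA hXA hPA hPne hF hFX
  have hupp : ∀ F, X \ F ∈ 𝓕 → 15 * n * ((F ∩ P).card : ℝ) ≤ (16 * F.card + 15 * ε * n) * P.card := by
    intro F hF
    rw [hnd]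
    exact hrep.upper hA hA15 hPA hPne hF
  -- the part of `P` in `Low` and outside `Y`
  have hPLow : ((Low ∩ P).card : ℝ) ≤ (32 / 15 * σ₂ + ε) * P.card := by
    have h10 := hupp Low (by rw [h𝓕]; simp)
    have h11 : (16 * (Low.card : ℝ) + 15 * ε * n) * P.card ≤ (32 * (σ₂ * n) + 15 * ε * n) * P.card :=
      mul_le_mul_of_nonneg_right (by linarith only [hLowc]) hp0.le
    have h12 : 15 * n * ((Low ∩ P).card : ℝ) ≤ 15 * n * ((32 / 15 * σ₂ + ε) * P.card) := by
      refine (h10.trans h11).trans (le_of_eq ?_)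
      ring
    exact le_of_mul_le_mul_left h12 (by positivity)
  have hPY : ((P \ Y).card : ℝ) ≤ (2 * η + μ + ε) * P.card := by
    have h10 := hlow Y (by rw [h𝓕]; simp) hY
    have h11 : ((P \ Y).card : ℝ) + (Y ∩ P).card = P.card := by
      rw [inter_comm]
      exact_mod_cast card_sdiff_add_card_inter P Y
    have h12 : ((1 - 2 * η) * n - (μ + ε) * n) * P.card ≤ n * (Y ∩ P).card :=
      (mul_le_mul_of_nonneg_right (by linarith only [hYn]) hp0.le).trans h10
    have h13 : n * ((1 - 2 * η - μ - ε) * P.card) ≤ n * ((Y ∩ P).card : ℝ) := by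
      refine le_trans (le_of_eq ?_) h12
      ring
    have h14 := le_of_mul_le_mul_left h13 hn0
    linarith only [h11, h14]
  set P' := (P ∩ Y) \ Low with hP'
  have hP'P : P' ⊆ P := sdiff_subset.trans inter_subset_left
  have hP'Y : P' ⊆ Y := sdiff_subset.trans inter_subset_right
  have hP'c : (1 - 3 * η) * (P.card : ℝ) ≤ P'.card := by
    have h10 : P.card ≤ P'.card + (P \ Y).card + (Low ∩ P).card := by
      have h11 : P ⊆ P' ∪ (P \ Y) ∪ (Low ∩ P) := by
        intro x hx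
        by_cases hxY : x ∈ Y
        · by_cases hxL : x ∈ Low
          · exact mem_union_right _ (mem_inter.2 ⟨hxL, hx⟩)
          · exact mem_union_left _ (mem_union_left _ (mem_sdiff.2 ⟨mem_inter.2 ⟨hx, hxY⟩, hxL⟩))
        · exact mem_union_left _ (mem_union_right _ (mem_sdiff.2 ⟨hx, hxY⟩))
      refine (card_le_card h11).trans ((card_union_le _ _).trans (Nat.add_le_add_right (card_union_le _ _) _))
    have h12 : (P.card : ℝ) ≤ P'.card + (P \ Y).card + (Low ∩ P).card := by exact_mod_cast h10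
    have h13 : (2 * η + μ + ε) * (P.card : ℝ) + (32 / 15 * σ₂ + ε) * P.card ≤ 3 * η * P.card := by
      rw [← add_mul]
      exact mul_le_mul_of_nonneg_right (by linarith only [h2, h3, hσ₂, hε, hμ]) hp0.le
    linarith only [h12, h13, hPY, hPLow]
  refine ⟨P', hP'P, ?_, ?_⟩
  · refine le_trans (mul_le_mul_of_nonneg_right ?_ hp0.le) hP'c
    linarith only [hη]
  have hP'le : (P'.card : ℝ) ≤ P.card := by exact_mod_cast card_le_card hP'P
  intro u hu
  have huP := hP'P hu
  have huY := hP'Y hu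
  have huL : u ∉ Low := (mem_sdiff.1 hu).2
  by_cases hyu : R y u
  · exact Or.inl hyu
  right
  have huy : R u y := by
    rcases hT.tot u y (fun e => hyA (by rw [← e]; exact hPA huP)) with h10 | h10
    · exact h10
    · exact absurd h10 hyu
  have hdom : j < (dom R κ₁ η₁ Y y u).card := by
    by_contra hc
    push Not at hc
    exact huL (mem_filter.2 ⟨mem_nI.2 ⟨huY, huy⟩, hc⟩)
  have hdX : dom R κ₁ η₁ Y y u ⊆ X := (filter_subset _ _).trans hY
  have hd1 := hlow (dom R κ₁ η₁ Y y u) (by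
    rw [h𝓕, mem_insert, mem_insert, mem_union]
    exact Or.inr (Or.inr (Or.inl (mem_image_of_mem _ huY)))) hdX
  have hd2 : 0 < ((dom R κ₁ η₁ Y y u ∩ P).card : ℝ) := by
    have h10 : ((j : ℝ) + 1) ≤ (dom R κ₁ η₁ Y y u).card := by exact_mod_cast hdom
    have h11 : 0 < ((dom R κ₁ η₁ Y y u).card : ℝ) - (μ + ε) * n := by
      have h12 := mul_le_mul_of_nonneg_right (show μ + ε ≤ σ₂ by linarith only [h3, h4, hσ₂]) hn0.le
      linarith only [h10, h12, hj2]
    have h12 : 0 < n * ((dom R κ₁ η₁ Y y u ∩ P).card : ℝ) := lt_of_lt_of_le (mul_pos h11 hp0) hd1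
    exact (mul_pos_iff_of_pos_left hn0).1 h12
  obtain ⟨g, hg⟩ : (dom R κ₁ η₁ Y y u ∩ P).Nonempty := card_pos.1 (by exact_mod_cast hd2)
  rw [mem_inter, mem_dom] at hg
  obtain ⟨⟨hgY, hyg, hgu, hgood⟩, hgP⟩ := hg
  have hgL : g ∉ Low := by
    intro h10
    have h11 := (mem_nI.1 (mem_filter.1 h10).1).2
    exact hT.asym _ _ hyg h11
  refine ⟨g, mem_sdiff.2 ⟨mem_inter.2 ⟨hgP, hgY⟩, hgL⟩, hyg, hgu, ?_⟩
  refine hF3 P' hP'Y κ η ?_ ?_ g hgY hgood
  · intro F hF hFc
    have h10 := hlow F (by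
      rw [h𝓕, mem_insert, mem_insert, mem_union, mem_union]
      exact Or.inr (Or.inr (Or.inr (Or.inl hF)))) ((hF2 F hF).trans hY)
    have h11 : ((F ∩ P).card : ℝ) ≤ (F ∩ P').card + (Low ∩ P).card := by
      have h12 : F ∩ P ⊆ (F ∩ P') ∪ (Low ∩ P) := by
        intro x hx
        rw [mem_inter] at hx
        rw [mem_union, mem_inter, mem_inter, hP', mem_sdiff, mem_inter]
        by_cases hxL : x ∈ Low
        · exact Or.inr ⟨hxL, hx.2⟩
        · exact Or.inl ⟨hx.1, ⟨hx.2, hF2 F hF hx.1⟩, hxL⟩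
      exact_mod_cast (card_le_card h12).trans (card_union_le _ _)
    have h12 : κ₁ * (9 / 10 * n) ≤ F.card := (mul_le_mul_of_nonneg_left hY9 hκ₁.le).trans hFc
    have h13 : n * ((9 / 10 * κ₁ - μ - ε) * P.card) ≤ n * ((F ∩ P).card : ℝ) := by
      refine le_trans (le_of_eq ?_) (le_trans (mul_le_mul_of_nonneg_right (sub_le_sub_right h12 _) hp0.le) h10)
      ring
    have h14 := le_of_mul_le_mul_left h13 hn0
    have h15 : κ * (P'.card : ℝ) ≤ κ₁ / 2 * P.card :=
      (mul_le_mul_of_nonneg_left hP'le hκ.le).trans (mul_le_mul_of_nonneg_right h6 hp0.le)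
    have h16 : κ₁ / 2 * (P.card : ℝ) ≤ (9 / 10 * κ₁ - μ - ε - (32 / 15 * σ₂ + ε)) * P.card :=
      mul_le_mul_of_nonneg_right (by linarith only [h7, h3, h4, hκ₁, hσ₂]) hp0.le
    have h17 : (9 / 10 * κ₁ - μ - ε - (32 / 15 * σ₂ + ε)) * (P.card : ℝ) =
      (9 / 10 * κ₁ - μ - ε) * P.card - (32 / 15 * σ₂ + ε) * P.card := by ring
    linarith only [h11, h14, h15, h16, h17, hPLow]
  · intro F hF hFc
    have h10 := hupp F (by
      rw [h𝓕, mem_insert, mem_insert, mem_union, mem_union]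
      exact Or.inr (Or.inr (Or.inr (Or.inr (mem_image_of_mem _ hF)))))
    have h11 : (F.card : ℝ) ≤ η₁ * n := hFc.trans (mul_le_mul_of_nonneg_left hYn' hη₁.le)
    have h12 : 15 * n * ((F ∩ P).card : ℝ) ≤ 15 * n * ((31 / 15 * η₁) * P.card) := by
      refine h10.trans ?_
      have h13 : 16 * (F.card : ℝ) + 15 * ε * n ≤ 31 * η₁ * n := by
        have h14 := mul_le_mul_of_nonneg_right h9 hn0.le
        linarith only [h11, h14]
      refine (mul_le_mul_of_nonneg_right h13 hp0.le).trans (le_of_eq ?_)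
      ring
    have h13 := le_of_mul_le_mul_left h12 (by positivity : (0 : ℝ) < 15 * n)
    have h14 : ((F ∩ P').card : ℝ) ≤ (F ∩ P).card := by
      exact_mod_cast card_le_card (inter_subset_inter (Subset.refl _) hP'P)
    have h15 : (31 / 15 * η₁) * (P.card : ℝ) ≤ η * P'.card := by
      have h16 : (17 / 20) * (P.card : ℝ) ≤ P'.card :=
        (mul_le_mul_of_nonneg_right (by linarith only [hη']) hp0.le).trans hP'c
      have h17 : η * (17 / 20 * (P.card : ℝ)) ≤ η * P'.card := mul_le_mul_of_nonneg_left h16 hη.le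
      have h18 : (31 / 15 * η₁) * (P.card : ℝ) ≤ (17 / 20 * η) * P.card :=
        mul_le_mul_of_nonneg_right (by linarith only [h8, hη₁, hη]) hp0.le
      linarith only [h17, h18]
    linarith only [h13, h14, h15]

end AE15
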