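import Pool.Agent.AE15.Reach

/-!
# Levels
-/

namespace AE15

open Finset
open scoped Classical

variable {V : Type*} {R : V → V → Prop}

theorem Lv_mono {X K : Finset V} {k : ℝ} (i : ℕ) : Lv R X K k i ⊆ Lv R X K k (i + 1) := by
  induction i with
  | zero => exact subset_union_left
  | succ i ih =>
    apply union_subset subset_union_left
    refine Subset.trans ?_ subset_union_right
    intro z hz
    rw [mem_filter] at hz ⊢
    refine ⟨hz.1, hz.2.trans ?_⟩
    exact_mod_cast card_le_card (nO_mono ih)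

theorem Lv_sub {X K : Finset V} {k : ℝ} (hK : K ⊆ X) (i : ℕ) : Lv R X K k i ⊆ X := by
  cases i with
  | zero => exact hK
  | succ i => exact union_subset hK (filter_subset _ _)

theorem Lv_mono' {X K : Finset V} {k : ℝ} {i j : ℕ} (h : i ≤ j) : Lv R X K k i ⊆ Lv R X K k j := by
  induction j, h using Nat.le_induction with
  | base => exact Subset.refl _
  | succ j _ ih => exact ih.trans (Lv_mono j)

theorem sub_Lv {X K : Finset V} {k : ℝ} (i : ℕ) : K ⊆ Lv R X K k i := Lv_mono' (i := 0) (Nat.zero_le i)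

theorem exists_small_step {k θ : ℝ} {X K : Finset V} (hK : K ⊆ X) (hne : K.Nonempty) {M : ℕ}
    (hM : 1 ≤ θ * M) :
    ∃ m < M, ((Lv R X K k (m + 1) \ Lv R X K k m).card : ℝ) < θ * X.card := by
  by_contra hc
  push Not at hc
  have h1 : ∀ m ≤ M, (K.card : ℝ) + m * (θ * X.card) ≤ (Lv R X K k m).card := by
    intro m
    induction m with
    | zero => intro _; simp [Lv]
    | succ m ih =>
      intro hm
      have h2 := ih (by omega)
      have h3 := hc m (by omega)
      have h4 : ((Lv R X K k (m + 1)).card : ℝ) =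
          (Lv R X K k (m + 1) \ Lv R X K k m).card + (Lv R X K k m).card := by
        exact_mod_cast (card_sdiff_add_card_eq_card (Lv_mono (R := R) (X := X) (K := K) (k := k) m)).symm
      push_cast
      rw [h4]
      linarith
  have h2 := h1 M le_rfl
  have h3 : ((Lv R X K k M).card : ℝ) ≤ X.card := by exact_mod_cast card_le_card (Lv_sub hK M)
  have h4 : (0 : ℝ) < K.card := by exact_mod_cast hne.card_pos
  have h5 : (0 : ℝ) < X.card := by
    have : (K.card : ℝ) ≤ X.card := by exact_mod_cast card_le_card hK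
    linarith
  nlinarith

/-- **Levels lemma** -/
theorem levels (hT : AE32.Tour R) {X W K : Finset V} {v : V} {κ ρ : ℝ} (hκ : 0 < κ) (hκ1 : κ ≤ 1) (hρ : 0 < ρ)
    (hρκ : ρ ≤ κ / 8) (hW : Rch R X (κ * X.card) v W) (hv : v ∈ X) (hK : K ⊆ W) (hKρ : ρ * X.card ≤ K.card) :
    v ∈ Lv R X K (ρ * κ / 4 * X.card) (⌈8 / κ⌉₊ + 1) := by
  have hX : 0 < X.card := card_pos.2 ⟨v, hv⟩
  obtain ⟨n, hnd⟩ : ∃ n : ℝ, n = (X.card : ℝ) := ⟨_, rfl⟩
  have hn : 0 < n := by rw [hnd]; exact_mod_cast hX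
  have hWX : W ⊆ X := hW.sub
  have hne : K.Nonempty := by
    rw [← card_pos]
    have : (0 : ℝ) < K.card := lt_of_lt_of_le (by rw [← hnd]; positivity) hKρ
    exact_mod_cast this
  have hM : 1 ≤ κ / 8 * ((⌈8 / κ⌉₊ + 1 : ℕ) : ℝ) := by
    have h1 : 8 / κ ≤ (⌈8 / κ⌉₊ : ℝ) := Nat.le_ceil _
    push_cast
    have h2 : κ / 8 * (8 / κ) = 1 := by field_simp
    nlinarith
  obtain ⟨m, hm, h1⟩ := exists_small_step (R := R) (k := ρ * κ / 4 * X.card) (θ := κ / 8) (hK.trans hWX) hne hM
  refine Lv_mono' (i := m + 1) (by omega) ?_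
  rw [← hnd] at hKρ h1 hW ⊢
  by_contra hc
  set B := Lv R X K (ρ * κ / 4 * n) m with hB
  set B' := Lv R X K (ρ * κ / 4 * n) (m + 1) with hB'
  have hBX : B ⊆ X := Lv_sub (hK.trans hWX) m
  have hBB : B ⊆ B' := Lv_mono m
  have hKB : K ⊆ B := sub_Lv m
  -- vertices outside `B'` have few out-neighbours in `B`
  have hout : ∀ z ∈ X, z ∉ B' → ((nO R B z).card : ℝ) < ρ * κ / 4 * n := by
    intro z hz hz'
    by_contra h
    push Not at h
    exact hz' (mem_union_right _ (mem_filter.2 ⟨hz, h⟩))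
  set F := B.filter (fun z => κ / 2 * n ≤ ((nI R (X \ B') z).card : ℝ)) with hF
  have hFc : (F.card : ℝ) ≤ ρ / 2 * n := by
    have h1 : ∑ z ∈ F, ((nI R (X \ B') z).card : ℝ) = ∑ z ∈ X \ B', ((nO R F z).card : ℝ) := by
      exact_mod_cast (sum_nO_eq_sum_nI (X \ B') F).symm
    have h2 : (F.card : ℝ) * (κ / 2 * n) ≤ ∑ z ∈ F, ((nI R (X \ B') z).card : ℝ) := by
      rw [← nsmul_eq_mul]
      exact card_nsmul_le_sum _ _ _ (fun z hz => (mem_filter.1 hz).2)
    have h3 : ∑ z ∈ X \ B', ((nO R F z).card : ℝ) ≤ ∑ z ∈ X \ B', (ρ * κ / 4 * n) := by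
      refine sum_le_sum (fun z hz => ?_)
      rw [mem_sdiff] at hz
      have h4 := hout z hz.1 hz.2
      have h5 : ((nO R F z).card : ℝ) ≤ (nO R B z).card := by
        exact_mod_cast card_le_card (nO_mono (filter_subset _ _))
      linarith
    rw [sum_const, nsmul_eq_mul] at h3
    have h4 : ((X \ B').card : ℝ) ≤ n := by rw [hnd]; exact_mod_cast card_le_card sdiff_subset
    have h5 : (F.card : ℝ) * (κ / 2 * n) ≤ n * (ρ * κ / 4 * n) := by
      refine (h2.trans (h1.le.trans h3)).trans ?_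
      exact mul_le_mul_of_nonneg_right h4 (by positivity)
    have h6 : (F.card : ℝ) * (κ * n) ≤ (ρ / 2 * n) * (κ * n) := by nlinarith
    exact le_of_mul_le_mul_right h6 (by positivity)
  set N₁ := nO R B v with hN₁
  have hN₁c : (N₁.card : ℝ) < ρ * κ / 4 * n := hout v hv hc
  have hN₁c' : (N₁.card : ℝ) < ρ / 4 * n := by
    refine hN₁c.trans_le (mul_le_mul_of_nonneg_right ?_ hn.le)
    nlinarith
  -- the closed set
  have h2 : W ⊆ W \ (B \ (F ∪ N₁)) := by
    apply hW.sub_of_closed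
    · intro w hw
      rw [mem_sdiff]
      refine ⟨hW.nO_sub hw, fun h => ?_⟩
      rw [mem_nO] at hw
      rw [mem_sdiff, mem_union, not_or] at h
      exact h.2.2 (mem_nO.2 ⟨h.1, hw.2⟩)
    · intro z hzW hz
      have hzB : z ∈ B ∧ z ∉ F := by
        by_contra h
        apply hz
        rw [mem_sdiff]
        refine ⟨hzW, fun h' => h ?_⟩
        rw [mem_sdiff, mem_union, not_or] at h'
        exact ⟨h'.1, h'.2.1⟩
      have h2 : ((nI R (X \ B') z).card : ℝ) < κ / 2 * n := by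
        by_contra h
        push Not at h
        exact hzB.2 (mem_filter.2 ⟨hzB.1, h⟩)
      have h3 : nI R (W \ (B \ (F ∪ N₁)) ∩ W) z ⊆ nI R (X \ B') z ∪ ((B' \ B) ∪ (F ∪ N₁)) := by
        intro w hw
        rw [mem_nI, mem_inter, mem_sdiff, mem_sdiff, not_and, not_not] at hw
        rw [mem_union, mem_nI, mem_union, mem_sdiff, mem_sdiff]
        by_cases hwB' : w ∈ B'
        · right
          by_cases hwB : w ∈ B
          · exact Or.inr (hw.1.1.2 hwB)
          · exact Or.inl ⟨hwB', hwB⟩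
        · exact Or.inl ⟨⟨hWX hw.1.2, hwB'⟩, hw.2⟩
      have h4 : ((nI R (W \ (B \ (F ∪ N₁)) ∩ W) z).card : ℝ) ≤
          (nI R (X \ B') z).card + ((B' \ B).card + (F.card + N₁.card)) := by
        have h5 := card_le_card h3
        have h6 := card_union_le (nI R (X \ B') z) ((B' \ B) ∪ (F ∪ N₁))
        have h7 := card_union_le (B' \ B) (F ∪ N₁)
        have h8 := card_union_le F N₁
        exact_mod_cast (by omega : (nI R (W \ (B \ (F ∪ N₁)) ∩ W) z).card ≤
          (nI R (X \ B') z).card + ((B' \ B).card + (F.card + N₁.card)))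
      have h5 : ρ * n ≤ κ / 8 * n := mul_le_mul_of_nonneg_right hρκ hn.le
      nlinarith
  have h3 : K ⊆ F ∪ N₁ := by
    intro z hz
    by_contra h
    have h3 := h2 (hK hz)
    rw [mem_sdiff] at h3
    exact h3.2 (mem_sdiff.2 ⟨hKB hz, h⟩)
  have h4 : (K.card : ℝ) ≤ F.card + N₁.card := by
    exact_mod_cast (card_le_card h3).trans (card_union_le F N₁)
  have h5 : 0 < ρ * n := by positivity
  linarith

end AE15
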