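import Pool.Agent.AE15.Step
import Pool.Agent.AE15.Glue
import Pool.Agent.AE15.FinalOf

/-!
# Out-arborescences of bounded out-degree in tournaments
-/

namespace AE15

open Finset
open scoped Classical

theorem stages (b : ℕ) (hb : 1 ≤ b) : StagesStatement b := stages_of_step b (step b hb)

theorem main (b : ℕ) : ∃ C : ℕ, ∀ k n : ℕ, k + C ≤ n →
    ∀ R : Fin n → Fin n → Prop,
    (∀ a, ¬ R a a) → (∀ a c, a ≠ c → R a c ∨ R c a) → (∀ a c, R a c → ¬ R c a) →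
    ∀ E : Fin (k + 1) → Fin (k + 1) → Prop,
      (∀ a c, E a c → ¬ E c a) →
      (SimpleGraph.fromRel E).IsTree →
      ((∀ a c v, E a v → E c v → a = c) ∧ (∀ v, {w | E v w}.ncard ≤ b) ∨
        (∀ a c v, E v a → E v c → a = c) ∧ (∀ v, {w | E w v}.ncard ≤ b)) →
      ∃ f : Fin (k + 1) → Fin n, Function.Injective f ∧ ∀ a c, E a c → R (f a) (f c) := by
  obtain ⟨C, hC⟩ := final_both glue (b + 1) (stages (b + 1) (by omega))
  refine ⟨C, fun k n hn R h1 h2 h3 E h4 h5 h6 => hC k n hn R h1 h2 h3 E h4 h5 ?_⟩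
  rcases h6 with ⟨h6, h7⟩ | ⟨h6, h7⟩
  · exact Or.inl ⟨h6, fun v => (h7 v).trans (Nat.le_succ b)⟩
  · exact Or.inr ⟨h6, fun v => (h7 v).trans (Nat.le_succ b)⟩

end AE15
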