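import Pool.Agent.AE15.SamplingProp

/-!
# Random-like orders and pieces

`exists_order`: every large set `A` with a family of at most `|A| ^ 4` subsets has an ordering such
that every interval of the ordering meets every member of the family proportionally.
`exists_pieces`: pieces of prescribed sizes. `exists_piece`: one piece, two-sided.
-/

set_option autoImplicit false

namespace Pool.Agent.AE15

open Finset Filter Topology

universe u

lemma exists_num {V : Type u} [DecidableEq V] (C : Finset V) :
    ∃ g : V → ℕ, (∀ x ∈ C, ∀ y ∈ C, g x = g y → x = y) ∧ ∀ x ∈ C, g x < C.card := by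
  classical
  refine ⟨fun x => if h : x ∈ C then (C.equivFin ⟨x, h⟩ : ℕ) else 0, ?_, ?_⟩
  · intro x hx y hy h
    simp only [dif_pos hx, dif_pos hy] at h
    have h1 := C.equivFin.injective (Fin.ext h)
    exact congrArg Subtype.val h1
  · intro x hx
    simp only [dif_pos hx]
    exact (C.equivFin ⟨x, hx⟩).2

lemma exists_large (N : ℕ) (hN : 0 < N) (δ : ℝ) (hδ : 0 < δ) :
    ∃ n0 : ℕ, ∀ n : ℕ, n0 ≤ n → (n : ℝ) ^ 4 * N < Real.exp (δ ^ 2 * (n / N : ℕ) / 4) := by
  have hNr : (0 : ℝ) < N := by exact_mod_cast hN
  set c : ℝ := δ ^ 2 / (4 * N) with hc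
  have hcpos : 0 < c := by positivity
  set E : ℝ := Real.exp (δ ^ 2 / 4) with hE
  have hEpos : 0 < E := Real.exp_pos _
  have ht : Tendsto (fun n : ℕ => (c * (n : ℝ)) ^ 4 * Real.exp (-(c * (n : ℝ)))) atTop (𝓝 0) := by
    have h1 := Real.tendsto_pow_mul_exp_neg_atTop_nhds_zero 4
    exact h1.comp ((tendsto_natCast_atTop_atTop (R := ℝ)).const_mul_atTop hcpos)
  have hev := ht.eventually (gt_mem_nhds (show (0 : ℝ) < c ^ 4 / (N * E) by positivity))
  obtain ⟨n0, hn0⟩ := eventually_atTop.1 hev
  refine ⟨n0, fun n hn => ?_⟩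
  have h1 := hn0 n hn
  rw [lt_div_iff₀ (by positivity)] at h1
  have h2 : (n : ℝ) ^ 4 * N * E * Real.exp (-(c * n)) < 1 := by
    have h3 : (c * (n : ℝ)) ^ 4 * Real.exp (-(c * n)) * (N * E) =
        c ^ 4 * ((n : ℝ) ^ 4 * N * E * Real.exp (-(c * n))) := by ring
    rw [h3] at h1
    have h4 : (0 : ℝ) < c ^ 4 := by positivity
    nlinarith
  have h5 : (n : ℝ) ^ 4 * N * E < Real.exp (c * n) := by
    have h6 : Real.exp (-(c * n)) * Real.exp (c * n) = 1 := by
      rw [← Real.exp_add]; simp
    have h7 := mul_lt_mul_of_pos_right h2 (Real.exp_pos (c * n))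
    rw [mul_assoc, h6, mul_one, one_mul] at h7
    exact h7
  have h8 : c * n - δ ^ 2 / 4 ≤ δ ^ 2 * (n / N : ℕ) / 4 := by
    have h9 : (n : ℝ) ≤ N * (n / N : ℕ) + N := by
      have := Nat.div_add_mod n N
      have h10 := Nat.mod_lt n hN
      have h11 : n ≤ N * (n / N) + N := by omega
      exact_mod_cast h11
    have h12 : c * n ≤ c * (N * (n / N : ℕ) + N) := mul_le_mul_of_nonneg_left h9 hcpos.le
    have h13 : c * (N * (n / N : ℕ) + N) = δ ^ 2 * (n / N : ℕ) / 4 + δ ^ 2 / 4 := by
      rw [hc]
      field_simp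
    linarith
  have h14 : (n : ℝ) ^ 4 * N < Real.exp (c * n - δ ^ 2 / 4) := by
    rw [Real.exp_sub, lt_div_iff₀ hEpos]
    exact h5
  exact h14.trans_le (Real.exp_le_exp.2 h8)

/-- **Random-like order.** For every `ε > 0` and every large finite set `A` with a family `F` of at
most `|A| ^ 4` subsets there is an injective numbering of `A` by the numbers less than `|A|` such
that every interval of numbers meets every member of `F` in at least its proportional share minus
`ε |A|` elements. -/
theorem exists_order (ε : ℝ) (hε : 0 < ε) : ∃ n0 : ℕ, ∀ (V : Type u) [DecidableEq V]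
    (A : Finset V) (F : Finset (Finset V)), n0 ≤ A.card → (∀ S ∈ F, S ⊆ A) →
    F.card ≤ A.card ^ 4 → ∃ pos : V → ℕ, (∀ x ∈ A, ∀ y ∈ A, pos x = pos y → x = y) ∧
      (∀ x ∈ A, pos x < A.card) ∧ ∀ S ∈ F, ∀ a b : ℕ, a ≤ b → b ≤ A.card →
        ((b : ℝ) - a) / A.card * S.card - ε * A.card ≤
          ((S.filter (fun x => a ≤ pos x ∧ pos x < b)).card : ℝ) := by
  classical
  wlog hε1 : ε ≤ 1 generalizing ε
  · obtain ⟨n0, hn0⟩ := this 1 one_pos le_rfl
    refine ⟨n0, fun V _ A F h1 h2 h3 => ?_⟩
    obtain ⟨pos, h4, h5, h6⟩ := hn0 V A F h1 h2 h3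
    refine ⟨pos, h4, h5, fun S hS a b hab hb => ?_⟩
    have h7 := h6 S hS a b hab hb
    push Not at hε1
    have : (0 : ℝ) ≤ A.card := by positivity
    nlinarith
  obtain ⟨N, hN⟩ := exists_nat_ge (8 / ε)
  have hNpos : 0 < N := by
    have : (0 : ℝ) < N := lt_of_lt_of_le (by positivity) hN
    exact_mod_cast this
  have hNr : (0 : ℝ) < N := by exact_mod_cast hNpos
  have hN8 : 8 ≤ ε * N := by
    rw [div_le_iff₀ hε] at hN
    linarith
  obtain ⟨n1, hn1⟩ := exists_large N hNpos (ε / 8) (by positivity)
  obtain ⟨n2, hn2⟩ := exists_nat_ge (4 * N / ε)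
  refine ⟨max n1 (max n2 (N * N)), fun V _ A F hA hFA hFc => ?_⟩
  set n := A.card with hn
  set m := n / N with hm
  have hnm := Nat.div_add_mod n N
  have hmod := Nat.mod_lt n hNpos
  have hmN : N ≤ m := by
    rw [hm, Nat.le_div_iff_mul_le hNpos]
    exact ((le_max_right _ _).trans (le_max_right _ _)).trans hA
  have hm0 : 0 < m := lt_of_lt_of_le hNpos hmN
  have hbig := hn1 n ((le_max_left _ _).trans hA)
  have hn2' : 4 * (N : ℝ) ≤ ε * n := by
    have h1 : (n2 : ℝ) ≤ n := by exact_mod_cast ((le_max_left _ _).trans (le_max_right _ _)).trans hA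
    have h2 := hn2.trans h1
    rw [div_le_iff₀ hε] at h2
    linarith
  -- the main part
  obtain ⟨X, hXA, hX⟩ := Finset.exists_subset_card_eq (s := A) (n := N * m) (by
    rw [← hn, hm]; omega)
  obtain ⟨f, hf1, hf2⟩ := exists_split_prop X N m hNpos hX (F.image (fun S => S ∩ X))
    (by
      intro S' hS'
      rw [mem_image] at hS'
      obtain ⟨S, _, rfl⟩ := hS'
      exact inter_subset_right) (ε := ε / 8) (by positivity) (by linarith)
    (by
      refine lt_of_le_of_lt ?_ hbig
      apply mul_le_mul_of_nonneg_right _ hNr.le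
      have h1 : (F.image (fun S => S ∩ X)).card ≤ n ^ 4 := Finset.card_image_le.trans hFc
      exact_mod_cast h1)
  choose g hg1 hg2 using fun i : Fin N => exists_num (X.filter (fun x => f x = i))
  obtain ⟨gY, hY1, hY2⟩ := exists_num (A \ X)
  have hYc : (A \ X).card = n - N * m := by
    rw [card_sdiff_of_subset hXA, hX]
  let pos : V → ℕ := fun x => if x ∈ X then (f x : ℕ) * m + g (f x) x else N * m + gY x
  have hgm : ∀ x ∈ X, g (f x) x < m := by
    intro x hx
    have := hg2 (f x) x (by simp [hx])
    rwa [hf1] at this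
  have hposX : ∀ x ∈ X, pos x = (f x : ℕ) * m + g (f x) x := fun x hx => by
    simp only [pos, if_pos hx]
  have hposY : ∀ x, x ∉ X → pos x = N * m + gY x := fun x hx => by
    simp only [pos, if_neg hx]
  have hposXlt : ∀ x ∈ X, pos x < N * m := by
    intro x hx
    rw [hposX x hx]
    have h1 := hgm x hx
    have h2 : (f x : ℕ) + 1 ≤ N := (f x).2
    calc (f x : ℕ) * m + g (f x) x < (f x : ℕ) * m + m := by omega
      _ = ((f x : ℕ) + 1) * m := by ring
      _ ≤ N * m := Nat.mul_le_mul_right m h2
  refine ⟨pos, ?_, ?_, ?_⟩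
  · intro x hx y hy hxy
    by_cases hxX : x ∈ X
    · by_cases hyX : y ∈ X
      · rw [hposX x hxX, hposX y hyX] at hxy
        have h1 := hgm x hxX
        have h2 := hgm y hyX
        have h3 : (f x : ℕ) = f y := by
          have e1 : ((f x : ℕ) * m + g (f x) x) / m = f x := by
            rw [add_comm, Nat.add_mul_div_right _ _ hm0, Nat.div_eq_of_lt h1, zero_add]
          have e2 : ((f y : ℕ) * m + g (f y) y) / m = f y := by
            rw [add_comm, Nat.add_mul_div_right _ _ hm0, Nat.div_eq_of_lt h2, zero_add]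
          rw [← e1, ← e2, hxy]
        have h4 : f x = f y := Fin.ext h3
        rw [h4] at hxy
        exact hg1 (f y) x (by simp [hxX, h4]) y (by simp [hyX]) (by omega)
      · have h1 := hposXlt x hxX
        rw [hxy, hposY y hyX] at h1
        omega
    · by_cases hyX : y ∈ X
      · have h1 := hposXlt y hyX
        rw [← hxy, hposY x hxX] at h1
        omega
      · rw [hposY x hxX, hposY y hyX] at hxy
        exact hY1 x (by simp [hx, hxX]) y (by simp [hy, hyX]) (by omega)
  · intro x hx
    by_cases hxX : x ∈ X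
    · have h1 := hposXlt x hxX
      have h2 : N * m ≤ n := by rw [hm]; omega
      omega
    · rw [hposY x hxX]
      have h1 := hY2 x (by simp [hx, hxX])
      rw [hYc] at h1
      have h2 : N * m ≤ n := by rw [hm]; omega
      omega
  · intro S hS a b hab hb
    have hnpos : (0 : ℝ) < n := by
      have : (0 : ℝ) < 4 * N := by positivity
      have h1 := this.trans_le hn2'
      by_contra hcon
      push Not at hcon
      nlinarith
    have hSA := hFA S hS
    have hmr : (0 : ℝ) < m := by exact_mod_cast hm0
    -- basic sizes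
    have hNm : (N : ℝ) * m ≤ n := by
      have : N * m ≤ n := by rw [hm]; omega
      exact_mod_cast this
    have hNm2 : (n : ℝ) ≤ N * m + N := by
      have : n ≤ N * m + N := by rw [hm]; omega
      exact_mod_cast this
    set SX := S ∩ X with hSX
    have hS1 : (S.card : ℝ) ≤ SX.card + N := by
      have h1 : S.card ≤ SX.card + (A \ X).card := by
        have h2 : S ⊆ SX ∪ (A \ X) := by
          intro x hx
          by_cases h : x ∈ X
          · simp [hSX, hx, h]
          · simp [hSA hx, h]
        exact (card_le_card h2).trans (card_union_le _ _)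
      have h3 : (A \ X).card ≤ N := by
        rw [hYc, hm]
        omega
      exact_mod_cast h1.trans (Nat.add_le_add_left h3 _)
    have hS2 : (S.card : ℝ) ≤ n := by exact_mod_cast card_le_card hSA
    have hSXc : (SX.card : ℝ) ≤ N * m := by
      have h1 : SX.card ≤ X.card := card_le_card inter_subset_right
      rw [hX] at h1
      exact_mod_cast h1
    have hcl := hf2 SX (mem_image_of_mem _ hS)
    set T : ℝ := (SX.card : ℝ) / N - ε / 8 * m with hT
    have hTm : T ≤ m := by
      have : (SX.card : ℝ) / N ≤ m := by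
        rw [div_le_iff₀ hNr]; linarith
      have : 0 ≤ ε / 8 * m := by positivity
      linarith
    have hfrac0 : (0 : ℝ) ≤ ((b : ℝ) - a) / n := by
      apply div_nonneg _ hnpos.le
      have : (a : ℝ) ≤ b := by exact_mod_cast hab
      linarith
    have hfrac1 : ((b : ℝ) - a) / n ≤ 1 := by
      rw [div_le_one hnpos]
      have h1 : (b : ℝ) ≤ n := by exact_mod_cast hb
      have h2 : (0 : ℝ) ≤ a := by positivity
      linarith
    by_cases hT0 : T ≤ 0
    · -- small sets
      have h1 : (SX.card : ℝ) ≤ ε / 8 * n := by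
        have h2 : (SX.card : ℝ) / N ≤ ε / 8 * m := by linarith
        rw [div_le_iff₀ hNr] at h2
        nlinarith
      have h3 : ((b : ℝ) - a) / n * S.card ≤ S.card := by
        have : (0 : ℝ) ≤ S.card := by positivity
        nlinarith
      have h4 : (0 : ℝ) ≤ ((S.filter (fun x => a ≤ pos x ∧ pos x < b)).card : ℝ) := by positivity
      nlinarith
    · push Not at hT0
      -- full classes inside the interval
      let u := (a + m - 1) / m
      let v := b / m
      have hvN : v ≤ N := by
        have h1 : b < (N + 1) * m := by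
          have h2 : n < (N + 1) * m := by
            have : n < N * m + N := by rw [hm]; omega
            calc n < N * m + N := this
              _ ≤ N * m + m := by omega
              _ = (N + 1) * m := by ring
          omega
        have h3 : b / m < N + 1 := (Nat.div_lt_iff_lt_mul hm0).2 h1
        show b / m ≤ N
        omega
      have hu : a ≤ u * m := by
        show a ≤ (a + m - 1) / m * m
        have h1 := Nat.div_add_mod (a + m - 1) m
        have h2 := Nat.mod_lt (a + m - 1) hm0
        have h3 : m * ((a + m - 1) / m) = (a + m - 1) / m * m := mul_comm _ _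
        omega
      have hu2 : u * m ≤ a + m - 1 := Nat.div_mul_le_self _ _
      have hv : v * m ≤ b := Nat.div_mul_le_self _ _
      have hv2 : b < v * m + m := by
        have h1 := Nat.div_add_mod b m
        have h2 := Nat.mod_lt b hm0
        have h3 : m * (b / m) = b / m * m := mul_comm _ _
        show b < b / m * m + m
        omega
      have hsub : (Finset.univ.filter (fun i : Fin N => u ≤ (i : ℕ) ∧ (i : ℕ) < v)).biUnion
          (fun i => SX.filter (fun x => f x = i)) ⊆
          S.filter (fun x => a ≤ pos x ∧ pos x < b) := by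
        intro x hx
        rw [mem_biUnion] at hx
        obtain ⟨i, hi, hx⟩ := hx
        rw [mem_filter] at hi hx
        obtain ⟨hxS, rfl⟩ := hx
        obtain ⟨_, hi1, hi2⟩ := hi
        rw [hSX, mem_inter] at hxS
        rw [mem_filter]
        refine ⟨hxS.1, ?_, ?_⟩
        · rw [hposX x hxS.2]
          have : u * m ≤ (f x : ℕ) * m := Nat.mul_le_mul_right m hi1
          omega
        · rw [hposX x hxS.2]
          have h1 := hgm x hxS.2
          have h2 : ((f x : ℕ) + 1) * m ≤ v * m := Nat.mul_le_mul_right m hi2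
          have h3 : ((f x : ℕ) + 1) * m = (f x : ℕ) * m + m := by ring
          omega
      have hcard := card_le_card hsub
      rw [card_biUnion] at hcard
      · have hnum : ((v : ℝ) - u) ≤
            ((Finset.univ.filter (fun i : Fin N => u ≤ (i : ℕ) ∧ (i : ℕ) < v)).card : ℝ) := by
          have h1 : (Finset.univ.filter (fun i : Fin N => u ≤ (i : ℕ) ∧ (i : ℕ) < v)).card =
              (Finset.Ico u v).card := by
            refine Finset.card_bij (fun i _ => (i : ℕ)) ?_ ?_ ?_
            · intro i hi
              rw [mem_filter] at hi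
              exact Finset.mem_Ico.2 hi.2
            · intro i _ j _ h
              exact Fin.ext h
            · intro j hj
              rw [Finset.mem_Ico] at hj
              exact ⟨⟨j, by omega⟩, by simp [hj], rfl⟩
          rw [h1, Nat.card_Ico]
          rcases le_total u v with h | h
          · rw [Nat.cast_sub h]
          · rw [Nat.sub_eq_zero_of_le h]
            have : (v : ℝ) ≤ u := by exact_mod_cast h
            push_cast
            linarith
        have h2 : ((Finset.univ.filter (fun i : Fin N => u ≤ (i : ℕ) ∧ (i : ℕ) < v)).card : ℝ) * T ≤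
            ((S.filter (fun x => a ≤ pos x ∧ pos x < b)).card : ℝ) := by
          calc ((Finset.univ.filter (fun i : Fin N => u ≤ (i : ℕ) ∧ (i : ℕ) < v)).card : ℝ) * T
              = ∑ i ∈ Finset.univ.filter (fun i : Fin N => u ≤ (i : ℕ) ∧ (i : ℕ) < v), T := by
                rw [Finset.sum_const, nsmul_eq_mul]
            _ ≤ ∑ i ∈ Finset.univ.filter (fun i : Fin N => u ≤ (i : ℕ) ∧ (i : ℕ) < v),
                ((SX.filter (fun x => f x = i)).card : ℝ) :=
                Finset.sum_le_sum (fun i _ => hcl i)
            _ ≤ _ := by exact_mod_cast hcard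
        -- (v - u) ≥ (b - a)/m - 2
        have h3 : ((b : ℝ) - a) / m - 2 ≤ (v : ℝ) - u := by
          have h4 : (b : ℝ) < v * m + m := by exact_mod_cast hv2
          have h5 : (u : ℝ) * m ≤ a + m := by
            have : u * m ≤ a + m := by omega
            exact_mod_cast this
          rw [sub_le_iff_le_add, div_le_iff₀ hmr]
          nlinarith
        have h6 : (((b : ℝ) - a) / m - 2) * T ≤
            ((S.filter (fun x => a ≤ pos x ∧ pos x < b)).card : ℝ) :=
          (mul_le_mul_of_nonneg_right (h3.trans hnum) hT0.le).trans h2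
        refine le_trans ?_ h6
        -- arithmetic
        have h7 : ((b : ℝ) - a) / m * T ≥ ((b : ℝ) - a) / n * (S.card - N) - ε / 8 * n := by
          have h8 : ((b : ℝ) - a) / m * T =
              ((b : ℝ) - a) / (N * m) * SX.card - ε / 8 * ((b : ℝ) - a) := by
            rw [hT]
            field_simp
          have hba : (0 : ℝ) ≤ (b : ℝ) - a := by
            have : (a : ℝ) ≤ b := by exact_mod_cast hab
            linarith
          have h9 : ((b : ℝ) - a) / n ≤ ((b : ℝ) - a) / (N * m) :=
            div_le_div_of_nonneg_left hba (by positivity) hNm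
          have h10 : ((b : ℝ) - a) / n * (S.card - N) ≤ ((b : ℝ) - a) / n * SX.card :=
            mul_le_mul_of_nonneg_left (by linarith) hfrac0
          have h11 : ((b : ℝ) - a) / n * SX.card ≤ ((b : ℝ) - a) / (N * m) * SX.card :=
            mul_le_mul_of_nonneg_right h9 (by positivity)
          have h12 : ε / 8 * ((b : ℝ) - a) ≤ ε / 8 * n := by
            apply mul_le_mul_of_nonneg_left _ (by positivity)
            have h1 : (b : ℝ) ≤ n := by exact_mod_cast hb
            have h2 : (0 : ℝ) ≤ a := by positivity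
            linarith
          rw [h8]
          linarith
        have h13 : 2 * T ≤ ε / 4 * n := by
          have h14 : 8 * (m : ℝ) ≤ ε * n := by
            have : ε * (N * m) ≤ ε * n := mul_le_mul_of_nonneg_left hNm hε.le
            nlinarith
          linarith
        have h15 : ((b : ℝ) - a) / n * N ≤ N := by nlinarith
        nlinarith
      · intro i _ j _ hij
        rw [Function.onFun, Finset.disjoint_left]
        intro x hx hx'
        rw [mem_filter] at hx hx'
        exact hij (hx.2.symm.trans hx'.2)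

lemma card_interval {V : Type u} [DecidableEq V] (A : Finset V) (pos : V → ℕ)
    (h1 : ∀ x ∈ A, ∀ y ∈ A, pos x = pos y → x = y) (h2 : ∀ x ∈ A, pos x < A.card) (a b : ℕ)
    (hb : b ≤ A.card) : (A.filter (fun x => a ≤ pos x ∧ pos x < b)).card = b - a := by
  have him : A.image pos = Finset.range A.card := by
    apply Finset.eq_of_subset_of_card_le
    · intro i hi
      rw [mem_image] at hi
      obtain ⟨x, hx, rfl⟩ := hi
      exact Finset.mem_range.2 (h2 x hx)
    · rw [Finset.card_range, Finset.card_image_of_injOn]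
      intro x hx y hy h
      exact h1 x hx y hy h
  rw [← Nat.card_Ico a b]
  refine Finset.card_bij (fun x _ => pos x) ?_ ?_ ?_
  · intro x hx
    rw [mem_filter] at hx
    exact Finset.mem_Ico.2 hx.2
  · intro x hx y hy h
    rw [mem_filter] at hx hy
    exact h1 x hx.1 y hy.1 h
  · intro i hi
    rw [Finset.mem_Ico] at hi
    have h3 : i ∈ A.image pos := by
      rw [him, Finset.mem_range]
      omega
    rw [mem_image] at h3
    obtain ⟨x, hx, rfl⟩ := h3
    exact ⟨x, by simp [hx, hi], rfl⟩

/-- **Random-like pieces.** For every `ε > 0` and every large finite set `A` with a family `F` of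
at most `|A| ^ 4` subsets, and all sizes `p j` with sum at most `|A|`, there are pairwise disjoint
subsets `P j` of `A` of size exactly `p j` that meet every member of `F` in at least the
proportional share minus `ε |A|` elements. -/
theorem exists_pieces (ε : ℝ) (hε : 0 < ε) : ∃ n0 : ℕ, ∀ (V : Type u) [DecidableEq V]
    (A : Finset V) (F : Finset (Finset V)), n0 ≤ A.card → (∀ S ∈ F, S ⊆ A) →
    F.card ≤ A.card ^ 4 → ∀ (k : ℕ) (p : Fin k → ℕ), ∑ j, p j ≤ A.card →
    ∃ P : Fin k → Finset V, (∀ j, P j ⊆ A) ∧ (∀ j, (P j).card = p j) ∧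
      (∀ i j, i ≠ j → Disjoint (P i) (P j)) ∧
      ∀ S ∈ F, ∀ j, (p j : ℝ) / A.card * S.card - ε * A.card ≤ ((S ∩ P j).card : ℝ) := by
  obtain ⟨n0, hn0⟩ := exists_order.{u} ε hε
  refine ⟨n0, fun V _ A F hA hFA hFc k p hp => ?_⟩
  obtain ⟨pos, h1, h2, h3⟩ := hn0 V A F hA hFA hFc
  let σ : ℕ → ℕ := fun j => ∑ i ∈ Finset.univ.filter (fun i : Fin k => (i : ℕ) < j), p i
  have hσ : ∀ j : Fin k, σ (j + 1) = σ j + p j := by
    intro j
    have h4 : Finset.univ.filter (fun i : Fin k => (i : ℕ) < (j : ℕ) + 1) =
        insert j (Finset.univ.filter (fun i : Fin k => (i : ℕ) < j)) := by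
      ext i
      simp only [mem_filter, mem_univ, true_and, mem_insert]
      rw [Nat.lt_succ_iff, le_iff_eq_or_lt, Fin.ext_iff]
    show ∑ i ∈ Finset.univ.filter (fun i : Fin k => (i : ℕ) < (j : ℕ) + 1), p i = _
    rw [h4, Finset.sum_insert (by simp), add_comm]
  have hmono : ∀ i j : ℕ, i ≤ j → σ i ≤ σ j := by
    intro i j hij
    apply Finset.sum_le_sum_of_subset
    intro l hl
    rw [mem_filter] at hl ⊢
    exact ⟨mem_univ _, hl.2.trans_le hij⟩
  have hle : ∀ j : ℕ, σ j ≤ A.card := by
    intro j
    refine le_trans ?_ hp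
    exact Finset.sum_le_sum_of_subset (Finset.filter_subset _ _)
  refine ⟨fun j => A.filter (fun x => σ j ≤ pos x ∧ pos x < σ (j + 1)), ?_, ?_, ?_, ?_⟩
  · intro j
    exact filter_subset _ _
  · intro j
    rw [card_interval A pos h1 h2 _ _ (hle _), hσ j]
    omega
  · intro i j hij
    rw [Finset.disjoint_left]
    intro x hx hx'
    rw [mem_filter] at hx hx'
    rcases lt_or_gt_of_ne hij with h | h
    · have h4 := hmono ((i : ℕ) + 1) j h
      omega
    · have h4 := hmono ((j : ℕ) + 1) i h
      omega
  · intro S hS j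
    have h4 := h3 S hS (σ j) (σ (j + 1)) (hmono _ _ (Nat.le_succ _)) (hle _)
    have h5 : S ∩ A.filter (fun x => σ j ≤ pos x ∧ pos x < σ (j + 1)) =
        S.filter (fun x => σ j ≤ pos x ∧ pos x < σ (j + 1)) := by
      ext x
      simp only [mem_inter, mem_filter]
      constructor
      · rintro ⟨h6, _, h7⟩
        exact ⟨h6, h7⟩
      · rintro ⟨h6, h7⟩
        exact ⟨h6, hFA S hS h6, h7⟩
    rw [h5]
    refine le_trans (le_of_eq ?_) h4
    rw [hσ j]
    push_cast
    ring

/-- **One random-like piece, two-sided.** -/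
theorem exists_piece (ε : ℝ) (hε : 0 < ε) : ∃ n0 : ℕ, ∀ (V : Type u) [DecidableEq V]
    (A : Finset V) (F : Finset (Finset V)), n0 ≤ A.card → (∀ S ∈ F, S ⊆ A) →
    F.card ≤ A.card ^ 4 → ∀ s : ℕ, s ≤ A.card →
    ∃ P ⊆ A, P.card = s ∧
      ∀ S ∈ F, (s : ℝ) / A.card * S.card - ε * A.card ≤ ((S ∩ P).card : ℝ) ∧
        (1 - (s : ℝ) / A.card) * S.card - ε * A.card ≤ ((S \ P).card : ℝ) := by
  obtain ⟨n0, hn0⟩ := exists_order.{u} ε hε
  refine ⟨max n0 1, fun V _ A F hA hFA hFc s hs => ?_⟩
  obtain ⟨pos, h1, h2, h3⟩ := hn0 V A F ((le_max_left _ _).trans hA) hFA hFc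
  have hApos : (0 : ℝ) < A.card := by
    have : 1 ≤ A.card := (le_max_right _ _).trans hA
    exact_mod_cast this
  refine ⟨A.filter (fun x => 0 ≤ pos x ∧ pos x < s), filter_subset _ _, ?_, ?_⟩
  · rw [card_interval A pos h1 h2 _ _ hs, Nat.sub_zero]
  · intro S hS
    constructor
    · have h4 := h3 S hS 0 s (Nat.zero_le _) hs
      have h5 : S ∩ A.filter (fun x => 0 ≤ pos x ∧ pos x < s) =
          S.filter (fun x => 0 ≤ pos x ∧ pos x < s) := by
        ext x
        simp only [mem_inter, mem_filter]
        constructor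
        · rintro ⟨h6, _, h7⟩
          exact ⟨h6, h7⟩
        · rintro ⟨h6, h7⟩
          exact ⟨h6, hFA S hS h6, h7⟩
      rw [h5]
      refine le_trans (le_of_eq ?_) h4
      push_cast
      ring
    · have h4 := h3 S hS s A.card hs le_rfl
      have h5 : S \ A.filter (fun x => 0 ≤ pos x ∧ pos x < s) =
          S.filter (fun x => s ≤ pos x ∧ pos x < A.card) := by
        ext x
        simp only [Finset.mem_sdiff, Finset.mem_filter]
        constructor
        · rintro ⟨h6, h7⟩
          refine ⟨h6, ?_, h2 x (hFA S hS h6)⟩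
          by_contra hcon
          exact h7 ⟨hFA S hS h6, Nat.zero_le _, by omega⟩
        · rintro ⟨h6, h7, _⟩
          exact ⟨h6, fun h8 => by omega⟩
      rw [h5]
      refine le_trans (le_of_eq ?_) h4
      field_simp

end Pool.Agent.AE15
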