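import Pool.Agent.AE15.Defs

/-!
# Placing the top parts of the subtrees through the levels
-/

namespace AE15

open Finset
open scoped Classical

variable {V : Type*} {R : V → V → Prop}

private theorem placing_Lv_sub {X K : Finset V} {k : ℝ} (hK : K ⊆ X) (i : ℕ) : Lv R X K k i ⊆ X := by
  cases i with
  | zero => exact hK
  | succ i => exact union_subset hK (filter_subset _ _)

private theorem placing_len (F : Fo) : F.trees.length = F.len := by
  induction F with
  | nil => rfl
  | node c s _ ihs => simp [Fo.trees, Fo.len, ihs]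

/-- pending everything at a vertex of `K` -/
private theorem placing_base {X K : Finset V} {b : ℕ} (hb : 1 ≤ b) (i : ℕ) (z : V) (c : Fo) (A : Finset V)
    (hz : z ∈ K) (hc : c.len ≤ b) :
    ∃ Z L, PE R c (R z) Z L ∧ Z ⊆ X ∧ Disjoint Z A ∧ Z.card ≤ cnt b i ∧ L.length ≤ b ^ (i + 1) ∧
      ∀ p ∈ L, ∃ y ∈ K, (y ∈ Z ∨ y = z) ∧ p.1 = R y := by
  refine ⟨∅, c.trees.map (fun c => (R z, c)), PE.pendall (R z) c, empty_subset _, disjoint_empty_left _,
    by simp, ?_, ?_⟩
  · rw [List.length_map, placing_len]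
    calc c.len ≤ b := hc
      _ = b ^ 1 := (pow_one b).symm
      _ ≤ b ^ (i + 1) := Nat.pow_le_pow_right hb (by omega)
  · intro p hp
    rw [List.mem_map] at hp
    obtain ⟨d, _, rfl⟩ := hp
    exact ⟨z, hz, Or.inr rfl, rfl⟩

/-- **Placing lemma** -/
theorem placing {X K : Finset V} {k : ℝ} {b : ℕ} (hb : 1 ≤ b) (hK : K ⊆ X) (i : ℕ) (z : V) (c : Fo) (A : Finset V)
    (hz : z ∈ Lv R X K k i) (hzA : z ∈ A) (hc : c.len ≤ b) (hcb : c.Deg b) (hA : (A.card : ℝ) + cnt b i ≤ k) :
    ∃ Z L, PE R c (R z) Z L ∧ Z ⊆ X ∧ Disjoint Z A ∧ Z.card ≤ cnt b i ∧ L.length ≤ b ^ (i + 1) ∧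
      ∀ p ∈ L, ∃ y ∈ K, (y ∈ Z ∨ y = z) ∧ p.1 = R y := by
  induction i generalizing z c A with
  | zero => exact placing_base hb 0 z c A hz hc
  | succ i ih =>
    by_cases hzK : z ∈ K
    · exact placing_base hb (i + 1) z c A hzK hc
    have hk : k ≤ ((nO R (Lv R X K k i) z).card : ℝ) := by
      rw [Lv, mem_union, mem_filter] at hz
      rcases hz with h | h
      · exact absurd h hzK
      · exact h.2
    have inner : ∀ s : Fo, s.Deg b → ∀ A : Finset V, z ∈ A →
        (A.card : ℝ) + (s.len * (cnt b i + 1) : ℕ) ≤ k →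
        ∃ Z L, PE R s (R z) Z L ∧ Z ⊆ X ∧ Disjoint Z A ∧ Z.card ≤ s.len * (cnt b i + 1) ∧
          L.length ≤ s.len * b ^ (i + 1) ∧ ∀ p ∈ L, ∃ y ∈ K, (y ∈ Z ∨ y = z) ∧ p.1 = R y := by
      intro s
      induction s with
      | nil =>
        intro _ A _ _
        exact ⟨∅, [], PE.nil _, empty_subset _, disjoint_empty_left _, by simp, by simp, by simp⟩
      | node c s _ ihs =>
        intro hD A hzA hA
        obtain ⟨hcl, hcD, hsD⟩ := hD
        have hlen : (Fo.node c s).len = s.len + 1 := rfl
        rw [hlen] at hA ⊢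
        have hmul : (s.len + 1) * (cnt b i + 1) = s.len * (cnt b i + 1) + cnt b i + 1 := by ring
        rw [hmul] at hA ⊢
        push_cast at hA
        -- choose the vertex
        have hex : ∃ w ∈ nO R (Lv R X K k i) z, w ∉ A := by
          by_contra hcon
          push Not at hcon
          have h1 : (nO R (Lv R X K k i) z) ⊆ A := hcon
          have h2 : ((nO R (Lv R X K k i) z).card : ℝ) ≤ A.card := by exact_mod_cast card_le_card h1
          have h3 : (0 : ℝ) ≤ s.len * (cnt b i + 1) := by positivity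
          have h4 : (0 : ℝ) ≤ cnt b i := by positivity
          linarith
        obtain ⟨w, hw, hwA⟩ := hex
        rw [mem_nO] at hw
        obtain ⟨hwL, hzw⟩ := hw
        have hins : (insert w A).card = A.card + 1 := card_insert_of_notMem hwA
        obtain ⟨Z₁, L₁, hP₁, hZX₁, hd₁, hc₁, hl₁, hy₁⟩ := ih w c (insert w A) hwL (mem_insert_self _ _) hcl hcD (by
          rw [hins]
          push_cast
          have h3 : (0 : ℝ) ≤ s.len * (cnt b i + 1) := by positivity
          linarith)
        rw [disjoint_insert_right] at hd₁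
        have hcardA : (A ∪ insert w Z₁).card ≤ A.card + 1 + cnt b i := by
          refine (card_union_le _ _).trans ?_
          have := card_insert_le w Z₁
          omega
        obtain ⟨Z₂, L₂, hP₂, hZX₂, hd₂, hc₂, hl₂, hy₂⟩ := ihs hsD (A ∪ insert w Z₁) (mem_union_left _ hzA) (by
          have h3 : ((A ∪ insert w Z₁).card : ℝ) ≤ A.card + 1 + cnt b i := by exact_mod_cast hcardA
          push_cast
          linarith)
        rw [disjoint_union_right, disjoint_insert_right] at hd₂
        refine ⟨insert w (Z₁ ∪ Z₂), L₁ ++ L₂, PE.place c s (R z) w Z₁ Z₂ L₁ L₂ hzw hd₁.1 hd₂.2.1 hd₂.2.2.symm hP₁ hP₂,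
          ?_, ?_, ?_, ?_, ?_⟩
        · exact insert_subset (placing_Lv_sub hK i hwL) (union_subset hZX₁ hZX₂)
        · rw [disjoint_insert_left, disjoint_union_left]
          exact ⟨hwA, hd₁.2, hd₂.1⟩
        · have h5 := card_insert_le w (Z₁ ∪ Z₂)
          have h6 := card_union_le Z₁ Z₂
          omega
        · rw [List.length_append]
          have h7 : (s.len + 1) * b ^ (i + 1) = s.len * b ^ (i + 1) + b ^ (i + 1) := by ring
          rw [h7]
          omega
        · intro p hp
          rw [List.mem_append] at hp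
          rcases hp with hp | hp
          · obtain ⟨y, hyK, hy, hpy⟩ := hy₁ p hp
            refine ⟨y, hyK, Or.inl ?_, hpy⟩
            rcases hy with hy | rfl
            · exact mem_insert_of_mem (mem_union_left _ hy)
            · exact mem_insert_self _ _
          · obtain ⟨y, hyK, hy, hpy⟩ := hy₂ p hp
            refine ⟨y, hyK, ?_, hpy⟩
            rcases hy with hy | hy
            · exact Or.inl (mem_insert_of_mem (mem_union_right _ hy))
            · exact Or.inr hy
    have hle : c.len * (cnt b i + 1) ≤ cnt b (i + 1) := Nat.mul_le_mul_right _ hc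
    obtain ⟨Z, L, h1, h2, h3, h4, h5, h6⟩ := inner c hcb A hzA (by
      have h7 : ((c.len * (cnt b i + 1) : ℕ) : ℝ) ≤ (cnt b (i + 1) : ℕ) := by exact_mod_cast hle
      linarith)
    refine ⟨Z, L, h1, h2, h3, h4.trans hle, h5.trans ?_, h6⟩
    rw [pow_succ b (i + 1), mul_comm (b ^ (i + 1)) b]
    exact Nat.mul_le_mul_right _ hc

end AE15
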