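import Pool.Agent.AE15.Defs

/-!
# Robust reach
-/

namespace AE15

open Finset
open scoped Classical

variable {V : Type*} {R : V → V → Prop}

theorem Rch.sub {X W : Finset V} {k : ℝ} {v : V} (h : Rch R X k v W) : W ⊆ X := by
  induction h with
  | base => exact AE15.nO_sub
  | step W z _ hz _ _ ih => exact insert_subset hz ih

theorem Rch.nO_sub {X W : Finset V} {k : ℝ} {v : V} (h : Rch R X k v W) : nO R X v ⊆ W := by
  induction h with
  | base => exact Subset.refl _
  | step W z _ _ _ _ ih => exact ih.trans (subset_insert _ _)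

/-- a set which contains the out-neighbours of `v` and is closed relatively to `W` contains `W` -/
theorem Rch.sub_of_closed {X : Finset V} {k : ℝ} {v : V} {W : Finset V} (h : Rch R X k v W) {Q : Finset V}
    (hQ : nO R X v ⊆ Q) (hc : ∀ z ∈ W, z ∉ Q → ((nI R (Q ∩ W) z).card : ℝ) < k) : W ⊆ Q := by
  have key : ∀ W', Rch R X k v W' → W' ⊆ W → W' ⊆ Q := by
    intro W' h'
    induction h' with
    | base => intro _; exact hQ
    | step W₁ z h1 hz hzW hk ih =>
      intro hW'
      have h2 : W₁ ⊆ W := (subset_insert _ _).trans hW'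
      have h3 := ih h2
      refine insert_subset ?_ h3
      by_contra hzQ
      have h4 := hc z (hW' (mem_insert_self _ _)) hzQ
      have h5 : ((nI R W₁ z).card : ℝ) ≤ (nI R (Q ∩ W) z).card := by
        exact_mod_cast card_le_card (nI_mono (subset_inter h3 h2))
      linarith
  exact key W h (Subset.refl _)

/-- good vertices have a large robustly reached set -/
theorem Good.rch {κ η : ℝ} {X : Finset V} {v : V} (h : Good R κ η X v) :
    ∃ W, Rch R X (κ * X.card) v W ∧ ((X \ W).card : ℝ) ≤ η * X.card := by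
  obtain ⟨W, hW, hmax⟩ := exists_max_image (X.powerset.filter (fun W => Rch R X (κ * X.card) v W)) (fun W => W.card)
    ⟨nO R X v, by simp only [mem_filter, mem_powerset]; exact ⟨AE15.nO_sub, Rch.base⟩⟩
  simp only [mem_filter, mem_powerset] at hW hmax
  refine ⟨W, hW.2, h W hW.1 hW.2.nO_sub ?_⟩
  intro z hz hzW
  by_contra hc
  push Not at hc
  have h1 := hmax (insert z W) ⟨insert_subset hz hW.1, hW.2.step _ _ hz hzW hc⟩
  rw [card_insert_of_notMem hzW] at h1
  omega

/-- good vertices have large out-degree -/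
theorem Good.deg {κ η : ℝ} {X : Finset V} {v : V} (h : Good R κ η X v) (hκ : κ ≤ 1 - η) :
    κ * X.card ≤ ((nO R X v).card : ℝ) := by
  by_contra hc
  push Not at hc
  have h1 := h (nO R X v) AE15.nO_sub (Subset.refl _) ?_
  · have h2 : (X.card : ℝ) = (X \ nO R X v).card + (nO R X v).card := by
      exact_mod_cast (card_sdiff_add_card_eq_card AE15.nO_sub).symm
    have h3 : (0 : ℝ) ≤ X.card := by positivity
    nlinarith
  · intro z _ _
    have h2 : ((nI R (nO R X v) z).card : ℝ) ≤ (nO R X v).card := by exact_mod_cast card_le_card nI_sub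
    linarith

theorem nO_inter {X P : Finset V} (hP : P ⊆ X) {v : V} : nO R P v = nO R X v ∩ P := by
  ext u
  rw [mem_inter, mem_nO, mem_nO]
  constructor
  · rintro ⟨h1, h2⟩; exact ⟨⟨hP h1, h2⟩, h1⟩
  · rintro ⟨⟨_, h1⟩, h2⟩; exact ⟨h2, h1⟩

theorem nI_inter {X P : Finset V} {v : V} : nI R (X ∩ P) v = nI R X v ∩ P := by
  ext u
  simp only [mem_inter, mem_nI]
  tauto

/-- the family of in-neighbourhoods used by a robustly reached set -/
theorem Rch.family {X W : Finset V} {k : ℝ} {v : V} (h : Rch R X k v W) :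
    ∃ 𝓕 : Finset (Finset V), 𝓕.card ≤ W.card ∧ (∀ F ∈ 𝓕, F ⊆ X ∧ k ≤ (F.card : ℝ)) ∧
      ∀ (P C : Finset V) (k' : ℝ), P ⊆ X → (∀ F ∈ 𝓕, k' ≤ ((F ∩ P).card : ℝ)) → nO R P v ⊆ C →
        (∀ z ∈ P, z ∉ C → ((nI R C z).card : ℝ) < k') → W ∩ P ⊆ C := by
  induction h with
  | base =>
    refine ⟨∅, by simp, by simp, fun P C k' hP _ hC _ => ?_⟩
    rw [← nO_inter hP]
    exact hC
  | step W z h1 hz hzW hk ih =>
    obtain ⟨FF, h2, h3, h4⟩ := ih
    refine ⟨insert (nI R W z) FF, ?_, ?_, ?_⟩
    · rw [card_insert_of_notMem hzW]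
      exact (card_insert_le _ _).trans (by omega)
    · intro F hF
      rw [mem_insert] at hF
      rcases hF with rfl | hF
      · exact ⟨nI_sub.trans h1.sub, hk⟩
      · exact h3 F hF
    · intro P C k' hP hk' hC hcl
      have h5 := h4 P C k' hP (fun F hF => hk' F (mem_insert_of_mem hF)) hC hcl
      intro u hu
      rw [mem_inter, mem_insert] at hu
      rcases hu.1 with rfl | hu'
      · by_contra huC
        have h6 := hcl u hu.2 huC
        have h7 := hk' _ (mem_insert_self _ _)
        have h8 : nI R W u ∩ P ⊆ nI R C u := by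
          intro w hw
          rw [mem_inter, mem_nI] at hw
          exact mem_nI.2 ⟨h5 (mem_inter.2 ⟨hw.1.1, hw.2⟩), hw.1.2⟩
        have h9 : ((nI R W u ∩ P).card : ℝ) ≤ (nI R C u).card := by exact_mod_cast card_le_card h8
        linarith
      · exact h5 (mem_inter.2 ⟨hu', hu.2⟩)

end AE15
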