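import Mathlib

/-!
# Sampling lemma for the MP_ae3412 proof

`exists_split`: a set of size `N * m` is the disjoint union of `N` classes of size exactly `m` such
that every member of a given small family of large subsets meets every class in many elements.
-/

set_option autoImplicit false

namespace Pool.Agent.AE15

open Finset

section core

variable {m N : ℕ} [NeZero N]

/-- The weight of a shift in one block. -/
noncomputable def wgt (S : Finset (Fin m × Fin N)) (i : Fin N) (B : Fin m) (σ : Fin N) : ℝ :=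
  if (B, i - σ) ∈ S then 1 / 2 else 1

lemma card_class (S : Finset (Fin m × Fin N)) (s : Fin m → Fin N) (i : Fin N) :
    (S.filter (fun x => x.2 + s x.1 = i)).card =
      (Finset.univ.filter (fun B : Fin m => (B, i - s B) ∈ S)).card := by
  refine Finset.card_bij (fun x _ => x.1) ?_ ?_ ?_
  · rintro ⟨B, p⟩ hx
    simp only [mem_filter, mem_univ, true_and] at hx ⊢
    rw [← hx.2, add_sub_cancel_right]
    exact hx.1
  · rintro ⟨B, p⟩ hx ⟨B', p'⟩ hx' h
    simp only [mem_filter] at hx hx' h
    subst h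
    have h1 := hx.2.trans hx'.2.symm
    rw [add_left_inj] at h1
    rw [h1]
  · intro B hB
    simp only [mem_filter, mem_univ, true_and] at hB
    exact ⟨(B, i - s B), by simp [hB], rfl⟩

lemma sum_wgt (S : Finset (Fin m × Fin N)) (i : Fin N) (B : Fin m) :
    ∑ σ, wgt S i B σ = N - ((S.filter (fun x => x.1 = B)).card : ℝ) / 2 := by
  have h1 : (S.filter (fun x => x.1 = B)).card =
      (Finset.univ.filter (fun σ : Fin N => (B, i - σ) ∈ S)).card := by
    refine Finset.card_bij (fun x _ => i - x.2) ?_ ?_ ?_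
    · rintro ⟨B', p⟩ hx
      simp only [mem_filter, mem_univ, true_and] at hx ⊢
      obtain ⟨hx, rfl⟩ := hx
      rw [sub_sub_cancel]
      exact hx
    · rintro ⟨B1, p⟩ hx ⟨B2, p'⟩ hx' h
      simp only [mem_filter] at hx hx' h
      obtain ⟨_, rfl⟩ := hx
      obtain ⟨_, rfl⟩ := hx'
      rw [sub_right_inj] at h
      rw [h]
    · intro σ hσ
      simp only [mem_filter, mem_univ, true_and] at hσ
      exact ⟨(B, i - σ), by simp [hσ], by simp⟩
  rw [h1]
  have h2 : ∀ σ : Fin N, wgt S i B σ = 1 - (if (B, i - σ) ∈ S then (1 : ℝ) / 2 else 0) := by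
    intro σ
    unfold wgt
    split_ifs <;> norm_num
  simp only [h2]
  rw [Finset.sum_sub_distrib, ← Finset.sum_filter]
  simp only [Finset.sum_const, Finset.card_univ, Fintype.card_fin, nsmul_eq_mul]
  ring

lemma sum_shift (S : Finset (Fin m × Fin N)) (i : Fin N) :
    ∑ s : Fin m → Fin N, ((1 : ℝ) / 2) ^ (S.filter (fun x => x.2 + s x.1 = i)).card ≤
      (N : ℝ) ^ m * Real.exp (-(S.card : ℝ) / (2 * N)) := by
  have hN : (0 : ℝ) < N := by exact_mod_cast Nat.pos_of_ne_zero (NeZero.ne N)
  have h1 : ∀ s : Fin m → Fin N,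
      ((1 : ℝ) / 2) ^ (S.filter (fun x => x.2 + s x.1 = i)).card = ∏ B, wgt S i B (s B) := by
    intro s
    rw [card_class]
    unfold wgt
    rw [Finset.prod_ite]
    simp
  simp only [h1]
  have h2 := Finset.prod_univ_sum (fun _ : Fin m => (Finset.univ : Finset (Fin N)))
    (fun B σ => wgt S i B σ)
  rw [Fintype.piFinset_univ] at h2
  rw [← h2]
  have h3 : ∀ B : Fin m, ∑ σ, wgt S i B σ ≤
      (N : ℝ) * Real.exp (-((S.filter (fun x => x.1 = B)).card : ℝ) / (2 * N)) := by
    intro B
    rw [sum_wgt]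
    have h4 := Real.add_one_le_exp (-((S.filter (fun x => x.1 = B)).card : ℝ) / (2 * N))
    have h5 := mul_le_mul_of_nonneg_left h4 hN.le
    refine le_trans (le_of_eq ?_) h5
    field_simp
    ring
  have h3' : ∀ B : Fin m, 0 ≤ ∑ σ, wgt S i B σ := by
    intro B
    apply Finset.sum_nonneg
    intro σ _
    unfold wgt
    split_ifs <;> norm_num
  refine (Finset.prod_le_prod (fun B _ => h3' B) (fun B _ => h3 B)).trans (le_of_eq ?_)
  rw [Finset.prod_mul_distrib, Finset.prod_const, Finset.card_univ, Fintype.card_fin,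
    ← Real.exp_sum]
  congr 2
  rw [← Finset.sum_div, Finset.sum_neg_distrib]
  congr 2
  rw [← Nat.cast_sum]
  congr 1
  exact (Finset.card_eq_sum_card_fiberwise (f := fun x : Fin m × Fin N => x.1) (s := S)
    (t := Finset.univ) (fun x _ => Finset.mem_coe.2 (Finset.mem_univ _))).symm

lemma exp_neg_two_le (t : ℕ) : Real.exp (-(2 * t : ℝ)) ≤ ((1 : ℝ) / 4) ^ t := by
  have h1 : (4 : ℝ) ≤ Real.exp 2 := by
    have h2 : (2 : ℝ) ≤ Real.exp 1 := by
      have := Real.add_one_le_exp (1 : ℝ)
      linarith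
    have h3 : Real.exp 2 = Real.exp 1 * Real.exp 1 := by
      rw [← Real.exp_add]; norm_num
    rw [h3]
    nlinarith
  have h4 : Real.exp (-(2 * t : ℝ)) = (Real.exp (-2)) ^ t := by
    rw [← Real.exp_nat_mul]
    congr 1
    ring
  rw [h4]
  apply pow_le_pow_left₀ (Real.exp_pos _).le
  rw [Real.exp_neg, one_div]
  exact inv_anti₀ (by norm_num) h1

lemma card_bad (S : Finset (Fin m × Fin N)) (i : Fin N) (t : ℕ) (hS : 4 * N * t ≤ S.card) :
    ((Finset.univ.filter (fun s : Fin m → Fin N =>
      (S.filter (fun x => x.2 + s x.1 = i)).card < t)).card : ℝ) * 2 ^ t ≤ (N : ℝ) ^ m := by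
  have hN : (0 : ℝ) < N := by exact_mod_cast Nat.pos_of_ne_zero (NeZero.ne N)
  set bad := Finset.univ.filter (fun s : Fin m → Fin N =>
      (S.filter (fun x => x.2 + s x.1 = i)).card < t) with hbad
  have h1 : (bad.card : ℝ) * (1 / 2) ^ t ≤
      ∑ s : Fin m → Fin N, ((1 : ℝ) / 2) ^ (S.filter (fun x => x.2 + s x.1 = i)).card := by
    calc (bad.card : ℝ) * (1 / 2) ^ t = ∑ s ∈ bad, ((1 : ℝ) / 2) ^ t := by
          rw [Finset.sum_const, nsmul_eq_mul]
      _ ≤ ∑ s ∈ bad, ((1 : ℝ) / 2) ^ (S.filter (fun x => x.2 + s x.1 = i)).card := by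
          apply Finset.sum_le_sum
          intro s hs
          rw [hbad, mem_filter] at hs
          exact pow_le_pow_of_le_one (by norm_num) (by norm_num) hs.2.le
      _ ≤ _ := by
          apply Finset.sum_le_sum_of_subset_of_nonneg (Finset.subset_univ _)
          intro s _ _
          positivity
  have h2 : Real.exp (-(S.card : ℝ) / (2 * N)) ≤ ((1 : ℝ) / 4) ^ t := by
    refine le_trans ?_ (exp_neg_two_le t)
    apply Real.exp_le_exp.2
    rw [div_le_iff₀ (by positivity)]
    have : ((4 * N * t : ℕ) : ℝ) ≤ S.card := by exact_mod_cast hS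
    push_cast at this
    nlinarith
  have h3 := h1.trans ((sum_shift S i).trans (mul_le_mul_of_nonneg_left h2 (by positivity)))
  have h4 : ((1 : ℝ) / 4) ^ t = (1 / 2) ^ t * (1 / 2) ^ t := by
    rw [← mul_pow]; norm_num
  have h5 : (0 : ℝ) < (1 / 2) ^ t := by positivity
  have h6 : (bad.card : ℝ) ≤ (N : ℝ) ^ m * (1 / 2) ^ t := by
    rw [h4, ← mul_assoc] at h3
    exact le_of_mul_le_mul_right h3 h5
  have h7 : ((1 : ℝ) / 2) ^ t * 2 ^ t = 1 := by
    rw [← mul_pow]; norm_num
  calc (bad.card : ℝ) * 2 ^ t ≤ ((N : ℝ) ^ m * (1 / 2) ^ t) * 2 ^ t :=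
        mul_le_mul_of_nonneg_right h6 (by positivity)
    _ = (N : ℝ) ^ m := by rw [mul_assoc, h7, mul_one]

lemma exists_shift (F : Finset (Finset (Fin m × Fin N))) (t : ℕ)
    (hF : ∀ S ∈ F, 4 * N * t ≤ S.card) (hc : F.card * N < 2 ^ t) :
    ∃ s : Fin m → Fin N, ∀ S ∈ F, ∀ i : Fin N,
      t ≤ (S.filter (fun x => x.2 + s x.1 = i)).card := by
  classical
  by_contra hcon
  push Not at hcon
  have hN : (0 : ℝ) < N := by exact_mod_cast Nat.pos_of_ne_zero (NeZero.ne N)
  have hcov : (Finset.univ : Finset (Fin m → Fin N)) ⊆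
      (F ×ˢ (Finset.univ : Finset (Fin N))).biUnion (fun q =>
        Finset.univ.filter (fun s : Fin m → Fin N =>
          (q.1.filter (fun x => x.2 + s x.1 = q.2)).card < t)) := by
    intro s _
    obtain ⟨S, hS, i, hi⟩ := hcon s
    rw [mem_biUnion]
    exact ⟨(S, i), by simp [hS], by simpa using hi⟩
  have h1 := (Finset.card_le_card hcov).trans Finset.card_biUnion_le
  rw [Finset.card_univ, Fintype.card_fun, Fintype.card_fin, Fintype.card_fin] at h1
  have h2 : ((N ^ m : ℕ) : ℝ) * 2 ^ t ≤ (F.card * N : ℕ) * (N : ℝ) ^ m := by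
    have h3 : ((N ^ m : ℕ) : ℝ) ≤ ∑ q ∈ F ×ˢ (Finset.univ : Finset (Fin N)),
        ((Finset.univ.filter (fun s : Fin m → Fin N =>
          (q.1.filter (fun x => x.2 + s x.1 = q.2)).card < t)).card : ℝ) := by
      exact_mod_cast h1
    calc ((N ^ m : ℕ) : ℝ) * 2 ^ t ≤ (∑ q ∈ F ×ˢ (Finset.univ : Finset (Fin N)),
        ((Finset.univ.filter (fun s : Fin m → Fin N =>
          (q.1.filter (fun x => x.2 + s x.1 = q.2)).card < t)).card : ℝ)) * 2 ^ t :=
          mul_le_mul_of_nonneg_right h3 (by positivity)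
      _ = ∑ q ∈ F ×ˢ (Finset.univ : Finset (Fin N)),
        ((Finset.univ.filter (fun s : Fin m → Fin N =>
          (q.1.filter (fun x => x.2 + s x.1 = q.2)).card < t)).card : ℝ) * 2 ^ t := by
          rw [Finset.sum_mul]
      _ ≤ ∑ q ∈ F ×ˢ (Finset.univ : Finset (Fin N)), (N : ℝ) ^ m := by
          apply Finset.sum_le_sum
          intro q hq
          rw [mem_product] at hq
          exact card_bad q.1 q.2 t (hF q.1 hq.1)
      _ = (F.card * N : ℕ) * (N : ℝ) ^ m := by
          rw [Finset.sum_const, nsmul_eq_mul, card_product, Finset.card_univ, Fintype.card_fin]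
  have h4 : ((F.card * N : ℕ) : ℝ) < 2 ^ t := by exact_mod_cast hc
  have h5 : (0 : ℝ) < (N : ℝ) ^ m := by positivity
  push_cast at h2 h4
  nlinarith

end core

/-- **Sampling lemma.** A set `X` of size `N * m` has a partition into `N` classes of size exactly
`m` such that every member of the family `F` (subsets of `X` of size at least `4 N t`, fewer than
`2 ^ t / N` of them) meets every class in at least `t` elements. -/
theorem exists_split {A : Type*} [DecidableEq A] (X : Finset A) (N m t : ℕ) (hN : 0 < N)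
    (hX : X.card = N * m) (F : Finset (Finset A))
    (hF : ∀ S ∈ F, S ⊆ X ∧ 4 * N * t ≤ S.card) (hc : F.card * N < 2 ^ t) :
    ∃ f : A → Fin N, (∀ i, (X.filter (fun x => f x = i)).card = m) ∧
      ∀ S ∈ F, ∀ i, t ≤ (S.filter (fun x => f x = i)).card := by
  classical
  have : NeZero N := ⟨hN.ne'⟩
  have hcard : Fintype.card X = Fintype.card (Fin m × Fin N) := by
    rw [Fintype.card_coe, hX, Fintype.card_prod, Fintype.card_fin, Fintype.card_fin, mul_comm]
  let e : X ≃ Fin m × Fin N := Fintype.equivOfCardEq hcard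
  -- the image of a subset of `X`
  let im : Finset A → Finset (Fin m × Fin N) := fun S =>
    Finset.univ.filter (fun q => ((e.symm q : X) : A) ∈ S)
  have him : ∀ S ⊆ X, ∀ P : Fin m × Fin N → Prop, [DecidablePred P] →
      ((im S).filter P).card = (S.filter (fun x => ∃ h : x ∈ X, P (e ⟨x, h⟩))).card := by
    intro S hS P _
    refine Finset.card_bij (fun q _ => ((e.symm q : X) : A)) ?_ ?_ ?_
    · intro q hq
      simp only [im, mem_filter, mem_univ, true_and] at hq ⊢
      refine ⟨hq.1, (e.symm q).2, ?_⟩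
      have : e ⟨((e.symm q : X) : A), (e.symm q).2⟩ = q := by
        rw [Subtype.coe_eta, Equiv.apply_symm_apply]
      rw [this]
      exact hq.2
    · intro q _ q' _ h
      exact e.symm.injective (Subtype.ext h)
    · intro x hx
      rw [mem_filter] at hx
      obtain ⟨hxS, hxX, hP⟩ := hx
      refine ⟨e ⟨x, hxX⟩, ?_, by simp⟩
      simp only [im, mem_filter, mem_univ, true_and, Equiv.symm_apply_apply]
      exact ⟨hxS, hP⟩
  have himc : ∀ S ⊆ X, (im S).card = S.card := by
    intro S hS
    have h := him S hS (fun _ => True)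
    rw [Finset.filter_true] at h
    rw [h]
    congr 1
    apply Finset.filter_true_of_mem
    intro x hx
    exact ⟨hS hx, trivial⟩
  obtain ⟨s, hs⟩ := exists_shift (F.image im) t (by
    intro S' hS'
    rw [mem_image] at hS'
    obtain ⟨S, hS, rfl⟩ := hS'
    rw [himc S (hF S hS).1]
    exact (hF S hS).2) (lt_of_le_of_lt (Nat.mul_le_mul_right N Finset.card_image_le) hc)
  let f : A → Fin N := fun x => if h : x ∈ X then (e ⟨x, h⟩).2 + s (e ⟨x, h⟩).1 else 0
  have hf : ∀ S ⊆ X, ∀ i, (S.filter (fun x => f x = i)).card =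
      ((im S).filter (fun q => q.2 + s q.1 = i)).card := by
    intro S hS i
    rw [him S hS]
    congr 1
    apply Finset.filter_congr
    intro x hx
    have hxX := hS hx
    simp only [f, dif_pos hxX]
    exact ⟨fun h => ⟨hxX, h⟩, fun ⟨_, h⟩ => h⟩
  refine ⟨f, fun i => ?_, fun S hS i => ?_⟩
  · rw [hf X (Finset.Subset.refl _)]
    have hu : im X = Finset.univ := by
      apply Finset.filter_true_of_mem
      intro q _
      exact (e.symm q).2
    rw [hu, card_class]
    simp
  · rw [hf S (hF S hS).1]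
    exact hs _ (Finset.mem_image_of_mem im hS) i

end Pool.Agent.AE15
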