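import Pool.Agent.AE15.Defs

/-!
# Out-arborescences of bounded out-degree in tournaments: the stages

The step lemma allows one to lower the factor `K` of the main statement `EE` by a factor `1 + γ`, at the price of a larger
additive constant. After finitely many stages the factor is `1`.
-/

namespace AE15

open Finset
open scoped Classical

/-- the conclusion of the step lemma -/
def StepFor (b : ℕ) (κ η γ : ℝ) (n₀ A : ℕ) : Prop :=
  ∀ {V : Type} {R : V → V → Prop}, AE32.Tour R → ∀ (K C K' C' : ℝ), 0 ≤ K → 1 ≤ K' → K ≤ (1 + γ) * K' →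
      0 ≤ C → 0 ≤ C' → ∀ c : Fo, c.len ≤ b → c.Deg b →
        (∀ c' : Fo, c'.len ≤ b → c'.Deg b → c'.size < c.size → EE R K C κ η c' ∧ EE R K' C' κ η c') →
        ∀ (X : Finset V) (N : V → Prop), K' * (c.size + 1) + C' ≤ X.card → n₀ ≤ X.card → A * C ≤ X.card →
          Cls R X κ η N → In R c N X

/-- one stage -/
theorem stage_one {b : ℕ} {κ η γ : ℝ} {n₀ A : ℕ} (h : StepFor b κ η γ n₀ A) {V : Type} {R : V → V → Prop}
    (hT : AE32.Tour R) {K C K' C' : ℝ} (hK : 0 ≤ K) (hK' : 1 ≤ K') (hKK : K ≤ (1 + γ) * K') (hC : 0 ≤ C) (hC' : 0 ≤ C')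
    (hn : ∀ t : ℕ, (n₀ : ℝ) ≤ K' * (t + 1) + C') (hA : A * C ≤ C')
    (hE : (∀ c : Fo, c.len ≤ b → c.Deg b → EE R K C κ η c) ∨ (K = K' ∧ C = C')) :
    ∀ c : Fo, c.len ≤ b → c.Deg b → EE R K' C' κ η c := by
  have main : ∀ (m : ℕ) (c : Fo), c.size = m → c.len ≤ b → c.Deg b → EE R K' C' κ η c := by
    intro m
    induction m using Nat.strong_induction_on with
    | _ m ih =>
      intro c hm hl hd X N hX hN
      have hK'0 : 0 ≤ K' * (c.size + 1 : ℝ) := by positivity
      refine h hT K C K' C' hK hK' hKK hC hC' c hl hd ?_ X N hX ?_ ?_ hN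
      · intro c' hl' hd' hs
        have h1 : EE R K' C' κ η c' := ih c'.size (hm ▸ hs) c' rfl hl' hd'
        refine ⟨?_, h1⟩
        rcases hE with hE | ⟨rfl, rfl⟩
        · exact hE c' hl' hd'
        · exact h1
      · have := (hn c.size).trans hX
        exact_mod_cast this
      · linarith
  intro c hl hd
  exact main c.size c rfl hl hd

/-- **Stages**, from the conclusion of the step lemma -/
theorem stages_of_step {b : ℕ} {κ η γ : ℝ} {n₀ A : ℕ} (hγ : 0 < γ) (h : StepFor b κ η γ n₀ A) :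
    ∃ C : ℕ, ∀ {V : Type} {R : V → V → Prop}, AE32.Tour R →
      ∀ c : Fo, c.len ≤ b → c.Deg b → ∀ X : Finset V, c.size + 1 + C ≤ X.card → In R c (fun _ => True) X := by
  have hK₀ : (1 : ℝ) ≤ max 1 (n₀ : ℝ) := le_max_left _ _
  have hn₀ : (n₀ : ℝ) ≤ max 1 (n₀ : ℝ) := le_max_right _ _
  set K₀ : ℝ := max 1 (n₀ : ℝ) with hK₀def
  have hg : (0 : ℝ) < 1 + γ := by linarith
  have key : ∀ i : ℕ, ∃ C : ℕ, ∀ {V : Type} {R : V → V → Prop}, AE32.Tour R →
      ∀ c : Fo, c.len ≤ b → c.Deg b → EE R (max 1 (K₀ / (1 + γ) ^ i)) C κ η c := by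
    intro i
    induction i with
    | zero =>
      refine ⟨0, ?_⟩
      intro V R hT
      have e : max 1 (K₀ / (1 + γ) ^ 0) = K₀ := by
        rw [pow_zero, div_one]
        exact max_eq_right hK₀
      rw [e]
      refine stage_one h hT (K := K₀) (C := ((0 : ℕ) : ℝ)) (by linarith) hK₀ ?_ (by simp) (by simp) ?_ (by simp)
        (Or.inr ⟨rfl, rfl⟩)
      · nlinarith
      · intro t
        have ht : (0 : ℝ) ≤ t := Nat.cast_nonneg t
        push_cast
        nlinarith
    | succ i ih =>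
      obtain ⟨C, hC⟩ := ih
      refine ⟨max n₀ (A * C), ?_⟩
      intro V R hT
      have h1 : (1 : ℝ) ≤ max 1 (K₀ / (1 + γ) ^ (i + 1)) := le_max_left _ _
      refine stage_one h hT (K := max 1 (K₀ / (1 + γ) ^ i)) (C := (C : ℝ)) (le_trans zero_le_one (le_max_left _ _)) h1
        ?_ (Nat.cast_nonneg C) (Nat.cast_nonneg _) ?_ ?_ (Or.inl (hC hT))
      · apply max_le
        · nlinarith
        · have h2 : K₀ / (1 + γ) ^ i = (1 + γ) * (K₀ / (1 + γ) ^ (i + 1)) := by
            rw [pow_succ]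
            field_simp
          rw [h2]
          exact mul_le_mul_of_nonneg_left (le_max_right _ _) hg.le
      · intro t
        have h3 : (n₀ : ℝ) ≤ ((max n₀ (A * C) : ℕ) : ℝ) := by exact_mod_cast le_max_left _ _
        have h4 : 0 ≤ max 1 (K₀ / (1 + γ) ^ (i + 1)) * ((t : ℝ) + 1) := by positivity
        linarith
      · have h5 : A * C ≤ max n₀ (A * C) := le_max_right _ _
        exact_mod_cast h5
  obtain ⟨i, hi⟩ := pow_unbounded_of_one_lt K₀ (show (1 : ℝ) < 1 + γ by linarith)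
  obtain ⟨C, hC⟩ := key i
  refine ⟨C, ?_⟩
  intro V R hT c hl hd X hX
  have e : max 1 (K₀ / (1 + γ) ^ i) = 1 := by
    apply max_eq_left
    rw [div_le_one (by positivity)]
    exact hi.le
  have h6 := hC hT c hl hd
  rw [e] at h6
  refine h6 X (fun _ => True) ?_ (fun u _ => Or.inl trivial)
  rw [one_mul]
  exact_mod_cast hX

end AE15
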