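import Pool.Agent.AE15.Defs

/-!
# Stages from the step lemma
-/

set_option autoImplicit false

namespace AE15

open Finset
open scoped Classical

/-- the statement of the step lemma -/
def StepStatement (b : ℕ) : Prop := ∃ (κ η γ : ℝ) (n₀ A : ℕ), 0 < κ ∧ 0 < η ∧ 0 < γ ∧
    ∀ {V : Type} {R : V → V → Prop}, AE32.Tour R → ∀ (K C K' C' : ℝ), 0 ≤ K → 1 ≤ K' → K ≤ (1 + γ) * K' →
      0 ≤ C → 0 ≤ C' → ∀ c : Fo, c.len ≤ b → c.Deg b →
        (∀ c' : Fo, c'.len ≤ b → c'.Deg b → c'.size < c.size → EE R K C κ η c' ∧ EE R K' C' κ η c') →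
        ∀ (X : Finset V) (N : V → Prop), K' * (c.size + 1) + C' ≤ X.card → n₀ ≤ X.card → A * C ≤ X.card →
          Cls R X κ η N → In R c N X

/-- **Stages**, from the step lemma -/
theorem stages_of_step (b : ℕ) (hstep : StepStatement b) : ∃ C : ℕ, ∀ {V : Type} {R : V → V → Prop},
    AE32.Tour R → ∀ c : Fo, c.len ≤ b → c.Deg b → ∀ X : Finset V, c.size + 1 + C ≤ X.card →
      In R c (fun _ => True) X := by
  obtain ⟨κ, η, γ, n₀, A, _, _, hγ, hst⟩ := hstep
  -- a stage with parameters K', C' follows from a stage with parameters K, C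
  have hnext : ∀ K C K' C' : ℝ, 0 ≤ K → 1 ≤ K' → K ≤ (1 + γ) * K' → 0 ≤ C → 0 ≤ C' →
      (∀ {V : Type} {R : V → V → Prop}, AE32.Tour R → ∀ (c : Fo), c.len ≤ b → c.Deg b →
        ∀ X : Finset V, K' * (c.size + 1) + C' ≤ X.card → (n₀ : ℝ) ≤ X.card ∧ A * C ≤ X.card) →
      (∀ {V : Type} {R : V → V → Prop}, AE32.Tour R → ∀ n : ℕ, (∀ c : Fo, c.len ≤ b → c.Deg b → c.size < n →
        EE R K' C' κ η c) → ∀ c : Fo, c.len ≤ b → c.Deg b → c.size < n → EE R K C κ η c) →
      ∀ {V : Type} {R : V → V → Prop}, AE32.Tour R → ∀ c : Fo, c.len ≤ b → c.Deg b → EE R K' C' κ η c := by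
    intro K C K' C' hK hK' hKK hC hC' hsz hprev V R hT c hlen hdeg
    have key : ∀ n : ℕ, ∀ c : Fo, c.len ≤ b → c.Deg b → c.size = n → EE R K' C' κ η c := by
      intro n
      induction n using Nat.strong_induction_on with
      | _ n ih =>
        intro c hlen hdeg hn X N hX hcls
        have hsz' := hsz hT c hlen hdeg X hX
        refine hst hT K C K' C' hK hK' hKK hC hC' c hlen hdeg ?_ X N hX
          (by exact_mod_cast hsz'.1) hsz'.2 hcls
        have h1 : ∀ c' : Fo, c'.len ≤ b → c'.Deg b → c'.size < c.size → EE R K' C' κ η c' := by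
          intro c' h2 h3 h4
          exact ih c'.size (by omega) c' h2 h3 rfl
        intro c' h2 h3 h4
        exact ⟨hprev hT c.size h1 c' h2 h3 h4, h1 c' h2 h3 h4⟩
    exact key c.size c hlen hdeg rfl
  set K0 : ℝ := max 1 n₀ with hK0
  have hK01 : 1 ≤ K0 := le_max_left _ _
  have hK0n : (n₀ : ℝ) ≤ K0 := le_max_right _ _
  -- all stages
  have hall : ∀ i : ℕ, ∃ C : ℝ, 0 ≤ C ∧ ∀ {V : Type} {R : V → V → Prop}, AE32.Tour R →
      ∀ c : Fo, c.len ≤ b → c.Deg b → EE R (max 1 (K0 / (1 + γ) ^ i)) C κ η c := by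
    intro i
    induction i with
    | zero =>
      refine ⟨0, le_rfl, ?_⟩
      have h0 : max 1 (K0 / (1 + γ) ^ 0) = K0 := by
        rw [pow_zero, div_one]
        exact max_eq_right hK01
      rw [h0]
      intro V R hT c hlen hdeg
      refine hnext K0 0 K0 0 (by linarith) hK01 (by nlinarith) le_rfl le_rfl ?_ ?_ hT c hlen hdeg
      · intro V R _ c _ _ X hX
        have h1 : (0 : ℝ) ≤ c.size := by positivity
        constructor
        · nlinarith
        · rw [mul_zero]; positivity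
      · intro V R _ n h c h1 h2 h3
        exact h c h1 h2 h3
    | succ i ih =>
      obtain ⟨C, hC, hE⟩ := ih
      refine ⟨max n₀ (A * C), le_max_of_le_left (by positivity), ?_⟩
      intro V R hT c hlen hdeg
      have hpos : 0 < (1 + γ) ^ i := by positivity
      refine hnext (max 1 (K0 / (1 + γ) ^ i)) C (max 1 (K0 / (1 + γ) ^ (i + 1))) (max n₀ (A * C))
        (le_trans zero_le_one (le_max_left _ _)) (le_max_left _ _) ?_ hC
        (le_max_of_le_left (by positivity)) ?_ ?_ hT c hlen hdeg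
      · apply max_le
        · have := le_max_left (1 : ℝ) (K0 / (1 + γ) ^ (i + 1))
          nlinarith
        · have h1 : K0 / (1 + γ) ^ i = (1 + γ) * (K0 / (1 + γ) ^ (i + 1)) := by
            rw [pow_succ]
            field_simp
          rw [h1]
          exact mul_le_mul_of_nonneg_left (le_max_right _ _) (by linarith)
      · intro V R _ c _ _ X hX
        have h1 : (0 : ℝ) ≤ max 1 (K0 / (1 + γ) ^ (i + 1)) * (c.size + 1) := by
          have : (0 : ℝ) ≤ max 1 (K0 / (1 + γ) ^ (i + 1)) := le_trans zero_le_one (le_max_left _ _)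
          positivity
        have h2 : max (n₀ : ℝ) (A * C) ≤ X.card := by linarith
        exact ⟨(le_max_left _ _).trans h2, (le_max_right _ _).trans h2⟩
      · intro V R hT n _ c h1 h2 _
        exact hE hT c h1 h2
  obtain ⟨i, hi⟩ := pow_unbounded_of_one_lt K0 (show (1 : ℝ) < 1 + γ by linarith)
  obtain ⟨C, hC, hE⟩ := hall i
  have h1 : max 1 (K0 / (1 + γ) ^ i) = 1 := by
    apply max_eq_left
    rw [div_le_one (by positivity)]
    exact hi.le
  rw [h1] at hE
  refine ⟨⌈C⌉₊, ?_⟩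
  intro V R hT c hlen hdeg X hX
  refine hE hT c hlen hdeg X (fun _ => True) ?_ (fun u _ => Or.inl trivial)
  have h2 := Nat.le_ceil C
  have h3 : ((c.size + 1 + ⌈C⌉₊ : ℕ) : ℝ) ≤ X.card := by exact_mod_cast hX
  push_cast at h3
  linarith

end AE15
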