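import Pool.Agent.AE15.Core
import Pool.Agent.AE15.Levels
import Pool.Agent.AE15.Placing
import Pool.Agent.AE15.FinalL

/-!
# The step lemma
-/

namespace AE15

open Finset
open scoped Classical

theorem Fo.mem_size {F c : Fo} (h : c ∈ F.trees) : c.size < F.size := by
  rw [F.size_eq]
  have h1 : c.size + 1 ∈ F.trees.map (fun c => c.size + 1) := List.mem_map.2 ⟨c, h, rfl⟩
  have := List.single_le_sum (fun _ _ => Nat.zero_le _) _ h1
  omega

theorem isz_mem {V : Type*} {L : List (Item V)} {p : Item V} (h : p ∈ L) : p.2.size < isz L := by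
  have h1 : p.2.size + 1 ∈ L.map (fun p => p.2.size + 1) := List.mem_map.2 ⟨p, h, rfl⟩
  have := List.single_le_sum (fun _ _ => Nat.zero_le _) _ h1
  unfold isz
  omega

theorem Fo.eq_nil_of_size {F : Fo} (h : F.size = 0) : F = .nil := by
  cases F with
  | nil => rfl
  | node c s => simp [Fo.size] at h

variable {V : Type} {R : V → V → Prop}

theorem in_nil {X : Finset V} {N : V → Prop} {x : V} (hx : x ∈ X) (hN : N x) : In R .nil N X := by
  refine ⟨{x}, by simpa using hx, x, ∅, ∅, hN, by simp, by simp, by simp, by simp, rfl, rfl⟩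

/-- the sets of super vertices -/
theorem exists_hosts (hT : AE32.Tour R) {X W : Finset V} {η κ₀ η₁ ρ : ℝ} (h0 : 0 < κ₀) (hκ : 20 * κ₀ ≤ η₁) (hη₁ : η₁ ≤ 1)
    (hWX : W ⊆ X) (hW : ((X \ W).card : ℝ) ≤ η * X.card) (hη : η ≤ 1 / 8) (hρ0 : 0 < ρ) (hρ : 2 * ρ ≤ η)
    (hn : 2 ≤ ρ * X.card) (hn' : 8 ≤ κ₀ * X.card) :
    ∃ Ks ⊆ W, (∀ y ∈ Ks, ∃ Y ⊆ X, ((X \ Y).card : ℝ) ≤ 2 * η * X.card ∧ Super R (κ₀ ^ 2 / 4) η₁ (η₁ / 8) Y y) ∧
      (Ks.card : ℝ) ≤ ρ * X.card + 2 ∧ ρ * X.card ≤ Ks.card := by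
  obtain ⟨n, hnd⟩ : ∃ n : ℝ, n = (X.card : ℝ) := ⟨_, rfl⟩
  rw [← hnd] at hW hn hn' ⊢
  have hn0 : 0 ≤ n := by rw [hnd]; positivity
  obtain ⟨J, hJ⟩ : ∃ J : ℕ, J = ⌈ρ * n⌉₊ := ⟨_, rfl⟩
  have hJ1 : (J : ℝ) < ρ * n + 1 := by rw [hJ]; exact Nat.ceil_lt_add_one (by positivity)
  have hJ2 : ρ * n ≤ J := by rw [hJ]; exact Nat.le_ceil _
  have hWc : (W.card : ℝ) + (X \ W).card = n := by
    have := card_sdiff_add_card_eq_card hWX
    rw [hnd]
    exact_mod_cast (by omega : W.card + (X \ W).card = X.card)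
  have hηn : η * n ≤ 1 / 8 * n := mul_le_mul_of_nonneg_right hη hn0
  have hρn : ρ * n ≤ 1 / 16 * n := mul_le_mul_of_nonneg_right (by linarith) hn0
  have hρη : 2 * ρ * n ≤ η * n := mul_le_mul_of_nonneg_right hρ hn0
  obtain ⟨y, hy⟩ := exists_seq hT W h0 hκ hη₁ J (by
    have h1 : n / 2 ≤ (W.card : ℝ) - J := by linarith
    have h2 := mul_le_mul_of_nonneg_left h1 h0.le
    linarith)
  have hmem : ∀ i ≤ J, y i ∈ rest W y i := fun i hi => (hy i hi).1
  have hinj : Set.InjOn y (range (J + 1)) := by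
    have key : ∀ i ≤ J, ∀ k < i, y k ≠ y i := by
      intro i hi k hk e
      have h1 := hmem i hi
      unfold rest at h1
      rw [mem_sdiff] at h1
      exact h1.2 (mem_image.2 ⟨k, by simpa using hk, e⟩)
    intro i hi k hk e
    simp only [coe_range, Set.mem_Iio] at hi hk
    rcases lt_trichotomy i k with h | h | h
    · exact absurd e (key k (by omega) i h)
    · exact h
    · exact absurd e.symm (key i (by omega) k h)
  refine ⟨(range (J + 1)).image y, ?_, ?_, ?_, ?_⟩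
  · intro w hw
    obtain ⟨i, hi, rfl⟩ := mem_image.1 hw
    exact rest_sub (hmem i (by rw [mem_range] at hi; omega))
  · intro w hw
    obtain ⟨i, hi, rfl⟩ := mem_image.1 hw
    rw [mem_range] at hi
    refine ⟨rest W y i, rest_sub.trans hWX, ?_, hy i (by omega)⟩
    have h1 : X \ rest W y i ⊆ (X \ W) ∪ (range i).image y := by
      intro w hw
      unfold rest at hw
      rw [mem_sdiff, mem_sdiff] at hw
      rw [mem_union, mem_sdiff]
      by_cases h : w ∈ W
      · right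
        by_contra h2
        exact hw.2 ⟨h, h2⟩
      · exact Or.inl ⟨hw.1, h⟩
    have h2 : ((range i).image y).card ≤ i := by
      simpa using card_image_le (s := range i) (f := y)
    have h3 : (X \ rest W y i).card ≤ (X \ W).card + J := by
      have := (card_le_card h1).trans (card_union_le _ _)
      omega
    have h4 : ((X \ rest W y i).card : ℝ) ≤ (X \ W).card + J := by exact_mod_cast h3
    linarith
  · rw [card_image_of_injOn hinj, card_range]
    push_cast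
    linarith
  · rw [card_image_of_injOn hinj, card_range]
    push_cast
    linarith

theorem step_aux (hT : AE32.Tour R) {b : ℕ} (hb : 1 ≤ b) {X : Finset V} {ω c η η₁ κ₀ κ₁ κ τ σ₂ μ ρ σ ε δ : ℝ}
    (P : Cst X.card ω c η η₁ κ₁ κ τ σ₂ μ ρ σ ε δ) (hωb : ω = 1 / (6 * b ^ 2)) (h0 : 0 < κ₀) (hκ₀ : 20 * κ₀ ≤ η₁)
    (hκ₀κ : κ₁ ≤ κ₀)
    (hκ₁ : κ₁ = κ₀ ^ 2 / 4) (hτ : τ = η₁ / 8) {M m n₁ : ℕ} (hM : M = ⌈8 / κ⌉₊ + 1) (hm : m = b + b ^ (M + 1))
    (hbig : 100 + (cnt b M : ℝ) + b ≤ δ * X.card)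
    (hn₁ : 2 * n₁ ≤ X.card) (hhost : ∀ {V : Type} {R : V → V → Prop} (A : Finset V) (𝓕 : Finset (Finset V)), n₁ ≤ A.card →
      𝓕.card ≤ A.card ^ 5 →
      ∀ (κ η K C : ℝ), 0 ≤ K → 0 ≤ C → 0 < η → 10 * η ≤ 1 → ∀ L : List (Item V), L.length ≤ m →
        (∀ p ∈ L, Ok R A 𝓕 ε κ η p.1) → (∀ p ∈ L, EE R K C κ η p.2) →
        (K * isz L + m * C) / (1 - 5 * η) ≤ (1 - 2 * c) * A.card →
        ∃ S Q : Finset V, S ⊆ A ∧ Q ⊆ A ∧ Disjoint S Q ∧ EmbX R L S ∧ c * A.card ≤ Q.card ∧ Rep A 𝓕 ε Q)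
    {K C K' C' : ℝ} (hK : 0 ≤ K) (hC : 0 ≤ C) (hK' : 1 ≤ K') (hC' : 0 ≤ C') (hKK : K ≤ (1 + ω) * K')
    (hmC : m * C ≤ ω / 4 * X.card) (c₀ : Fo) (hlen : c₀.len ≤ b) (hdeg : c₀.Deg b)
    (ih : ∀ c' : Fo, c'.len ≤ b → c'.Deg b → c'.size < c₀.size → EE R K C κ η c' ∧ EE R K' C' κ η c')
    (N : V → Prop) (hn : K' * (c₀.size + 1) + C' ≤ X.card) (hcls : Cls R X κ η N) : In R c₀ N X := by
  obtain ⟨hc0, hη0, hc1, hη1, hn0, hκ1, hκκ, hηη, hρ1, hσρ', hσμ, hδσ, hεσ, hμω, hn40⟩ := P.num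
  have P' := P
  obtain ⟨hω, hω1, hc, hη, hη₁, hη₁', hκ₁0, hκ₁', hκ₁η, hκ, hκ', hσ₂, hσ₂τ, hσ₂κ, hσ₂η, hμ, hμσ, hρ, hρμ, hρκ, hσ,
    hσρ, hε, hε', hδ, hδ', hn100⟩ := P'
  obtain ⟨n, hnd⟩ : ∃ n : ℝ, n = (X.card : ℝ) := ⟨_, rfl⟩
  rw [← hnd] at hn0 hn40 hn100 hbig
  have hX : X.Nonempty := by
    rw [← card_pos]
    rw [hnd] at hn0
    exact_mod_cast hn0
  have hδρ : δ * n ≤ ρ * n := mul_le_mul_of_nonneg_right (by linarith) hn0.le
  have hδκ : δ * n ≤ κ₀ * n := mul_le_mul_of_nonneg_right (by linarith) hn0.le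
  have hδκ' : δ * n ≤ κ * n := mul_le_mul_of_nonneg_right (by linarith) hn0.le
  have hcnt0 : (0 : ℝ) ≤ cnt b M := by positivity
  have hb0 : (1 : ℝ) ≤ b := by exact_mod_cast hb
  obtain ⟨x, hS⟩ := exists_super hT X h0 hκ₀ (by linarith) (by rw [← hnd]; linarith)
  rw [← hκ₁, ← hτ] at hS
  obtain ⟨𝓕x, H, h𝓕x, hHX, hHc, hHx, hfin⟩ := final_lemma hT (κ := κ) (η := η) (σ := σ) (δ := δ) (ε := ε) (c := c) hS hX hκ
    hη0 hκ₁0 hη₁ hσ hδ.le hε hc0 (by linarith) (by linarith) (by linarith) (by linarith) (by linarith)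
  have hω6 : ω * (b ^ 2 : ℝ) = 1 / 6 := by
    rw [hωb]
    field_simp
  have hbsq : (b : ℝ) ≤ b ^ 2 := by nlinarith
  by_cases hc₀ : c₀ = .nil
  · rw [hc₀]
    by_cases hNx : N x
    · exact in_nil hS.1 hNx
    · obtain ⟨v, h1, h2, h3, h4⟩ := (hcls x hS.1).resolve_left hNx
      exact in_nil h1 h2
  obtain ⟨a, l, hal, hsz, hla⟩ := exists_large b c₀ hc₀ hlen
  have hdeg' := (Fo.deg_iff b c₀).1 hdeg
  have hmem : ∀ d ∈ a :: l, d.len ≤ b ∧ d.Deg b ∧ d.size < c₀.size := by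
    intro d hd
    have h1 := hal.mem_iff.2 hd
    exact ⟨(hdeg' d h1).1, (hdeg' d h1).2, Fo.mem_size h1⟩
  have hll : l.length + 1 ≤ b := by
    have h1 := hal.length_eq
    rw [← Fo.len_eq] at h1
    simp only [List.length_cons] at h1
    omega
  by_cases hNx : N x
  · -- the root is placed at `x`
    have hPE : PE R (.node c₀ .nil) N (insert x (∅ ∪ ∅)) (c₀.trees.map (fun c => (R x, c)) ++ []) :=
      PE.place c₀ .nil N x ∅ ∅ _ [] hNx (by simp) (by simp) (by simp) (PE.pendall (R x) c₀) (PE.nil N)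
    have hxH : x ∉ H := fun h => hT.irr x (hHx x h)
    obtain ⟨S, hS1, hS2⟩ := core hT (Ks := ∅) P hS h𝓕x hHX hHc hfin (by simp) (by simp) (by
        rw [← hnd]; simp only [card_empty, Nat.cast_zero]; positivity) hPE (by
        intro w hw
        simp only [union_empty, mem_insert, notMem_empty, or_false] at hw
        rw [hw]; exact hS.1) (by
        simp only [union_empty, insert_empty_eq, disjoint_singleton_left]
        exact hxH) (by simp) (by
        rw [← hnd]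
        simp only [union_empty, insert_empty_eq, card_singleton, Nat.cast_one]
        linarith) (cf := a) (Lh := l.map (fun c => (R x, c))) (by
        rw [List.append_nil]
        exact hal.map _) (by
        intro p hp
        obtain ⟨d, hd, rfl⟩ := List.mem_map.1 hp
        exact ⟨x, Or.inl rfl, rfl⟩) (m := m) (by
        rw [List.length_map, hm]
        have : 0 ≤ b ^ (M + 1) := Nat.zero_le _
        omega) hn₁ hhost hK hC hK' hC' hKK hmC (by
        intro p hp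
        obtain ⟨d, hd, rfl⟩ := List.mem_map.1 hp
        obtain ⟨h1, h2, h3⟩ := hmem d (List.mem_cons_of_mem _ hd)
        exact (ih d h1 h2 h3).1) (by
        obtain ⟨h1, h2, h3⟩ := hmem a (List.mem_cons_self)
        exact (ih a h1 h2 h3).2) (by
        simp only [Fo.size]
        push_cast
        have h1 : (c₀.size : ℝ) ≤ b * (a.size + 1) := by exact_mod_cast hsz
        obtain ⟨tf, htf⟩ : ∃ tf : ℝ, tf = (a.size : ℝ) + 1 := ⟨_, rfl⟩
        rw [← htf] at h1 ⊢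
        have h2 : 1 ≤ tf := by rw [htf]; have : (0 : ℝ) ≤ a.size := by positivity
                               linarith
        have h3 : (c₀.size : ℝ) + 0 + 1 ≤ 3 * b ^ 2 * tf := by nlinarith
        calc 2 * ω * (c₀.size + 0 + 1) ≤ 2 * ω * (3 * b ^ 2 * tf) := mul_le_mul_of_nonneg_left h3 (by positivity)
          _ = 6 * (ω * b ^ 2) * tf := by ring
          _ = tf := by rw [hω6]; ring) (by
        simp only [Fo.size]
        push_cast
        simpa using hn)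
    exact ⟨S, hS1, hS2⟩
  · obtain ⟨v, hvX, hNv, hvx, hvG⟩ := (hcls x hS.1).resolve_left hNx
    by_cases ha : a = .nil
    · -- a star
      refine star_in hvX hNv (hT.irr v) c₀ ?_ ?_
      · intro d hd
        rcases List.mem_cons.1 (hal.mem_iff.1 hd) with h | h
        · rw [h, ha]
        · have h1 := hla d h
          rw [ha] at h1
          exact Fo.eq_nil_of_size (Nat.le_zero.1 h1)
      · have h1 := hvG.deg (by linarith)
        rw [← hnd] at h1
        have h2 : (c₀.len : ℝ) ≤ b := by exact_mod_cast hlen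
        have h3 : (c₀.len : ℝ) ≤ (nO R X v).card := by linarith
        exact_mod_cast h3
    · obtain ⟨a', l', hal', hsz', hla'⟩ := exists_large b a ha (hmem a List.mem_cons_self).1
      obtain ⟨W, hWr, hWc⟩ := hvG.rch
      obtain ⟨Ks, hKsW, hKs1, hKs2, hKs3⟩ := exists_hosts hT (η := η) h0 hκ₀ (by linarith) hWr.sub hWc (by linarith) hρ
        (by linarith) (by rw [← hnd]; linarith) (by rw [← hnd]; linarith)
      rw [← hκ₁, ← hτ] at hKs1
      have hlev := levels hT hκ hκ1 hρ hρκ hWr hvX hKsW hKs3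
      rw [← hM] at hlev
      have hxv : x ≠ v := fun e => hT.irr v (by rw [e] at hvx; exact hvx)
      have hvH : v ∉ H := fun h => hT.asym _ _ hvx (hHx v h)
      have hxH : x ∉ H := fun h => hT.irr x (hHx x h)
      have hσn : σ * n ≤ ρ * κ / 32 * n := mul_le_mul_of_nonneg_right hσρ hn0.le
      have hδn : δ * n ≤ ρ * κ / 128 * n := mul_le_mul_of_nonneg_right (by linarith) hn0.le
      obtain ⟨Z', L', hPE', hZ'X, hZ'A, hZ'c, hL'c, hL'h⟩ := placing hb (hKsW.trans hWr.sub) M v (Fo.ofList l)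
        (insert v (insert x H)) hlev (by simp) (by rw [Fo.len_eq, Fo.trees_ofList]; omega) (by
          rw [Fo.deg_iff, Fo.trees_ofList]
          intro d hd
          exact ⟨(hmem d (List.mem_cons_of_mem _ hd)).1, (hmem d (List.mem_cons_of_mem _ hd)).2.1⟩) (by
          rw [card_insert_of_notMem (by rw [mem_insert, not_or]; exact ⟨fun e => hxv e.symm, hvH⟩),
            card_insert_of_notMem hxH]
          push_cast
          rw [← hnd] at hHc ⊢
          have : 0 < ρ * κ / 4 * n := by positivity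
          linarith)
      rw [disjoint_insert_right, disjoint_insert_right] at hZ'A
      obtain ⟨hvZ, hxZ, hHZ⟩ := hZ'A
      have hPE1 : PE R (.node a (Fo.ofList l)) (R v) (insert x (∅ ∪ Z')) (a.trees.map (fun c => (R x, c)) ++ L') :=
        PE.place a (Fo.ofList l) (R v) x ∅ Z' _ L' hvx (by simp) hxZ (by simp) (PE.pendall (R x) a) hPE'
      have hPE2 : PE R (.node (.node a (Fo.ofList l)) .nil) N (insert v (insert x (∅ ∪ Z') ∪ ∅))
          ((a.trees.map (fun c => (R x, c)) ++ L') ++ []) :=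
        PE.place _ .nil N v _ ∅ _ [] hNv (by
          rw [mem_insert, empty_union, not_or]
          exact ⟨fun e => hxv e.symm, hvZ⟩) (by simp) (by simp) hPE1 (PE.nil N)
      have hZeq : insert v (insert x (∅ ∪ Z') ∪ ∅) = insert v (insert x Z') := by
        rw [empty_union, union_empty]
      rw [hZeq, List.append_nil] at hPE2
      have hcsz : (Fo.node a (Fo.ofList l)).size = c₀.size := by
        rw [Fo.size_eq, Fo.size_eq c₀, (hal.map _).sum_eq]
        simp only [Fo.trees, Fo.trees_ofList]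
      have hlsz : (Fo.ofList l).size ≤ c₀.size := by
        rw [← hcsz]
        simp only [Fo.size]
        omega
      have hmem' : ∀ d ∈ a' :: l', d.len ≤ b ∧ d.Deg b ∧ d.size < c₀.size := by
        intro d hd
        have h1 := hal'.mem_iff.2 hd
        have h2 := (Fo.deg_iff b a).1 (hmem a List.mem_cons_self).2.1 d h1
        exact ⟨h2.1, h2.2, (Fo.mem_size h1).trans (hmem a List.mem_cons_self).2.2⟩
      have hll' : l'.length + 1 ≤ b := by
        have h1 := hal'.length_eq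
        rw [← Fo.len_eq] at h1
        simp only [List.length_cons] at h1
        have h2 := (hmem a List.mem_cons_self).1
        omega
      obtain ⟨S, hS1, hS2⟩ := core hT (Ks := Ks) P hS h𝓕x hHX hHc hfin (hKsW.trans hWr.sub) hKs1 hKs2 hPE2 (by
          intro w hw
          rw [mem_insert, mem_insert] at hw
          rcases hw with h | h | h
          · rw [h]; exact hvX
          · rw [h]; exact hS.1
          · exact hZ'X h) (by
          rw [disjoint_insert_left, disjoint_insert_left]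
          exact ⟨hvH, hxH, hHZ⟩) (by simp) (by
          rw [← hnd]
          have h1 : (insert v (insert x Z')).card ≤ cnt b M + 2 := by
            have h2 := card_insert_le v (insert x Z')
            have h3 := card_insert_le x Z'
            omega
          have h2 : ((insert v (insert x Z')).card : ℝ) ≤ cnt b M + 2 := by exact_mod_cast h1
          linarith) (cf := a') (Lh := l'.map (fun c => (R x, c)) ++ L') (by
          rw [← List.cons_append]
          exact (hal'.map _).append_right _) (by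
          intro p hp
          rcases List.mem_append.1 hp with h | h
          · obtain ⟨d, hd, rfl⟩ := List.mem_map.1 h
            exact ⟨x, Or.inl rfl, rfl⟩
          · obtain ⟨y, h1, _, h2⟩ := hL'h p h
            exact ⟨y, Or.inr h1, h2⟩) (m := m) (by
          rw [List.length_append, List.length_map, hm]
          omega) hn₁ hhost hK hC hK' hC' hKK hmC (by
          intro p hp
          rcases List.mem_append.1 hp with h | h
          · obtain ⟨d, hd, rfl⟩ := List.mem_map.1 h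
            obtain ⟨h1, h2, h3⟩ := hmem' d (List.mem_cons_of_mem _ hd)
            exact (ih d h1 h2 h3).1
          · have hld : (Fo.ofList l).Deg b := by
              rw [Fo.deg_iff, Fo.trees_ofList]
              intro d hd
              exact ⟨(hmem d (List.mem_cons_of_mem _ hd)).1, (hmem d (List.mem_cons_of_mem _ hd)).2.1⟩
            have h1 := hPE'.deg hld p h
            have h2 := isz_mem h
            have h3 := hPE'.size
            exact (ih p.2 h1.1 h1.2 (by omega)).1) (by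
          obtain ⟨h1, h2, h3⟩ := hmem' a' (List.mem_cons_self)
          exact (ih a' h1 h2 h3).2) (by
          rw [show (Fo.node (.node a (Fo.ofList l)) .nil).size = c₀.size + 1 by
            rw [← hcsz]; simp only [Fo.size, Nat.add_zero]]
          push_cast
          have h1 : (c₀.size : ℝ) ≤ b * (a.size + 1) := by exact_mod_cast hsz
          have h1' : (a.size : ℝ) ≤ b * (a'.size + 1) := by exact_mod_cast hsz'
          obtain ⟨tf, htf⟩ : ∃ tf : ℝ, tf = (a'.size : ℝ) + 1 := ⟨_, rfl⟩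
          rw [← htf] at h1' ⊢
          have h2 : 1 ≤ tf := by rw [htf]; have : (0 : ℝ) ≤ a'.size := by positivity
                                 linarith
          have h3 : (c₀.size : ℝ) + 1 ≤ 3 * b ^ 2 * tf := by
            have h4 : (b : ℝ) * (a.size + 1) ≤ b * (b * tf + 1) := mul_le_mul_of_nonneg_left (by linarith) (by linarith)
            have h5 : (b : ℝ) ^ 2 * 1 ≤ b ^ 2 * tf := mul_le_mul_of_nonneg_left h2 (by positivity)
            have h6 : (b : ℝ) * (b * tf + 1) = b ^ 2 * tf + b := by ring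
            linarith
          calc 2 * ω * (c₀.size + 1) ≤ 2 * ω * (3 * b ^ 2 * tf) := mul_le_mul_of_nonneg_left h3 (by positivity)
            _ = 6 * (ω * b ^ 2) * tf := by ring
            _ = tf := by rw [hω6]; ring) (by
          rw [show (Fo.node (.node a (Fo.ofList l)) .nil).size = c₀.size + 1 by
            rw [← hcsz]; simp only [Fo.size, Nat.add_zero]]
          push_cast
          exact hn)
      refine ⟨S, hS1, ?_⟩
      obtain ⟨z, A, B, h1, h2, h3, h4, h5, h6, h7⟩ := hS2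
      refine ⟨z, A, B, h1, h2, h3, h4, h5, ?_, h7⟩
      rw [emb_iff_embX] at h6 ⊢
      simp only [Fo.trees, Fo.trees_ofList] at h6
      exact EmbX.perm ((hal.map _).symm) h6

/-- **Step lemma** -/
theorem step (b : ℕ) (hb : 1 ≤ b) : ∃ (κ η γ : ℝ) (n₀ A : ℕ), 0 < κ ∧ 0 < η ∧ 0 < γ ∧
    ∀ {V : Type} {R : V → V → Prop}, AE32.Tour R → ∀ (K C K' C' : ℝ), 0 ≤ K → 1 ≤ K' → K ≤ (1 + γ) * K' →
      0 ≤ C → 0 ≤ C' → ∀ c : Fo, c.len ≤ b → c.Deg b →
        (∀ c' : Fo, c'.len ≤ b → c'.Deg b → c'.size < c.size → EE R K C κ η c' ∧ EE R K' C' κ η c') →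
        ∀ (X : Finset V) (N : V → Prop), K' * (c.size + 1) + C' ≤ X.card → n₀ ≤ X.card → A * C ≤ X.card →
          Cls R X κ η N → In R c N X := by
  have hb0 : (1 : ℝ) ≤ b := by exact_mod_cast hb
  have hb2 : (1 : ℝ) ≤ b ^ 2 := by nlinarith
  obtain ⟨ω, hω⟩ : ∃ ω : ℝ, ω = 1 / (6 * (b : ℝ) ^ 2) := ⟨_, rfl⟩
  obtain ⟨c, hc⟩ : ∃ c : ℝ, c = ω / 8 := ⟨_, rfl⟩
  obtain ⟨η, hη⟩ : ∃ η : ℝ, η = ω / 40 := ⟨_, rfl⟩
  obtain ⟨η₁, hη₁⟩ : ∃ η₁ : ℝ, η₁ = c * η / 4 := ⟨_, rfl⟩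
  obtain ⟨κ₀, hκ₀⟩ : ∃ κ₀ : ℝ, κ₀ = η₁ / 20 := ⟨_, rfl⟩
  obtain ⟨κ₁, hκ₁⟩ : ∃ κ₁ : ℝ, κ₁ = κ₀ ^ 2 / 4 := ⟨_, rfl⟩
  obtain ⟨κ, hκ⟩ : ∃ κ : ℝ, κ = c * κ₁ / 4 := ⟨_, rfl⟩
  obtain ⟨σ₂, hσ₂⟩ : ∃ σ₂ : ℝ, σ₂ = κ₁ / 20 := ⟨_, rfl⟩
  obtain ⟨μ, hμ⟩ : ∃ μ : ℝ, μ = σ₂ / 4 := ⟨_, rfl⟩
  obtain ⟨ρ, hρ⟩ : ∃ ρ : ℝ, ρ = κ / 8 := ⟨_, rfl⟩
  obtain ⟨σ, hσ⟩ : ∃ σ : ℝ, σ = ρ * κ / 32 := ⟨_, rfl⟩
  obtain ⟨δ, hδ⟩ : ∃ δ : ℝ, δ = c * σ / 4 := ⟨_, rfl⟩
  have hω0 : 0 < ω := by rw [hω]; positivity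
  have hω1 : ω ≤ 1 / 6 := by
    rw [hω]
    exact one_div_le_one_div_of_le (by norm_num) (by linarith)
  have hc0 : 0 < c := by rw [hc]; positivity
  have hη0 : 0 < η := by rw [hη]; positivity
  have hη₁0 : 0 < η₁ := by rw [hη₁]; positivity
  have hκ₀0 : 0 < κ₀ := by rw [hκ₀]; positivity
  have hκ₁0 : 0 < κ₁ := by rw [hκ₁]; positivity
  have hκ0 : 0 < κ := by rw [hκ]; positivity
  have hσ₂0 : 0 < σ₂ := by rw [hσ₂]; positivity
  have hμ0 : 0 < μ := by rw [hμ]; positivity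
  have hρ0 : 0 < ρ := by rw [hρ]; positivity
  have hσ0 : 0 < σ := by rw [hσ]; positivity
  have hδ0 : 0 < δ := by rw [hδ]; positivity
  have hc1 : c ≤ 1 / 48 := by rw [hc]; linarith
  have hη1 : η ≤ 1 := by rw [hη]; linarith
  have hcη : c * η ≤ 1 * η := mul_le_mul_of_nonneg_right (by linarith) hη0.le
  have hκ₀1 : κ₀ ≤ 1 := by linarith
  have hκκ : κ₁ ≤ κ₀ := by
    have h1 : κ₀ ^ 2 ≤ κ₀ * 1 := by
      rw [sq]
      exact mul_le_mul_of_nonneg_left hκ₀1 hκ₀0.le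
    linarith
  have hcκ : c * κ₁ ≤ 1 / 48 * κ₁ := mul_le_mul_of_nonneg_right hc1 hκ₁0.le
  have hκ1 : κ ≤ 1 := by linarith
  have hρκ : ρ * κ ≤ ρ * 1 := mul_le_mul_of_nonneg_left hκ1 hρ0.le
  have hσ1 : σ ≤ 1 := by linarith
  have hcσ : c * σ ≤ 1 / 48 * σ := mul_le_mul_of_nonneg_right hc1 hσ0.le
  have hδ1 : δ ≤ 1 := by linarith
  obtain ⟨M, hM⟩ : ∃ M : ℕ, M = ⌈8 / κ⌉₊ + 1 := ⟨_, rfl⟩
  obtain ⟨m, hm⟩ : ∃ m : ℕ, m = b + b ^ (M + 1) := ⟨_, rfl⟩
  obtain ⟨n₁, hn₁⟩ := host_items hδ0 hδ1 hc0 m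
  obtain ⟨n₂, hn₂⟩ := exists_nat_ge ((100 + (cnt b M : ℝ) + b) / δ)
  refine ⟨κ, η, ω, 2 * n₁ + n₂, 24 * b ^ 2 * m, hκ0, hη0, hω0, ?_⟩
  intro V R hT K C K' C' hK hK' hKK hC hC' c₀ hlen hdeg ih X N hn hn₀ hAC hcls
  have hbig : 100 + (cnt b M : ℝ) + b ≤ δ * X.card := by
    have h1 : (n₂ : ℝ) ≤ X.card := by exact_mod_cast (by omega : n₂ ≤ X.card)
    rw [div_le_iff₀ hδ0] at hn₂
    have h2 : (n₂ : ℝ) * δ ≤ X.card * δ := mul_le_mul_of_nonneg_right h1 hδ0.le
    linarith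
  have hcnt0 : (0 : ℝ) ≤ cnt b M := by positivity
  refine step_aux hT hb (X := X) (ω := ω) (c := c) (η := η) (η₁ := η₁) (κ₀ := κ₀) (κ₁ := κ₁) (κ := κ) (τ := η₁ / 8)
    (σ₂ := σ₂) (μ := μ) (ρ := ρ) (σ := σ) (ε := δ) (δ := δ) ?_ hω hκ₀0 (by linarith) hκκ hκ₁ rfl hM hm hbig
    (by omega) hn₁ hK hC hK' hC' hKK ?_ c₀ hlen hdeg ih N hn hcls
  · exact {
      hω := hω0
      hω1 := hω1
      hc := hc
      hη := hη
      hη₁ := hη₁0
      hη₁' := by linarith
      hκ₁ := hκ₁0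
      hκ₁' := by linarith
      hκ₁η := by linarith
      hκ := hκ0
      hκ' := by linarith
      hσ₂ := hσ₂0
      hσ₂τ := by linarith
      hσ₂κ := by linarith
      hσ₂η := by linarith
      hμ := hμ0
      hμσ := by linarith
      hρ := hρ0
      hρμ := by linarith
      hρκ := by linarith
      hσ := hσ0
      hσρ := by linarith
      hε := hδ0
      hε' := by linarith
      hδ := hδ0
      hδ' := by linarith
      hn := by linarith }
  · have h1 : ω * (b : ℝ) ^ 2 = 1 / 6 := by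
      rw [hω]
      field_simp
    push_cast at hAC
    have h2 : ω / 4 * (24 * b ^ 2 * m * C) ≤ ω / 4 * X.card := mul_le_mul_of_nonneg_left hAC (by positivity)
    have h3 : ω / 4 * (24 * b ^ 2 * m * C) = 6 * (ω * b ^ 2) * (m * C) := by ring
    rw [h3, h1] at h2
    linarith

end AE15
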