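import Pool.Agent.AE32.Defs

/-!
# Robustly reaching vertices in tournaments: the structure lemma

`nO R X v`, `nI R X v`: out- and in-neighbours of `v` in `X`. `Good R κ η X v`: every subset of `X` which contains the
out-neighbours of `v` and every vertex having at least `κ |X|` in-neighbours in it misses at most `η |X|` vertices.
-/

namespace AE15

open Finset
open scoped Classical

variable {V : Type*} {R : V → V → Prop}

/-- the out-neighbours of `v` in `X` -/
noncomputable def nO (R : V → V → Prop) (X : Finset V) (v : V) : Finset V := X.filter (fun u => R v u)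

/-- the in-neighbours of `v` in `X` -/
noncomputable def nI (R : V → V → Prop) (X : Finset V) (v : V) : Finset V := X.filter (fun u => R u v)

theorem mem_nO {X : Finset V} {v u : V} : u ∈ nO R X v ↔ u ∈ X ∧ R v u := by simp [nO]

theorem mem_nI {X : Finset V} {v u : V} : u ∈ nI R X v ↔ u ∈ X ∧ R u v := by simp [nI]

theorem nO_sub {X : Finset V} {v : V} : nO R X v ⊆ X := filter_subset _ _

theorem nI_sub {X : Finset V} {v : V} : nI R X v ⊆ X := filter_subset _ _

theorem nO_mono {X Y : Finset V} {v : V} (h : X ⊆ Y) : nO R X v ⊆ nO R Y v := filter_subset_filter _ h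

theorem nI_mono {X Y : Finset V} {v : V} (h : X ⊆ Y) : nI R X v ⊆ nI R Y v := filter_subset_filter _ h

/-- double counting of the arcs from `A` to `B` -/
theorem sum_nO_eq_sum_nI (A B : Finset V) :
    ∑ a ∈ A, (nO R B a).card = ∑ b ∈ B, (nI R A b).card := by
  simp only [nO, nI, card_filter]
  rw [sum_comm]

/-- `C` is closed: every vertex of `X` outside `C` has fewer than `κ |X|` in-neighbours in `C` -/
def Closed (R : V → V → Prop) (κ : ℝ) (X C : Finset V) : Prop :=
  ∀ z ∈ X, z ∉ C → ((nI R C z).card : ℝ) < κ * X.card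

/-- `v` reaches robustly all but at most `η |X|` vertices of `X` -/
def Good (R : V → V → Prop) (κ η : ℝ) (X : Finset V) (v : V) : Prop :=
  ∀ C ⊆ X, nO R X v ⊆ C → Closed R κ X C → ((X \ C).card : ℝ) ≤ η * X.card

theorem card_nO_add_nI (hT : AE32.Tour R) {X : Finset V} {v : V} (hv : v ∉ X) :
    (nO R X v).card + (nI R X v).card = X.card := by
  rw [← card_union_of_disjoint]
  · congr 1
    ext u
    simp only [mem_union, mem_nO, mem_nI]
    constructor
    · rintro (h | h) <;> exact h.1
    · intro h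
      rcases hT.tot v u (fun e => hv (e ▸ h)) with h1 | h1
      · exact Or.inl ⟨h, h1⟩
      · exact Or.inr ⟨h, h1⟩
  · rw [disjoint_left]
    intro u h1 h2
    rw [mem_nO] at h1
    rw [mem_nI] at h2
    exact hT.asym _ _ h1.2 h2.2

/-- in a tournament on `A` the out-degrees and the in-degrees add up to `|A| - 1` -/
theorem card_nO_add_nI' (hT : AE32.Tour R) {X : Finset V} {v : V} (hv : v ∈ X) :
    (nO R X v).card + (nI R X v).card + 1 = X.card := by
  have h := card_nO_add_nI hT (X := X.erase v) (v := v) (by simp)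
  have h1 : nO R (X.erase v) v = nO R X v := by
    ext u
    simp only [mem_nO, mem_erase]
    constructor
    · rintro ⟨⟨_, h1⟩, h2⟩; exact ⟨h1, h2⟩
    · rintro ⟨h1, h2⟩
      exact ⟨⟨fun e => hT.irr v (by rw [e] at h2; exact h2), h1⟩, h2⟩
  have h2 : nI R (X.erase v) v = nI R X v := by
    ext u
    simp only [mem_nI, mem_erase]
    constructor
    · rintro ⟨⟨_, h1⟩, h2⟩; exact ⟨h1, h2⟩
    · rintro ⟨h1, h2⟩
      exact ⟨⟨fun e => hT.irr v (by rw [e] at h2; exact h2), h1⟩, h2⟩
  rw [h1, h2] at h
  rw [h, card_erase_add_one hv]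

/-- the number of arcs of the tournament on `A` -/
theorem two_mul_sum_nO (hT : AE32.Tour R) (A : Finset V) :
    2 * ∑ a ∈ A, (nO R A a).card = A.card * (A.card - 1) := by
  have h1 : ∑ a ∈ A, ((nO R A a).card + (nI R A a).card) = ∑ a ∈ A, (A.card - 1) := by
    refine sum_congr rfl (fun a ha => ?_)
    have := card_nO_add_nI' hT ha
    omega
  rw [sum_add_distrib, ← sum_nO_eq_sum_nI A A, sum_const, smul_eq_mul] at h1
  rw [two_mul]
  exact h1

/-- few vertices of a tournament have small out-degree -/
theorem card_low (hT : AE32.Tour R) (A : Finset V) (j : ℕ) :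
    (A.filter (fun v => (nO R A v).card ≤ j)).card ≤ 2 * j + 1 := by
  set L := A.filter (fun v => (nO R A v).card ≤ j) with hL
  have h1 := two_mul_sum_nO hT L
  have h2 : ∑ a ∈ L, (nO R L a).card ≤ ∑ a ∈ L, j := by
    refine sum_le_sum (fun a ha => ?_)
    exact (card_le_card (nO_mono (filter_subset _ _))).trans (mem_filter.1 ha).2
  rw [sum_const, smul_eq_mul] at h2
  by_contra hc
  push Not at hc
  have h3 : L.card * (2 * j) < L.card * (L.card - 1) := by
    apply Nat.mul_lt_mul_of_pos_left
    · omega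
    · omega
  have h4 : 2 * ∑ a ∈ L, (nO R L a).card ≤ L.card * (2 * j) := by
    calc 2 * ∑ a ∈ L, (nO R L a).card ≤ 2 * (L.card * j) := by omega
      _ = L.card * (2 * j) := by ring
  omega

/-- **Structure lemma**: a tournament on `X` contains a set `G` of linear size all of whose vertices reach robustly
almost everything, such that every other vertex has few out-neighbours in `G`. -/
theorem structure_lemma (hT : AE32.Tour R) (X : Finset V) {η κ₀ : ℝ} (h0 : 0 < κ₀) (hκ : κ₀ ≤ 1) (hη : η ≤ 1)
    (hn : 1 ≤ κ₀ * X.card) :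
    ∃ G ⊆ X, (η - 5 * κ₀) * X.card ≤ G.card ∧ (∀ g ∈ G, Good R (κ₀ ^ 2 / 4) η X g) ∧
      ∀ u ∈ X, u ∉ G → ((nO R G u).card : ℝ) < 2 * κ₀ * X.card := by
  obtain ⟨n, hnd⟩ : ∃ n : ℝ, n = (X.card : ℝ) := ⟨_, rfl⟩
  rw [← hnd] at hn ⊢
  have hn0 : 0 ≤ n := by rw [hnd]; positivity
  have hnpos : 0 < n := by
    rcases hn0.eq_or_lt with h | h
    · rw [← h] at hn; norm_num at hn
    · exact h
  -- a minimal set
  set P : Finset V → Prop := fun U => η * n ≤ U.card ∧ ∀ z ∈ X, z ∉ U → ((nO R U z).card : ℝ) < κ₀ * n with hP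
  have hne : (X.powerset.filter P).Nonempty := by
    refine ⟨X, ?_⟩
    simp only [mem_filter, mem_powerset]
    refine ⟨Subset.refl _, ?_, fun z hz hz' => absurd hz hz'⟩
    rw [← hnd]; nlinarith
  obtain ⟨U, hU, hmin⟩ := exists_min_image _ (fun U => U.card) hne
  simp only [mem_filter, mem_powerset] at hU hmin
  obtain ⟨hUX, hUη, hUz⟩ := hU
  have hUn : (U.card : ℝ) ≤ n := by rw [hnd]; exact_mod_cast card_le_card hUX
  set G := U.filter (fun v => 2 * κ₀ * n ≤ ((nO R U v).card : ℝ)) with hG
  have hGU : G ⊆ U := filter_subset _ _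
  refine ⟨G, hGU.trans hUX, ?_, ?_, ?_⟩
  · -- the size of `G`
    have h1 : ((U.filter (fun v => ¬ (2 * κ₀ * n ≤ ((nO R U v).card : ℝ)))).card : ℝ) ≤ 2 * (2 * κ₀ * n) + 1 := by
      have h2 := card_low hT U ⌊2 * κ₀ * n⌋₊
      have h3 : ((⌊2 * κ₀ * n⌋₊ : ℕ) : ℝ) ≤ 2 * κ₀ * n := Nat.floor_le (by positivity)
      have h5 : (U.filter (fun v => ¬ (2 * κ₀ * n ≤ ((nO R U v).card : ℝ)))).card ≤
          (U.filter (fun v => (nO R U v).card ≤ ⌊2 * κ₀ * n⌋₊)).card := by
        apply card_le_card
        intro v hv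
        rw [mem_filter] at hv ⊢
        exact ⟨hv.1, Nat.le_floor (not_le.1 hv.2).le⟩
      have h4 : ((U.filter (fun v => ¬ (2 * κ₀ * n ≤ ((nO R U v).card : ℝ)))).card : ℝ) ≤
          ((2 * ⌊2 * κ₀ * n⌋₊ + 1 : ℕ) : ℝ) := by
        exact_mod_cast h5.trans h2
      push_cast at h4
      linarith
    have h2 : (U.card : ℝ) = G.card + (U.filter (fun v => ¬ (2 * κ₀ * n ≤ ((nO R U v).card : ℝ)))).card := by
      rw [hG]
      exact_mod_cast (card_filter_add_card_filter_not (s := U) (fun v => 2 * κ₀ * n ≤ ((nO R U v).card : ℝ))).symm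
    nlinarith
  · -- the vertices of `G` are good
    intro g hg C hCX hCg hC
    rw [← hnd]
    have hgU : g ∈ U := hGU hg
    have hg2 : 2 * κ₀ * n ≤ ((nO R U g).card : ℝ) := (mem_filter.1 hg).2
    have hκn : κ₀ ^ 2 / 4 * n ≤ κ₀ * n := by nlinarith
    -- many vertices of `U` are in `C`
    have hUC : 2 * κ₀ * n ≤ ((U ∩ C).card : ℝ) := by
      refine hg2.trans ?_
      have : nO R U g ⊆ U ∩ C := by
        intro w hw
        rw [mem_inter]
        exact ⟨nO_sub hw, hCg (nO_mono hUX hw)⟩
      exact_mod_cast card_le_card this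
    -- `C` contains `X \ U`
    have hXU : X \ C ⊆ U \ C := by
      intro z hz
      rw [mem_sdiff] at hz ⊢
      refine ⟨?_, hz.2⟩
      by_contra hzU
      have h1 := hC z hz.1 hz.2
      rw [← hnd] at h1
      have h2 := hUz z hz.1 hzU
      have h3 := card_nO_add_nI hT (X := U ∩ C) (v := z) (fun h => hzU (mem_inter.1 h).1)
      have h4 : ((nO R (U ∩ C) z).card : ℝ) ≤ (nO R U z).card := by
        exact_mod_cast card_le_card (nO_mono inter_subset_left)
      have h5 : ((nI R (U ∩ C) z).card : ℝ) ≤ (nI R C z).card := by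
        exact_mod_cast card_le_card (nI_mono inter_subset_right)
      have h6 : ((nO R (U ∩ C) z).card : ℝ) + (nI R (U ∩ C) z).card = (U ∩ C).card := by exact_mod_cast h3
      linarith
    have h7 : ((X \ C).card : ℝ) ≤ (U \ C).card := by exact_mod_cast card_le_card hXU
    refine h7.trans ?_
    by_contra hc
    push Not at hc
    -- the few vertices
    set F := (U ∩ C).filter (fun z => κ₀ * n / 2 ≤ ((nO R (U \ C) z).card : ℝ)) with hF
    have hF1 : (F.card : ℝ) ≤ κ₀ * n / 2 := by
      have h1 : ∑ z ∈ F, ((nO R (U \ C) z).card : ℝ) = ∑ y ∈ U \ C, ((nI R F y).card : ℝ) := by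
        exact_mod_cast sum_nO_eq_sum_nI F (U \ C)
      have h2 : (F.card : ℝ) * (κ₀ * n / 2) ≤ ∑ z ∈ F, ((nO R (U \ C) z).card : ℝ) := by
        rw [← nsmul_eq_mul]
        exact card_nsmul_le_sum _ _ _ (fun z hz => (mem_filter.1 hz).2)
      have h3 : ∑ y ∈ U \ C, ((nI R F y).card : ℝ) ≤ ∑ y ∈ U \ C, (κ₀ ^ 2 / 4 * n) := by
        refine sum_le_sum (fun y hy => ?_)
        rw [mem_sdiff] at hy
        have h4 := hC y (hUX hy.1) hy.2
        rw [← hnd] at h4
        have h5 : ((nI R F y).card : ℝ) ≤ (nI R C y).card := by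
          exact_mod_cast card_le_card (nI_mono ((filter_subset _ _).trans inter_subset_right))
        linarith
      rw [sum_const, nsmul_eq_mul] at h3
      have h4 : ((U \ C).card : ℝ) ≤ n := by
        refine le_trans ?_ hUn
        exact_mod_cast card_le_card sdiff_subset
      have h5 : (F.card : ℝ) * (κ₀ * n / 2) ≤ n * (κ₀ ^ 2 / 4 * n) := by
        refine (h2.trans (h1.le.trans h3)).trans ?_
        have : 0 ≤ κ₀ ^ 2 / 4 * n := by positivity
        nlinarith
      have h6 : 0 < κ₀ * n := by positivity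
      have h7 : (F.card : ℝ) * (κ₀ * n) ≤ (κ₀ * n / 2) * (κ₀ * n) := by nlinarith
      exact le_of_mul_le_mul_right h7 h6
    have hsub : (U \ C) ∪ F ⊆ U := by
      apply union_subset sdiff_subset
      exact (filter_subset _ _).trans inter_subset_left
    have hPU : P ((U \ C) ∪ F) := by
      constructor
      · refine hc.le.trans ?_
        exact_mod_cast card_le_card subset_union_left
      · intro z hz hzU
        rw [mem_union, not_or] at hzU
        by_cases hzU' : z ∈ U
        · have hzC : z ∈ C := by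
            by_contra h
            exact hzU.1 (mem_sdiff.2 ⟨hzU', h⟩)
          have h1 : ((nO R (U \ C) z).card : ℝ) < κ₀ * n / 2 := by
            by_contra h
            push Not at h
            exact hzU.2 (mem_filter.2 ⟨mem_inter.2 ⟨hzU', hzC⟩, h⟩)
          have h2 : nO R ((U \ C) ∪ F) z ⊆ nO R (U \ C) z ∪ F := by
            intro w hw
            rw [mem_nO, mem_union] at hw
            rw [mem_union, mem_nO]
            rcases hw.1 with h | h
            · exact Or.inl ⟨h, hw.2⟩
            · exact Or.inr h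
          have h3 : ((nO R ((U \ C) ∪ F) z).card : ℝ) ≤ (nO R (U \ C) z).card + F.card := by
            exact_mod_cast (card_le_card h2).trans (card_union_le _ _)
          linarith
        · have h1 := hUz z hz hzU'
          have h2 : ((nO R ((U \ C) ∪ F) z).card : ℝ) ≤ (nO R U z).card := by
            exact_mod_cast card_le_card (nO_mono hsub)
          linarith
    have h8 := hmin _ ⟨hsub.trans hUX, hPU⟩
    have h9 : U.card = (U \ C).card + (U ∩ C).card := (card_sdiff_add_card_inter U C).symm
    have h10 : ((U \ C) ∪ F).card ≤ (U \ C).card + F.card := card_union_le _ _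
    have h11 : ((U ∩ C).card : ℝ) ≤ F.card := by
      have : (U ∩ C).card ≤ F.card := by omega
      exact_mod_cast this
    have h12 : 0 < κ₀ * n := by positivity
    linarith
  · intro u hu huG
    have h2 : ((nO R G u).card : ℝ) ≤ (nO R U u).card := by
      exact_mod_cast card_le_card (nO_mono hGU)
    by_cases huU : u ∈ U
    · have h1 : ((nO R U u).card : ℝ) < 2 * κ₀ * n := by
        by_contra hc
        push Not at hc
        exact huG (mem_filter.2 ⟨huU, hc⟩)
      linarith
    · have h1 := hUz u hu huU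
      have h12 : 0 < κ₀ * n := by positivity
      linarith

end AE15
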