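import Pool.Agent.AE15.Structure

/-!
# Super vertices

A vertex `x` of maximal out-degree in the set `G` of the structure lemma: all in-neighbours of `x` are dominated by
good out-neighbours of `x`, and only few of them have few such dominators.
-/

namespace AE15

open Finset
open scoped Classical

variable {V : Type*} {R : V → V → Prop}

theorem super_vertex (hT : AE32.Tour R) {X G : Finset V} (hne : G.Nonempty) {m : ℕ}
    (hm : ∀ u ∈ X, u ∉ G → (nO R G u).card ≤ m) :
    ∃ x ∈ G, (∀ u ∈ G, R u x → (nO R (nI R G x) u).card + 1 ≤ (nI R (nO R G x) u).card) ∧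
      (∀ u ∈ X, u ∉ G → (nO R G x).card ≤ (nI R (nO R G x) u).card + m) ∧
      G.card ≤ 2 * (nO R G x).card + 1 := by
  obtain ⟨x, hx, hmax⟩ := exists_max_image G (fun v => (nO R G v).card) hne
  refine ⟨x, hx, ?_, ?_, ?_⟩
  · intro u hu hux
    have h1 := hmax u hu
    have hxu : u ∉ nO R G x := by
      intro h
      exact hT.asym _ _ hux (mem_nO.1 h).2
    have h2 := card_nO_add_nI hT hxu
    have h3 : insert x (nO R (nI R G x) u ∪ nO R (nO R G x) u) ⊆ nO R G u := by
      intro w hw
      rw [mem_insert, mem_union] at hw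
      rcases hw with h | h | h
      · rw [h]; exact mem_nO.2 ⟨hx, hux⟩
      · exact mem_nO.2 ⟨nI_sub (nO_sub h), (mem_nO.1 h).2⟩
      · exact mem_nO.2 ⟨nO_sub (nO_sub h), (mem_nO.1 h).2⟩
    have h4 : (insert x (nO R (nI R G x) u ∪ nO R (nO R G x) u)).card =
        (nO R (nI R G x) u).card + (nO R (nO R G x) u).card + 1 := by
      rw [card_insert_of_notMem, card_union_of_disjoint]
      · rw [disjoint_left]
        intro w h5 h6
        exact hT.asym _ _ (mem_nI.1 (nO_sub h5)).2 (mem_nO.1 (nO_sub h6)).2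
      · rw [mem_union, not_or]
        refine ⟨fun h => ?_, fun h => ?_⟩
        · exact hT.irr _ (mem_nI.1 (nO_sub h)).2
        · exact hT.irr _ (mem_nO.1 (nO_sub h)).2
    have h5 := card_le_card h3
    omega
  · intro u hu huG
    have h2 := card_nO_add_nI hT (X := nO R G x) (v := u) (fun h => huG (nO_sub h))
    have h3 := hm u hu huG
    have h4 : (nO R (nO R G x) u).card ≤ (nO R G u).card := card_le_card (nO_mono nO_sub)
    omega
  · have h1 := two_mul_sum_nO hT G
    have h2 : ∑ a ∈ G, (nO R G a).card ≤ G.card * (nO R G x).card := by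
      rw [← smul_eq_mul]
      exact sum_le_card_nsmul _ _ _ (fun a ha => hmax a ha)
    have h3 : 0 < G.card := hne.card_pos
    have h4 : G.card * (G.card - 1) ≤ G.card * (2 * (nO R G x).card) := by
      calc G.card * (G.card - 1) = 2 * ∑ a ∈ G, (nO R G a).card := h1.symm
        _ ≤ 2 * (G.card * (nO R G x).card) := by omega
        _ = G.card * (2 * (nO R G x).card) := by ring
    have h5 := Nat.le_of_mul_le_mul_left h4 h3
    omega

theorem super_count (hT : AE32.Tour R) {X G : Finset V} (hne : G.Nonempty) {m : ℕ}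
    (hm : ∀ u ∈ X, u ∉ G → (nO R G u).card ≤ m) :
    ∃ x ∈ G, ∀ j : ℕ, 2 * (j + m) + 1 < G.card →
      ((nI R X x).filter (fun u => (nI R (nO R G x) u).card ≤ j)).card ≤ 2 * j := by
  obtain ⟨x, hx, h1, h2, h3⟩ := super_vertex hT hne hm
  refine ⟨x, hx, fun j hj => ?_⟩
  have h4 : (nI R X x).filter (fun u => (nI R (nO R G x) u).card ≤ j) ⊆
      (nI R G x).filter (fun u => (nO R (nI R G x) u).card + 1 ≤ j) := by
    intro u hu
    rw [mem_filter, mem_nI] at hu
    have huG : u ∈ G := by
      by_contra h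
      have := h2 u hu.1.1 h
      omega
    rw [mem_filter, mem_nI]
    exact ⟨⟨huG, hu.1.2⟩, (h1 u huG hu.1.2).trans hu.2⟩
  refine (card_le_card h4).trans ?_
  rcases j with _ | j
  · simp
  · have h5 := card_low hT (nI R G x) j
    simp only [add_le_add_iff_right]
    omega

/-- the good dominators of `u` among the out-neighbours of `x` -/
noncomputable def dom (R : V → V → Prop) (κ η : ℝ) (X : Finset V) (x u : V) : Finset V :=
  X.filter (fun w => R x w ∧ R w u ∧ Good R κ η X w)

theorem mem_dom {κ η : ℝ} {X : Finset V} {x u w : V} :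
    w ∈ dom R κ η X x u ↔ w ∈ X ∧ R x w ∧ R w u ∧ Good R κ η X w := by simp [dom]

/-- `x` is super in `X`: for `j ≤ τ |X|` at most `2 j` in-neighbours of `x` have at most `j` good dominators among the
out-neighbours of `x`; in particular (`j = 0`) each of them has one. -/
def Super (R : V → V → Prop) (κ η τ : ℝ) (X : Finset V) (x : V) : Prop :=
  x ∈ X ∧ ∀ j : ℕ, (j : ℝ) ≤ τ * X.card → ((nI R X x).filter (fun u => (dom R κ η X x u).card ≤ j)).card ≤ 2 * j

theorem Super.dom_nonempty {κ η τ : ℝ} (hτ : 0 ≤ τ) {X : Finset V} {x : V} (h : Super R κ η τ X x) {u : V} (hu : u ∈ X)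
    (hux : R u x) : (dom R κ η X x u).Nonempty := by
  have h1 := h.2 0 (by push_cast; positivity)
  rw [Nat.mul_zero, Nat.le_zero, card_eq_zero] at h1
  by_contra hc
  rw [not_nonempty_iff_eq_empty] at hc
  have : u ∈ (nI R X x).filter (fun u => (dom R κ η X x u).card ≤ 0) := by
    rw [mem_filter, mem_nI, hc]
    simp [hu, hux]
  rw [h1] at this
  simp at this

/-- **Existence of super vertices** -/
theorem exists_super (hT : AE32.Tour R) (X : Finset V) {η κ₀ : ℝ} (h0 : 0 < κ₀) (hκ : 20 * κ₀ ≤ η) (hη : η ≤ 1)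
    (hn : 1 ≤ κ₀ * X.card) : ∃ x, Super R (κ₀ ^ 2 / 4) η (η / 8) X x := by
  obtain ⟨G, hGX, hG1, hG2, hG3⟩ := structure_lemma hT X h0 (by linarith) hη hn
  obtain ⟨n, hnd⟩ : ∃ n : ℝ, n = (X.card : ℝ) := ⟨_, rfl⟩
  have hn0 : 0 ≤ n := by rw [hnd]; positivity
  rw [← hnd] at hn hG1 hG3
  have hne : G.Nonempty := by
    rw [← card_pos]
    have : (0 : ℝ) < G.card := by nlinarith
    exact_mod_cast this
  obtain ⟨x, hx, h1⟩ := super_count hT (X := X) hne (m := ⌊2 * κ₀ * n⌋₊)
    (fun u hu huG => Nat.le_floor (hG3 u hu huG).le)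
  refine ⟨x, hGX hx, fun j hj => ?_⟩
  rw [← hnd] at hj
  have h2 : 2 * (j + ⌊2 * κ₀ * n⌋₊) + 1 < G.card := by
    have h3 : ((⌊2 * κ₀ * n⌋₊ : ℕ) : ℝ) ≤ 2 * κ₀ * n := Nat.floor_le (by positivity)
    have h4 : ((2 * (j + ⌊2 * κ₀ * n⌋₊) + 1 : ℕ) : ℝ) < G.card := by
      push_cast
      nlinarith
    exact_mod_cast h4
  refine (card_le_card ?_).trans (h1 j h2)
  intro u hu
  rw [mem_filter] at hu ⊢
  refine ⟨hu.1, le_trans (card_le_card ?_) hu.2⟩
  intro w hw
  rw [mem_nI, mem_nO] at hw
  rw [mem_dom]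
  exact ⟨hGX hw.1.1, hw.1.2, hw.2, hG2 w hw.1.1⟩

/-- `X` without the first `i` vertices of the sequence `y` -/
noncomputable def rest (X : Finset V) (y : ℕ → V) (i : ℕ) : Finset V := X \ (range i).image y

theorem rest_sub {X : Finset V} {y : ℕ → V} {i : ℕ} : rest X y i ⊆ X := sdiff_subset

theorem rest_card {X : Finset V} {y : ℕ → V} {i : ℕ} : X.card ≤ (rest X y i).card + i := by
  have h1 := le_card_sdiff ((range i).image y) X
  have h2 : ((range i).image y).card ≤ i := by
    simpa using card_image_le (s := range i) (f := y)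
  unfold rest
  omega

theorem rest_congr {X : Finset V} {y y' : ℕ → V} {i : ℕ} (h : ∀ k < i, y k = y' k) : rest X y i = rest X y' i := by
  unfold rest
  congr 1
  apply image_congr
  intro k hk
  exact h k (by simpa using hk)

/-- a long sequence of vertices each of which is super after the removal of the previous ones -/
theorem exists_seq (hT : AE32.Tour R) (X : Finset V) {η κ₀ : ℝ} (h0 : 0 < κ₀) (hκ : 20 * κ₀ ≤ η) (hη : η ≤ 1)
    (J : ℕ) (hn : 1 ≤ κ₀ * ((X.card : ℝ) - J)) :
    ∃ y : ℕ → V, ∀ i ≤ J, Super R (κ₀ ^ 2 / 4) η (η / 8) (rest X y i) (y i) := by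
  have key : ∀ y : ℕ → V, ∀ i ≤ J, ∃ x, Super R (κ₀ ^ 2 / 4) η (η / 8) (rest X y i) x := by
    intro y i hi
    apply exists_super hT _ h0 hκ hη
    refine hn.trans (mul_le_mul_of_nonneg_left ?_ h0.le)
    have h1 := rest_card (X := X) (y := y) (i := i)
    have h2 : (X.card : ℝ) ≤ ((rest X y i).card + i : ℕ) := by exact_mod_cast h1
    push_cast at h2
    have h3 : (i : ℝ) ≤ J := by exact_mod_cast hi
    linarith
  have main : ∀ L ≤ J + 1, ∃ y : ℕ → V, ∀ i < L, Super R (κ₀ ^ 2 / 4) η (η / 8) (rest X y i) (y i) := by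
    intro L
    induction L with
    | zero =>
      intro _
      have hX : X.Nonempty := by
        rw [← card_pos]
        by_contra hc
        push Not at hc
        rw [Nat.le_zero.1 hc] at hn
        have : (0 : ℝ) ≤ J := by positivity
        push_cast at hn
        nlinarith
      exact ⟨fun _ => hX.choose, fun i hi => absurd hi (by omega)⟩
    | succ L ih =>
      intro hL
      obtain ⟨y, hy⟩ := ih (by omega)
      obtain ⟨x, hx⟩ := key y L (by omega)
      refine ⟨Function.update y L x, fun i hi => ?_⟩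
      rcases Nat.lt_succ_iff_lt_or_eq.1 hi with h | h
      · rw [rest_congr (y' := y) (fun k hk => by rw [Function.update_of_ne (by omega)]),
          Function.update_of_ne (by omega)]
        exact hy i h
      · subst h
        rw [rest_congr (y' := y) (fun k hk => by rw [Function.update_of_ne (by omega)]), Function.update_self]
        exact hx
  obtain ⟨y, hy⟩ := main (J + 1) le_rfl
  exact ⟨y, fun i hi => hy i (by omega)⟩

end AE15
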