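import Pool.Agent.AE15.Super

/-!
# Super vertices of large in-degree

Variant of `Super` where the vertices of in-degree less than a constant `c` are disregarded.
-/

namespace AE15

open Finset
open scoped Classical

variable {V : Type*} {R : V → V → Prop}

/-- the vertices of in-degree less than `c` -/
noncomputable def low (R : V → V → Prop) (c : ℕ) (X : Finset V) : Finset V := X.filter (fun u => (nI R X u).card < c)

theorem mem_low {c : ℕ} {X : Finset V} {u : V} : u ∈ low R c X ↔ u ∈ X ∧ (nI R X u).card < c := by simp [low]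

theorem low_mono {c : ℕ} {X Y : Finset V} (h : Y ⊆ X) {u : V} (hu : u ∈ low R c X) (huY : u ∈ Y) : u ∈ low R c Y := by
  rw [mem_low] at hu ⊢
  exact ⟨huY, (card_le_card (nI_mono h)).trans_lt hu.2⟩

/-- there are at most `2 c` vertices of in-degree less than `c` -/
theorem card_low_in (hT : AE32.Tour R) (c : ℕ) (X : Finset V) : (low R c X).card ≤ 2 * c := by
  have hT' : AE32.Tour (fun a b => R b a) := ⟨hT.irr, fun a b h => (hT.tot a b h).symm, fun a b h => hT.asym b a h⟩
  rcases c with _ | c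
  · simp [low]
  · have h := card_low hT' X c
    have h1 : low R (c + 1) X = X.filter (fun v => (nO (fun a b => R b a) X v).card ≤ c) := by
      unfold low
      apply filter_congr
      intro u _
      rw [Nat.lt_succ_iff]
      rfl
    rw [h1]
    omega

/-- super vertices with in-degree at least `c`, where the vertices of in-degree less than `c` are disregarded -/
def SuperC (R : V → V → Prop) (κ η τ : ℝ) (c : ℕ) (X : Finset V) (x : V) : Prop :=
  x ∈ X ∧ c ≤ (nI R X x).card ∧ ∀ j : ℕ, (j : ℝ) ≤ τ * X.card →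
    ((nI R X x).filter (fun u => c ≤ (nI R X u).card ∧
      ((dom R κ η X x u).filter (fun w => c ≤ (nI R X w).card)).card ≤ j)).card ≤ 2 * j

theorem exists_superC (hT : AE32.Tour R) (X : Finset V) (c : ℕ) {η κ₀ : ℝ} (h0 : 0 < κ₀) (hκ : 20 * κ₀ ≤ η) (hη : η ≤ 1)
    (hn : 1 + 2 * c ≤ κ₀ * X.card) : ∃ x, SuperC R (κ₀ ^ 2 / 4) η (η / 8) c X x := by
  have hc0 : (0 : ℝ) ≤ c := by positivity
  obtain ⟨G, hGX, hG1, hG2, hG3⟩ := structure_lemma hT X h0 (by linarith) hη (by linarith)
  obtain ⟨n, hnd⟩ : ∃ n : ℝ, n = (X.card : ℝ) := ⟨_, rfl⟩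
  have hn0 : 0 ≤ n := by rw [hnd]; positivity
  rw [← hnd] at hn hG1 hG3
  have hcard : (G.card : ℝ) ≤ (G \ low R c X).card + 2 * c := by
    have h1 := le_card_sdiff (low R c X) G
    have h2 := card_low_in hT c X
    exact_mod_cast (by omega : G.card ≤ (G \ low R c X).card + 2 * c)
  have hne : (G \ low R c X).Nonempty := by
    rw [← card_pos]
    have : (0 : ℝ) < (G \ low R c X).card := by nlinarith
    exact_mod_cast this
  obtain ⟨x, hx, h1⟩ := super_count hT (X := X \ low R c X) hne (m := ⌊2 * κ₀ * n⌋₊) (fun u hu huG => by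
    rw [mem_sdiff] at hu
    have huG' : u ∉ G := fun h => huG (mem_sdiff.2 ⟨h, hu.2⟩)
    exact (card_le_card (nO_mono sdiff_subset)).trans (Nat.le_floor (hG3 u hu.1 huG').le))
  rw [mem_sdiff] at hx
  have hxX := hGX hx.1
  refine ⟨x, hxX, ?_, fun j hj => ?_⟩
  · by_contra h
    push Not at h
    exact hx.2 (mem_low.2 ⟨hxX, h⟩)
  rw [← hnd] at hj
  have h2 : 2 * (j + ⌊2 * κ₀ * n⌋₊) + 1 < (G \ low R c X).card := by
    have h3 : ((⌊2 * κ₀ * n⌋₊ : ℕ) : ℝ) ≤ 2 * κ₀ * n := Nat.floor_le (by positivity)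
    have h4 : ((2 * (j + ⌊2 * κ₀ * n⌋₊) + 1 : ℕ) : ℝ) < (G \ low R c X).card := by
      push_cast
      nlinarith
    exact_mod_cast h4
  refine (card_le_card ?_).trans (h1 j h2)
  intro u hu
  rw [mem_filter, mem_nI] at hu
  rw [mem_filter, mem_nI, mem_sdiff]
  refine ⟨⟨⟨hu.1.1, fun h => ?_⟩, hu.1.2⟩, le_trans (card_le_card ?_) hu.2.2⟩
  · have := (mem_low.1 h).2
    omega
  · intro w hw
    rw [mem_nI, mem_nO, mem_sdiff] at hw
    rw [mem_filter, mem_dom]
    refine ⟨⟨hGX hw.1.1.1, hw.1.2, hw.2, hG2 w hw.1.1.1⟩, ?_⟩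
    by_contra h
    push Not at h
    exact hw.1.1.2 (mem_low.2 ⟨hGX hw.1.1.1, h⟩)

end AE15
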