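import Pool.Agent.AE15.Reach

/-!
# Transfer of goodness to subsets
-/

namespace AE15

open Finset
open scoped Classical

variable {V : Type*} {R : V → V → Prop}

/-- Goodness survives in every subset in which the test sets of a small family have the expected sizes. -/
theorem exists_family (R : V → V → Prop) (κ η : ℝ) (X : Finset V) :
    ∃ FF : Finset (Finset V), FF.card ≤ X.card * (X.card + 1) ∧ (∀ F ∈ FF, F ⊆ X) ∧
      ∀ P ⊆ X, ∀ κ' η' : ℝ, (∀ F ∈ FF, κ * X.card ≤ F.card → κ' * P.card ≤ (F ∩ P).card) →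
        (∀ F ∈ FF, (F.card : ℝ) ≤ η * X.card → ((F ∩ P).card : ℝ) ≤ η' * P.card) →
        ∀ g ∈ X, Good R κ η X g → Good R κ' η' P g := by
  have key : ∀ g : V, ∃ FF : Finset (Finset V), FF.card ≤ X.card + 1 ∧ (∀ F ∈ FF, F ⊆ X) ∧
      ∀ P ⊆ X, ∀ κ' η' : ℝ, (∀ F ∈ FF, κ * X.card ≤ F.card → κ' * P.card ≤ (F ∩ P).card) →
        (∀ F ∈ FF, (F.card : ℝ) ≤ η * X.card → ((F ∩ P).card : ℝ) ≤ η' * P.card) →
        Good R κ η X g → Good R κ' η' P g := by
    intro g
    by_cases hg : Good R κ η X g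
    · obtain ⟨W, hW, hW2⟩ := hg.rch
      obtain ⟨FF, h1, h2, h3⟩ := hW.family
      refine ⟨insert (X \ W) FF, ?_, ?_, ?_⟩
      · have h4 := card_le_card hW.sub
        have h5 := card_insert_le (X \ W) FF
        omega
      · intro F hF
        rcases mem_insert.1 hF with rfl | hF
        · exact sdiff_subset
        · exact (h2 F hF).1
      · intro P hP κ' η' h4 h5 _ C hC hvC hcl
        have h6 := h3 P C (κ' * P.card) hP (fun F hF => h4 F (mem_insert_of_mem hF) (h2 F hF).2) hvC hcl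
        have h7 := h5 _ (mem_insert_self _ _) hW2
        have h8 : P \ C ⊆ (X \ W) ∩ P := by
          intro u hu
          rw [mem_sdiff] at hu
          rw [mem_inter, mem_sdiff]
          exact ⟨⟨hP hu.1, fun h => hu.2 (h6 (mem_inter.2 ⟨h, hu.1⟩))⟩, hu.1⟩
        have h9 : ((P \ C).card : ℝ) ≤ ((X \ W) ∩ P).card := by exact_mod_cast card_le_card h8
        exact h9.trans h7
    · exact ⟨∅, by simp, by simp, fun _ _ _ _ _ _ h => absurd h hg⟩
  choose FF h1 h2 h3 using key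
  refine ⟨X.biUnion FF, ?_, ?_, ?_⟩
  · refine card_biUnion_le.trans ?_
    rw [← smul_eq_mul]
    exact sum_le_card_nsmul _ _ _ (fun g _ => h1 g)
  · intro F hF
    obtain ⟨g, _, hF⟩ := mem_biUnion.1 hF
    exact h2 g F hF
  · intro P hP κ' η' h4 h5 g hg hgood
    exact h3 g P hP κ' η' (fun F hF => h4 F (mem_biUnion.2 ⟨g, hg, hF⟩)) (fun F hF => h5 F (mem_biUnion.2 ⟨g, hg, hF⟩))
      hgood

end AE15
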