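import Pool.Agent.AE15.Defs

/-!
# Module T: trees and lists of items
-/

namespace AE15

open Finset
open scoped Classical

variable {V : Type*} {R : V → V → Prop}

/-- the forest with a given list of trees -/
def Fo.ofList : List Fo → Fo
  | [] => .nil
  | a :: l => .node a (Fo.ofList l)

theorem Fo.ofList_trees (F : Fo) : Fo.ofList F.trees = F := by
  induction F with
  | nil => rfl
  | node c s _ ihs => simp only [Fo.trees, Fo.ofList, ihs]

theorem Fo.trees_ofList (l : List Fo) : (Fo.ofList l).trees = l := by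
  induction l with
  | nil => rfl
  | cons a l ih => simp only [Fo.ofList, Fo.trees, ih]

theorem Fo.len_eq (F : Fo) : F.len = F.trees.length := by
  induction F with
  | nil => rfl
  | node c s _ ihs => simp [Fo.len, Fo.trees, ihs]

theorem Fo.size_eq (F : Fo) : F.size = (F.trees.map (fun c => c.size + 1)).sum := by
  induction F with
  | nil => rfl
  | node c s _ ihs =>
    simp only [Fo.size, Fo.trees, List.map_cons, List.sum_cons, ← ihs]
    omega

theorem Fo.deg_iff (b : ℕ) (F : Fo) : F.Deg b ↔ ∀ c ∈ F.trees, c.len ≤ b ∧ c.Deg b := by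
  induction F with
  | nil => simp [Fo.Deg, Fo.trees]
  | node c s _ ihs => simp only [Fo.Deg, Fo.trees, List.mem_cons, forall_eq_or_imp, ihs, and_assoc]

/-- a forest is embedded iff its trees are embedded disjointly -/
theorem emb_iff_embX (F : Fo) (N : V → Prop) (S : Finset V) :
    Emb R F N S ↔ EmbX R (F.trees.map (fun c => (N, c))) S := by
  induction F generalizing S with
  | nil => exact Iff.rfl
  | node c s _ ihs =>
    constructor
    · rintro ⟨x, A, B, h1, h2, h3, h4, rfl, h6, h7⟩
      refine ⟨insert x A, B, ?_, ?_, ⟨x, A, ∅, h1, h2, by simp, by simp, by simp, h6, rfl⟩, (ihs B).1 h7⟩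
      · exact disjoint_insert_left.2 ⟨h3, h4⟩
      · rw [insert_union]
    · rintro ⟨A₁, A₂, h1, rfl, ⟨x, P, Q, h4, h5, h6, h7, rfl, h9, h10⟩, h3⟩
      obtain rfl : Q = ∅ := h10
      rw [union_empty, disjoint_insert_left] at h1
      refine ⟨x, P, A₂, h4, h5, h1.1, h1.2, ?_, h9, (ihs A₂).2 h3⟩
      rw [union_empty, insert_union]

/-- reordering the trees -/
theorem Emb.perm {l₁ l₂ : List Fo} (h : l₁.Perm l₂) {N : V → Prop} {S : Finset V}
    (hE : Emb R (Fo.ofList l₁) N S) : Emb R (Fo.ofList l₂) N S := by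
  rw [emb_iff_embX, Fo.trees_ofList] at hE ⊢
  exact hE.perm (h.map _)

/-- number of vertices of the items -/
def isz (L : List (Item V)) : ℕ := (L.map (fun p => p.2.size + 1)).sum

theorem isz_nil : isz ([] : List (Item V)) = 0 := rfl

theorem isz_cons (p : Item V) (L : List (Item V)) : isz (p :: L) = p.2.size + 1 + isz L := by
  simp [isz]

theorem isz_append (L₁ L₂ : List (Item V)) : isz (L₁ ++ L₂) = isz L₁ + isz L₂ := by
  simp [isz]

theorem EmbX.card {L : List (Item V)} {A : Finset V} (h : EmbX R L A) : A.card = isz L := by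
  induction L generalizing A with
  | nil => rw [show A = ∅ from h]; rfl
  | cons p L ih =>
    obtain ⟨A₁, A₂, h1, rfl, h2, h3⟩ := h
    rw [card_union_of_disjoint h1, h2.card, ih h3, isz_cons]
    simp [Fo.size]

theorem PE.size {F : Fo} {N : V → Prop} {Z : Finset V} {L : List (Item V)} (h : PE R F N Z L) :
    F.size = Z.card + isz L := by
  induction h with
  | nil N => rfl
  | pend c s N A L _ ih =>
    rw [Fo.size, ih, isz_cons]
    simp only
    omega
  | place c s N x A B L₁ L₂ _ h2 h3 h4 _ _ ih1 ih2 =>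
    rw [Fo.size, ih1, ih2, isz_append, card_insert_of_notMem (by simp [h2, h3]), card_union_of_disjoint h4]
    omega

theorem PE.deg {b : ℕ} {F : Fo} {N : V → Prop} {Z : Finset V} {L : List (Item V)} (h : PE R F N Z L)
    (hF : F.Deg b) : ∀ p ∈ L, p.2.len ≤ b ∧ p.2.Deg b := by
  induction h with
  | nil N => simp
  | pend c s N A L _ ih =>
    intro p hp
    rcases List.mem_cons.1 hp with rfl | hp
    · exact ⟨hF.1, hF.2.1⟩
    · exact ih hF.2.2 p hp
  | place c s N x A B L₁ L₂ _ _ _ _ _ _ ih1 ih2 =>
    intro p hp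
    rcases List.mem_append.1 hp with hp | hp
    · exact ih1 hF.2.1 p hp
    · exact ih2 hF.2.2 p hp

/-- the largest tree of a forest -/
theorem exists_large (b : ℕ) (F : Fo) (hF : F ≠ .nil) (hb : F.len ≤ b) :
    ∃ a l, F.trees.Perm (a :: l) ∧ F.size ≤ b * (a.size + 1) ∧ ∀ c ∈ l, c.size ≤ a.size := by
  have hne : F.trees.toFinset.Nonempty := by
    cases F with
    | nil => exact absurd rfl hF
    | node c s => exact ⟨c, by simp [Fo.trees]⟩
  obtain ⟨a, ha, hmax⟩ := exists_max_image F.trees.toFinset Fo.size hne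
  rw [List.mem_toFinset] at ha
  refine ⟨a, F.trees.erase a, List.perm_cons_erase ha, ?_, fun c hc => ?_⟩
  · rw [Fo.size_eq]
    have h1 : (F.trees.map (fun c => c.size + 1)).sum ≤ (F.trees.map (fun c => c.size + 1)).length • (a.size + 1) := by
      apply List.sum_le_card_nsmul
      intro x hx
      obtain ⟨c, hc, rfl⟩ := List.mem_map.1 hx
      have := hmax c (List.mem_toFinset.2 hc)
      omega
    rw [List.length_map, smul_eq_mul] at h1
    rw [Fo.len_eq] at hb
    exact h1.trans (Nat.mul_le_mul_right _ hb)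
  · exact hmax c (List.mem_toFinset.2 (List.mem_of_mem_erase hc))

/-- disjoint sets for the items give an embedding of the list -/
theorem embX_of_fin (L : List (Item V)) (S : Fin L.length → Finset V)
    (hS : ∀ i, Emb R (.node (L.get i).2 .nil) (L.get i).1 (S i))
    (hd : ∀ i j, i ≠ j → Disjoint (S i) (S j)) : EmbX R L (univ.biUnion S) := by
  induction L with
  | nil =>
    change univ.biUnion S = ∅
    ext y
    simp only [mem_biUnion, mem_univ, true_and, notMem_empty, iff_false, not_exists]
    intro i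
    exact i.elim0
  | cons p L ih =>
    refine ⟨S ⟨0, Nat.succ_pos _⟩, univ.biUnion (fun i : Fin L.length => S i.succ), ?_, ?_, hS ⟨0, Nat.succ_pos _⟩, ?_⟩
    · rw [disjoint_biUnion_right]
      intro i _
      exact hd _ _ (by intro h; simp [Fin.ext_iff] at h)
    · ext y
      simp only [mem_biUnion, mem_univ, true_and, mem_union]
      constructor
      · rintro ⟨i, hi⟩
        rcases Fin.eq_zero_or_eq_succ i with rfl | ⟨j, rfl⟩
        · exact Or.inl hi
        · exact Or.inr ⟨j, hi⟩
      · rintro (h | ⟨j, hj⟩)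
        · exact ⟨_, h⟩
        · exact ⟨_, hj⟩
    · exact ih (fun i => S i.succ) (fun i => hS i.succ) (fun i j hij => hd _ _ (by simpa using hij))

/-- a star -/
theorem star_in {X : Finset V} {v : V} {N : V → Prop} (hv : v ∈ X) (hN : N v) (hR : ¬ R v v) (c : Fo)
    (hc : ∀ a ∈ c.trees, a = .nil) (hl : c.len ≤ (nO R X v).card) : In R c N X := by
  have key : ∀ (c : Fo), (∀ a ∈ c.trees, a = .nil) → ∀ A : Finset V, (∀ a ∈ A, R v a) → A.card = c.len →
      Emb R c (R v) A := by
    intro c
    induction c with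
    | nil =>
      intro _ A _ hA
      exact card_eq_zero.1 hA
    | node d s _ ihs =>
      intro hc A hA hcard
      obtain rfl : d = .nil := hc d (by simp [Fo.trees])
      have hpos : 0 < A.card := by rw [hcard, Fo.len]; omega
      obtain ⟨x, hx⟩ := card_pos.1 hpos
      refine ⟨x, ∅, A.erase x, hA x hx, by simp, by simp, by simp, ?_, rfl, ?_⟩
      · rw [empty_union, insert_erase hx]
      · refine ihs (fun a ha => hc a (by simp [Fo.trees, ha])) _ (fun a ha => hA a (mem_of_mem_erase ha)) ?_
        rw [card_erase_of_mem hx, hcard, Fo.len]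
        omega
  obtain ⟨A, hA, hcard⟩ := exists_subset_card_eq hl
  have hvA : v ∉ A := fun h => hR (mem_nO.1 (hA h)).2
  refine ⟨insert v A, ?_, v, A, ∅, hN, hvA, by simp, by simp, by simp, ?_, rfl⟩
  · exact insert_subset hv (hA.trans nO_sub)
  · exact key c hc A (fun a ha => (mem_nO.1 (hA ha)).2) hcard

end AE15
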